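import Pool.Agent.MelR.Def

/-!
# Fox calculus for a retract which is a free product (module M4)

`R = K[P]`, `D m` the Fox derivatives of `r`, `Ω = R^k / R D` (left module).
(0) For `w` in the kernel of `q`: `(fox m w)_m ∈ R D` (normal closure of `r`: `fox (u v) = fox u + fox v` on the kernel,
  `fox (g v g⁻¹) = f g * fox v`).  So the class of `(fox m w)_m` in `Ω` depends only on `q w`; `dN n` = the class for
  `w = lf n`; `dN` is a derivation `N → Ω` (`N` acts through `ρ`), `dP p = dN (s p)` a derivation `P → Ω`.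
(1) Derivations of a free product: for the factor `l` there is a derivation `d : P → Ω` with
  `d (of x) = dP (of x)` for `x ∈ G l` and `d (of x) = 0` for `x ∈ G j`, `j ≠ l` (affine maps `x ↦ d g + g x`:
  `CoprodI.lift` into `Equiv.Perm Ω`, or into the endomorphisms).
(2) Let `p_j = ρ (q x_j)`, `E j ∈ R^k` a representative of `d (p_j)`, `F w = ∑ j, fox j w • E j = coc f E w ∈ R^k`;
  its class is `d (ρ (q w))` (two derivations of the free group with the same values at the generators).  So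
  `∑ j, D j • E j` has class `d 1 = 0`: `= a • D`.
(3) `c_i`: the map `w ↦ dP (of (pr i (ρ (q w))))` is a derivation of the free group for the action through
  `of ∘ pr i ∘ ρ ∘ q`, with the value (class of `W i j`) at `x_j`: `∑ j, inc (δ i j) • W i j` has class
  `dP (of (pr i 1)) = 0`: `= c_i • D` (`Good i c_i`).  The same for `l`.
(4) `c_i * a * D = c_i ∑ j D j • E j = ∑ j (c_i D j) • E j = ∑ j ∑ j', inc (δ i j') * W i j' j • E j
   = ∑ j', inc (δ i j') • F (lf (s (of (pr i p_j'))))`, and the class of `F (..)` is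
  `d (of (pr i p_j')) = 0` as `i ≠ l`: `F (..) = z j' • D`.  So `(c_i a - ∑ j', inc (δ i j') z j') D = 0`; cancel a
  `D m ≠ 0`.
(5) `c_l * a * D = ∑ j', inc (δ l j') • F (lf (s (of (pr l p_j'))))`, the class of `F (..)` is
  `d (of (pr l p_j')) = dP (of (pr l p_j'))`, the class of `W l j'`: `F (..) = W l j' + z j' • D`; so
  `c_l a D = c_l D + (∑ inc (δ l j') z j') D`: `c_l (1 - a) = - ∑ inc (δ l j') z j'`.
-/

set_option linter.unusedSectionVars false

open Finset

namespace Pool.Agent.MelR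

open Monoid (CoprodI)
open Pool.Agent.MelD (fox coc coc_mul coc_unique coc_eq_sum coc_of coc_one coc_inv map_fox)

variable {ι : Type} [DecidableEq ι] {G : ι → Type} [∀ i, Group (G i)] {K : Type} [Field K]
variable {N : Type} [Group N] {k : ℕ} (X : Ret N G k)

/-- Derivations of a free product with given values at one factor. -/
theorem exists_der {M : Type} [AddCommGroup M] [Module (MonoidAlgebra K (CoprodI G)) M] (dP : CoprodI G → M)
    (hdP : ∀ p p', dP (p * p') = dP p + MonoidAlgebra.of K (CoprodI G) p • dP p') (l : ι) :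
    ∃ d : CoprodI G → M, (∀ p p', d (p * p') = d p + MonoidAlgebra.of K (CoprodI G) p • d p') ∧
      (∀ x : G l, d (CoprodI.of x) = dP (CoprodI.of x)) ∧
      ∀ j, j ≠ l → ∀ x : G j, d (CoprodI.of x) = 0 := by
  obtain ⟨e, he⟩ : ∃ e : (j : ι) → G j → M, ∀ j x, e j x = if j = l then dP (CoprodI.of x) else 0 :=
    ⟨_, fun _ _ => rfl⟩
  have hemul : ∀ j (x y : G j), e j (x * y) = e j x + MonoidAlgebra.of K (CoprodI G) (CoprodI.of x) • e j y := by
    intro j x y
    rw [he, he, he]
    split_ifs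
    · rw [map_mul, hdP]
    · rw [smul_zero, add_zero]
  have heone : ∀ j, e j 1 = 0 := by
    intro j
    have := hemul j 1 1
    rw [mul_one, map_one, map_one, one_smul] at this
    exact left_eq_add.1 this
  obtain ⟨Φ, hΦ⟩ : ∃ Φ : (j : ι) → G j →* Function.End M,
      ∀ j x v, Φ j x v = e j x + MonoidAlgebra.of K (CoprodI G) (CoprodI.of x) • v := by
    refine ⟨fun j =>
      { toFun := fun x => (fun v => e j x + MonoidAlgebra.of K (CoprodI G) (CoprodI.of x) • v)
        map_one' := ?_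
        map_mul' := ?_ }, fun _ _ _ => rfl⟩
    · funext v
      rw [heone, map_one, map_one, one_smul, zero_add]
      rfl
    · intro x y
      funext v
      change _ = e j x + MonoidAlgebra.of K (CoprodI G) (CoprodI.of x) •
        (e j y + MonoidAlgebra.of K (CoprodI G) (CoprodI.of y) • v)
      rw [hemul, map_mul, map_mul, smul_add, smul_smul, add_assoc]
  obtain ⟨Λ, hΛ⟩ : ∃ Λ : CoprodI G →* Function.End M, ∀ j (x : G j), Λ (CoprodI.of x) = Φ j x :=
    ⟨CoprodI.lift Φ, fun j x => CoprodI.lift_of _ _⟩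
  have key : ∀ (p : CoprodI G) (v : M), Λ p v = Λ p 0 + MonoidAlgebra.of K (CoprodI G) p • v := by
    intro p
    induction p using CoprodI.induction_on with
    | one =>
      intro v
      rw [map_one, map_one, one_smul]
      change v = 0 + v
      rw [zero_add]
    | of j x =>
      intro v
      rw [hΛ, hΦ, hΦ, smul_zero, add_zero]
    | mul x y hx hy =>
      intro v
      rw [map_mul Λ]
      change Λ x (Λ y v) = Λ x (Λ y 0) + _
      rw [hy v, hx, hx (Λ y 0), map_mul, smul_add, smul_smul, add_assoc]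
  refine ⟨fun p => Λ p 0, fun p p' => ?_, fun x => ?_, fun j hj x => ?_⟩
  · have h1 : Λ (p * p') 0 = Λ p (Λ p' 0) := by
      rw [map_mul Λ]
      rfl
    exact h1.trans (key p (Λ p' 0))
  · beta_reduce
    rw [hΛ, hΦ, smul_zero, add_zero, he, if_pos rfl]
  · beta_reduce
    rw [hΛ, hΦ, smul_zero, add_zero, he, if_neg hj]

theorem exists_alg_reg (hreg : ∀ z : MonoidAlgebra K (CoprodI G), (∀ m, z * X.D K m = 0) → z = 0) {i l : ι}
    (hil : i ≠ l) : ∃ c_i c_l a : MonoidAlgebra K (CoprodI G), X.Good i c_i ∧ X.Good l c_l ∧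
      (∃ x : Fin k → MonoidAlgebra K (CoprodI G), c_i * a = ∑ j, inc K i (X.δ K i j) * x j) ∧
      (∃ x : Fin k → MonoidAlgebra K (CoprodI G), c_l * (1 - a) = ∑ j, inc K l (X.δ K l j) * x j) := by
  obtain ⟨Dv, hDv⟩ : ∃ Dv : Fin k → MonoidAlgebra K (CoprodI G), Dv = fun m => X.D K m := ⟨_, rfl⟩
  obtain ⟨S, hS⟩ : ∃ S : Submodule (MonoidAlgebra K (CoprodI G)) (Fin k → MonoidAlgebra K (CoprodI G)),
      S = Submodule.span _ {Dv} := ⟨_, rfl⟩
  have hmem : ∀ u : Fin k → MonoidAlgebra K (CoprodI G), u ∈ S → ∃ c : MonoidAlgebra K (CoprodI G), u = c • Dv := by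
    intro u hu
    rw [hS, Submodule.mem_span_singleton] at hu
    obtain ⟨c, hc⟩ := hu
    exact ⟨c, hc.symm⟩
  have hDS : Dv ∈ S := by
    rw [hS]
    exact Submodule.mem_span_singleton_self Dv
  -- the Fox derivatives
  obtain ⟨φ, hφ⟩ : ∃ φ : FreeGroup (Fin k) → Fin k → MonoidAlgebra K (CoprodI G),
      ∀ w m, φ w m = fox (X.f K) m w := ⟨_, fun _ _ => rfl⟩
  have hφm : ∀ g h, φ (g * h) = φ g + X.f K g • φ h := by
    intro g h
    funext m
    rw [hφ, Pool.Agent.MelD.fox_mul, Pi.add_apply, Pi.smul_apply, hφ, hφ, smul_eq_mul]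
  have hφ1 : φ 1 = 0 := by
    have := hφm 1 1
    rw [mul_one, map_one, one_smul] at this
    exact left_eq_add.1 this
  have hφi : ∀ g, φ g⁻¹ = -(X.f K g⁻¹ • φ g) := by
    intro g
    have := hφm g⁻¹ g
    rw [inv_mul_cancel, hφ1] at this
    exact eq_neg_of_add_eq_zero_left this.symm
  have hfq : ∀ w, X.f K w = MonoidAlgebra.of K (CoprodI G) (X.ρ (X.q w)) := fun w => rfl
  have hf1 : ∀ w, X.q w = 1 → X.f K w = 1 := by
    intro w hw
    rw [hfq, hw, map_one, map_one]
  have hqr : X.q X.r = 1 := by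
    rw [← MonoidHom.mem_ker, X.hr]
    exact Subgroup.subset_normalClosure (Set.mem_singleton _)
  have hker : ∀ w, X.q w = 1 → φ w ∈ S := by
    obtain ⟨H, hH⟩ : ∃ H : Subgroup (FreeGroup (Fin k)), ∀ w, w ∈ H ↔ X.q w = 1 ∧ φ w ∈ S :=
      ⟨{ carrier := {w | X.q w = 1 ∧ φ w ∈ S}
         one_mem' := ⟨map_one _, by rw [hφ1]; exact S.zero_mem⟩
         mul_mem' := by
          rintro a b ⟨ha, ha'⟩ ⟨hb, hb'⟩
          exact ⟨by rw [map_mul, ha, hb, mul_one], by
            rw [hφm]; exact S.add_mem ha' (S.smul_mem _ hb')⟩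
         inv_mem' := by
          rintro a ⟨ha, ha'⟩
          exact ⟨by rw [map_inv, ha, inv_one], by
            rw [hφi]; exact S.neg_mem (S.smul_mem _ ha')⟩ }, fun _ => Iff.rfl⟩
    have hHn : H.Normal := by
      constructor
      intro w hw g
      rw [hH] at hw ⊢
      obtain ⟨h1, h2⟩ := hw
      refine ⟨by rw [map_mul, map_mul, h1, mul_one, map_inv, mul_inv_cancel], ?_⟩
      have h3 : φ (g * w * g⁻¹) = X.f K g • φ w := by
        rw [mul_assoc, hφm, hφm w, hf1 w h1, one_smul, hφi, smul_add, smul_neg, smul_smul, ← map_mul,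
          mul_inv_cancel, map_one, one_smul]
        abel
      rw [h3]
      exact S.smul_mem _ h2
    have hle : Subgroup.normalClosure {X.r} ≤ H := by
      apply Subgroup.normalClosure_le_normal
      rw [Set.singleton_subset_iff]
      refine (hH _).2 ⟨hqr, ?_⟩
      have : φ X.r = Dv := by
        rw [hDv]
        funext m
        exact hφ _ _
      rw [this]
      exact hDS
    intro w hw
    refine ((hH w).1 (hle ?_)).2
    rw [← X.hr]
    exact hw
  obtain ⟨π, hπ, hπe⟩ : ∃ π : (Fin k → MonoidAlgebra K (CoprodI G)) →ₗ[MonoidAlgebra K (CoprodI G)]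
      ((Fin k → MonoidAlgebra K (CoprodI G)) ⧸ S), (∀ u, u ∈ S ↔ π u = 0) ∧ Function.Surjective π :=
    ⟨S.mkQ, fun u => by rw [Submodule.mkQ_apply, Submodule.Quotient.mk_eq_zero], S.mkQ_surjective⟩
  have hφq : ∀ w w', X.q w = X.q w' → π (φ w) = π (φ w') := by
    intro w w' h
    have h1 : w' = w * (w⁻¹ * w') := by rw [mul_inv_cancel_left]
    have h2 : X.q (w⁻¹ * w') = 1 := by rw [map_mul, map_inv, h, inv_mul_cancel]
    rw [h1, hφm, map_add, map_smul, (hπ _).1 (hker _ h2), smul_zero, add_zero]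
  -- the derivations of `N` and `P`
  obtain ⟨dN, hdN⟩ : ∃ dN : N → (Fin k → MonoidAlgebra K (CoprodI G)) ⧸ S, ∀ n, dN n = π (φ (X.lf n)) :=
    ⟨_, fun _ => rfl⟩
  have hdNq : ∀ w, dN (X.q w) = π (φ w) := fun w => by
    rw [hdN]
    exact hφq _ _ (X.q_lf _)
  have hdNm : ∀ n n', dN (n * n') = dN n + MonoidAlgebra.of K (CoprodI G) (X.ρ n) • dN n' := by
    intro n n'
    obtain ⟨w, rfl⟩ := X.hq n
    obtain ⟨w', rfl⟩ := X.hq n'
    rw [← map_mul, hdNq, hdNq, hdNq, hφm, map_add, map_smul]
    rfl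
  have hdPm : ∀ p p', dN (X.s (p * p')) = dN (X.s p) + MonoidAlgebra.of K (CoprodI G) p • dN (X.s p') := by
    intro p p'
    rw [map_mul, hdNm, X.hs]
  obtain ⟨d, hdm, hdl, hdj⟩ := exists_der (K := K) (fun p => dN (X.s p)) hdPm l
  have hd1 : d 1 = 0 := by
    have := hdm 1 1
    rw [mul_one, map_one, one_smul] at this
    exact left_eq_add.1 this
  choose E hE using fun j : Fin k => hπe (d (X.ρ (X.q (FreeGroup.of j))))
  have hF : ∀ w, π (∑ j, fox (X.f K) j w • E j) = d (X.ρ (X.q w)) := by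
    intro w
    refine coc_unique (X.f K) (fun w => π (∑ j, fox (X.f K) j w • E j)) (fun w => d (X.ρ (X.q w)))
      ?_ ?_ ?_ w
    · intro g h
      rw [← coc_eq_sum, ← coc_eq_sum, ← coc_eq_sum, coc_mul, map_add, map_smul]
    · intro g h
      beta_reduce
      rw [map_mul, map_mul, hdm]
      rfl
    · intro j
      beta_reduce
      rw [← coc_eq_sum, coc_of, hE]
  obtain ⟨a, ha⟩ : ∃ a : MonoidAlgebra K (CoprodI G), ∑ j, X.D K j • E j = a • Dv := by
    apply hmem
    rw [hπ]
    have := hF X.r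
    rw [hqr, map_one, hd1] at this
    exact this
  -- the elements `c`
  have hc : ∀ n : ι, ∃ c : MonoidAlgebra K (CoprodI G), X.Good n c := by
    intro n
    obtain ⟨g0, hg0, hg1⟩ : ∃ g0 : FreeGroup (Fin k) →* MonoidAlgebra K (CoprodI G),
        (∀ w, g0 w = MonoidAlgebra.of K (CoprodI G) (CoprodI.of (pr n (X.ρ (X.q w))))) ∧
        ∀ j, inc K n (X.δ K n j) = fox g0 j X.r := by
      refine ⟨((inc K n : MonoidAlgebra K (G n) →+* MonoidAlgebra K (CoprodI G)) :
        MonoidAlgebra K (G n) →* MonoidAlgebra K (CoprodI G)).comp (X.fG K n), fun w => ?_, fun j => ?_⟩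
      · exact inc_single _ _ _
      · unfold Ret.δ
        rw [map_fox]
    have h1 : ∀ w, π (∑ j, fox g0 j w • (fun m => X.W K n j m)) =
        dN (X.s (CoprodI.of (pr n (X.ρ (X.q w))))) := by
      intro w
      refine coc_unique g0 (fun w => π (∑ j, fox g0 j w • (fun m => X.W K n j m)))
        (fun w => dN (X.s (CoprodI.of (pr n (X.ρ (X.q w)))))) ?_ ?_ ?_ w
      · intro g h
        beta_reduce
        rw [← coc_eq_sum, ← coc_eq_sum, ← coc_eq_sum, coc_mul, map_add, map_smul]
      · intro g h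
        beta_reduce
        rw [map_mul, map_mul, map_mul, map_mul, hdPm, hg0]
      · intro j
        beta_reduce
        rw [← coc_eq_sum, coc_of, hdN]
        congr 1
        funext m
        exact (hφ _ _).symm
    have h2 := h1 X.r
    rw [hqr, map_one, map_one, map_one, map_one] at h2
    have h3 : dN 1 = 0 := by
      have := hdNm 1 1
      rw [mul_one, map_one, map_one, one_smul] at this
      exact left_eq_add.1 this
    rw [h3, ← hπ] at h2
    obtain ⟨c, hc⟩ := hmem _ h2
    refine ⟨c, fun m => ?_⟩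
    have h4 := congrFun hc m
    rw [Finset.sum_apply] at h4
    simp only [Pi.smul_apply, smul_eq_mul, hDv] at h4
    rw [← h4]
    exact Finset.sum_congr rfl fun j _ => by rw [hg1]
  obtain ⟨ci, hci⟩ := hc i
  obtain ⟨cl, hcl⟩ := hc l
  -- `c * a * D`
  have hcaD : ∀ (n : ι) (c : MonoidAlgebra K (CoprodI G)), X.Good n c → ∀ m', c * a * X.D K m' =
      ∑ j', inc K n (X.δ K n j') * (∑ j, X.W K n j' j • E j) m' := by
    intro n c hcg m'
    have h1 := congrFun ha m'
    rw [Finset.sum_apply] at h1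
    simp only [Pi.smul_apply, smul_eq_mul, hDv] at h1
    rw [mul_assoc, ← h1, Finset.mul_sum]
    have h2 : ∀ j, c * (X.D K j * E j m') = ∑ j', inc K n (X.δ K n j') * (X.W K n j' j * E j m') := by
      intro j
      rw [← mul_assoc, ← hcg j, Finset.sum_mul]
      exact Finset.sum_congr rfl fun j' _ => mul_assoc _ _ _
    rw [Finset.sum_congr rfl fun j _ => h2 j, Finset.sum_comm]
    refine Finset.sum_congr rfl fun j' _ => ?_
    rw [Finset.sum_apply, Finset.mul_sum]
    rfl
  refine ⟨ci, cl, a, hci, hcl, ?_, ?_⟩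
  · have hz : ∀ j', ∃ z : MonoidAlgebra K (CoprodI G), ∑ j, X.W K i j' j • E j = z • Dv := by
      intro j'
      apply hmem
      rw [hπ]
      have h1 := hF (X.lf (X.s (CoprodI.of (pr i (X.ρ (X.q (FreeGroup.of j')))))))
      rw [X.q_lf, X.hs, hdj i hil] at h1
      exact h1
    choose z hz using hz
    refine ⟨z, ?_⟩
    have h2 : ∀ m, (ci * a - ∑ j, inc K i (X.δ K i j) * z j) * X.D K m = 0 := by
      intro m
      have h1 := hcaD i ci hci m
      simp only [hz] at h1
      rw [sub_mul, h1, Finset.sum_mul, sub_eq_zero]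
      refine Finset.sum_congr rfl fun j' _ => ?_
      rw [Pi.smul_apply, smul_eq_mul, hDv, mul_assoc]
    exact sub_eq_zero.1 (hreg _ h2)
  · have hz : ∀ j', ∃ z : MonoidAlgebra K (CoprodI G), ∑ j, X.W K l j' j • E j - (fun m => X.W K l j' m) = z • Dv := by
      intro j'
      apply hmem
      rw [hπ, map_sub, sub_eq_zero]
      have h1 := hF (X.lf (X.s (CoprodI.of (pr l (X.ρ (X.q (FreeGroup.of j')))))))
      rw [X.q_lf, X.hs, hdl] at h1
      beta_reduce at h1
      rw [hdN] at h1
      refine Eq.trans h1 ?_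
      congr 1
      funext m
      exact hφ _ _
    choose z hz using hz
    refine ⟨fun j => - z j, ?_⟩
    have hz' : ∀ m j', (∑ j, X.W K l j' j • E j) m = X.W K l j' m + z j' * X.D K m := by
      intro m j'
      have := congrFun (hz j') m
      rw [Pi.sub_apply, Pi.smul_apply, smul_eq_mul, hDv] at this
      rw [← this]
      abel
    have h2 : ∀ m, (cl * (1 - a) - ∑ j, inc K l (X.δ K l j) * - z j) * X.D K m = 0 := by
      intro m
      have h1 := hcaD l cl hcl m
      simp only [hz', mul_add, Finset.sum_add_distrib] at h1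
      rw [hcl m] at h1
      have h3 : (∑ j, inc K l (X.δ K l j) * - z j) * X.D K m =
          - ∑ j, inc K l (X.δ K l j) * (z j * X.D K m) := by
        rw [Finset.sum_mul, ← Finset.sum_neg_distrib]
        refine Finset.sum_congr rfl fun j _ => ?_
        rw [mul_neg, neg_mul, mul_assoc]
      rw [sub_mul, h3, mul_sub, mul_one, sub_mul, h1]
      abel
    exact sub_eq_zero.1 (hreg _ h2)

theorem exists_alg [NoZeroDivisors (MonoidAlgebra K (CoprodI G))] {m : Fin k} (hm : X.D K m ≠ 0) {i l : ι}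
    (hil : i ≠ l) : ∃ c_i c_l a : MonoidAlgebra K (CoprodI G), X.Good i c_i ∧ X.Good l c_l ∧
      (∃ x : Fin k → MonoidAlgebra K (CoprodI G), c_i * a = ∑ j, inc K i (X.δ K i j) * x j) ∧
      (∃ x : Fin k → MonoidAlgebra K (CoprodI G), c_l * (1 - a) = ∑ j, inc K l (X.δ K l j) * x j) :=
  exists_alg_reg X (fun _ hz => (mul_eq_zero.1 (hz m)).resolve_right hm) hil

end Pool.Agent.MelR
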