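import Pool.Agent.MelR.Word

/-!
# The group ring of a free product of groups has no zero divisors (Cohn)

`x * y = 0`, `x, y ≠ 0`; induction on the sum of the lengths of `x` and `y`.  Top words of `x` end in `k`, top words of
`y` begin with `k` (otherwise the coefficient of `x * y` at a reduced product `w * p` is `x_w * y_p ≠ 0`).  Let
`ρ_v (s) = x (v * of s)` (`v` of length one less, not ending in `k`), `α_u (s) = y (of s * u)`.  The coefficient of
`x * y` at `v * of z * u`, `z ≠ 1`, is `(ρ_v * α_u) z`, so `ρ_v * α_u` is a scalar; `α` is a unit of `K[G k]` for a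
suitable `u`, and `(x * α) * (α⁻¹ * y) = 0`, where both lengths are smaller.
-/

set_option linter.unusedSectionVars false

open Finset

namespace Pool.Agent.MelR

open Monoid (CoprodI)

namespace DomF

variable {ι : Type} [DecidableEq ι] {G : ι → Type} [∀ i, Group (G i)] {K : Type} [Field K]

theorem injR (k : ι) (v : CoprodI G) : Function.Injective fun s : G k => v * CoprodI.of s := by
  intro s t h
  exact CoprodI.of_injective k (mul_left_cancel h)

theorem injL (k : ι) (u : CoprodI G) : Function.Injective fun s : G k => CoprodI.of s * u := by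
  intro s t h
  exact CoprodI.of_injective k (mul_right_cancel h)

/-- The part of `x` in the coset `v * G k`. -/
noncomputable def rho (k : ι) (v : CoprodI G) (x : MonoidAlgebra K (CoprodI G)) : MonoidAlgebra K (G k) :=
  MonoidAlgebra.ofCoeff (x.coeff.comapDomain (fun s : G k => v * CoprodI.of s) (injR k v).injOn)

/-- The part of `y` in the coset `G k * u`. -/
noncomputable def alp (k : ι) (u : CoprodI G) (y : MonoidAlgebra K (CoprodI G)) : MonoidAlgebra K (G k) :=
  MonoidAlgebra.ofCoeff (y.coeff.comapDomain (fun s : G k => CoprodI.of s * u) (injL k u).injOn)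

theorem rho_coeff (k : ι) (v : CoprodI G) (x : MonoidAlgebra K (CoprodI G)) (s : G k) :
    (rho k v x).coeff s = x.coeff (v * CoprodI.of s) := rfl

theorem alp_coeff (k : ι) (u : CoprodI G) (y : MonoidAlgebra K (CoprodI G)) (s : G k) :
    (alp k u y).coeff s = y.coeff (CoprodI.of s * u) := rfl

/-- The coefficient of a product at `v * of z * u`. -/
theorem conv {k : ι} (v u : CoprodI G) (z : G k) (x y : MonoidAlgebra K (CoprodI G))
    (h : ∀ g p, x.coeff g ≠ 0 → y.coeff p ≠ 0 → g * p = v * CoprodI.of z * u → ∃ s : G k, v * CoprodI.of s = g) :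
    (x * y).coeff (v * CoprodI.of z * u) = (rho k v x * alp k u y).coeff z := by
  rw [MonoidAlgebra.coeff_mul_apply_left, MonoidAlgebra.coeff_mul_apply_left]
  unfold Finsupp.sum
  symm
  refine Finset.sum_of_injOn (fun s : G k => v * CoprodI.of s) (injR k v).injOn ?_ ?_ ?_
  · intro s hs
    rw [Finset.mem_coe, Finsupp.mem_support_iff, rho_coeff] at hs
    rw [Finset.mem_coe, Finsupp.mem_support_iff]
    exact hs
  · intro g hg hgn
    by_contra h0
    have h1 : x.coeff g ≠ 0 := Finsupp.mem_support_iff.mp hg
    have h2 : y.coeff (g⁻¹ * (v * CoprodI.of z * u)) ≠ 0 := right_ne_zero_of_mul h0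
    obtain ⟨s, hs⟩ := h g _ h1 h2 (by group)
    apply hgn
    refine ⟨s, ?_, hs⟩
    rw [Finset.mem_coe, Finsupp.mem_support_iff, rho_coeff, hs]
    exact h1
  · intro s _
    have e : CoprodI.of (s⁻¹ * z) * u = (v * CoprodI.of s)⁻¹ * (v * CoprodI.of z * u) := by
      rw [map_mul, map_inv]
      group
    show x.coeff (v * CoprodI.of s) * y.coeff (CoprodI.of (s⁻¹ * z) * u) =
      x.coeff (v * CoprodI.of s) * y.coeff ((v * CoprodI.of s)⁻¹ * (v * CoprodI.of z * u))
    rw [e]

theorem inc_coeff (k : ι) (a : MonoidAlgebra K (G k)) (s : G k) :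
    (inc K k a).coeff (CoprodI.of s) = a.coeff s := by
  unfold inc
  rw [MonoidAlgebra.mapDomainRingHom_apply]
  exact Finsupp.mapDomain_apply (CoprodI.of_injective k) _ _

theorem inc_coeff_ne (k : ι) (a : MonoidAlgebra K (G k)) {p : CoprodI G} (h : (inc K k a).coeff p ≠ 0) :
    ∃ s : G k, CoprodI.of s = p := by
  by_contra h0
  apply h
  unfold inc
  rw [MonoidAlgebra.mapDomainRingHom_apply]
  exact Finsupp.mapDomain_of_notMem_range _ _ (fun ⟨s, hs⟩ => h0 ⟨s, hs⟩)

/-- Multiplication by an element of `K[G k]` from the right. -/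
theorem mul_inc_coeff {k : ι} (v : CoprodI G) (z : G k) (x : MonoidAlgebra K (CoprodI G)) (a : MonoidAlgebra K (G k)) :
    (x * inc K k a).coeff (v * CoprodI.of z) = (rho k v x * a).coeff z := by
  have h1 : alp k 1 (inc K k a) = a := by
    ext s
    rw [alp_coeff, mul_one, inc_coeff]
  have h2 := conv v 1 z x (inc K k a) (by
    intro g p _ hp e
    obtain ⟨s, rfl⟩ := inc_coeff_ne k a hp
    refine ⟨z * s⁻¹, ?_⟩
    rw [mul_one] at e
    rw [map_mul, map_inv, ← mul_assoc, ← e]
    group)
  rw [h1, mul_one] at h2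
  exact h2

/-- Multiplication by an element of `K[G k]` from the left. -/
theorem inc_mul_coeff {k : ι} (u : CoprodI G) (z : G k) (y : MonoidAlgebra K (CoprodI G)) (a : MonoidAlgebra K (G k)) :
    (inc K k a * y).coeff (CoprodI.of z * u) = (a * alp k u y).coeff z := by
  have h1 : rho k 1 (inc K k a) = a := by
    ext s
    rw [rho_coeff, one_mul, inc_coeff]
  have h2 := conv 1 u z (inc K k a) y (by
    intro g p hg _ _
    obtain ⟨s, rfl⟩ := inc_coeff_ne k a hg
    exact ⟨s, one_mul _⟩)
  rw [h1, one_mul] at h2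
  exact h2

/-- Words ending in `k` are split into the last letter and the rest. -/
theorem splitR {m : ℕ} {k : ι} {g : CoprodI G} (hg : len g ≤ m + 1) (ht : len g = m + 1 → la g = some k) :
    ∃ (v : CoprodI G) (s : G k), g = v * CoprodI.of s ∧ len v ≤ m ∧ la v ≠ some k := by
  by_cases h : la g = some k
  · obtain ⟨v, s, _, e, hl, hv⟩ := la_some h
    exact ⟨v, s, e, by omega, hv⟩
  · refine ⟨g, 1, by rw [map_one, mul_one], ?_, h⟩
    by_contra h1
    exact h (ht (by omega))

theorem splitL {l : ℕ} {k : ι} {g : CoprodI G} (hg : len g ≤ l + 1) (ht : len g = l + 1 → fi g = some k) :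
    ∃ (s : G k) (u : CoprodI G), g = CoprodI.of s * u ∧ len u ≤ l ∧ fi u ≠ some k := by
  by_cases h : fi g = some k
  · obtain ⟨s, u, _, e, hl, hu⟩ := fi_some h
    exact ⟨s, u, e, by omega, hu⟩
  · refine ⟨1, g, by rw [map_one, one_mul], ?_, h⟩
    by_contra h1
    exact h (ht (by omega))

theorem of_ne_one {k : ι} {z : G k} (hz : z ≠ 1) : (CoprodI.of z : CoprodI G) ≠ 1 := fun h =>
  hz (CoprodI.of_injective k (h.trans (map_one _).symm))

/-- The length of `v * of z * u`. -/
theorem len3 {k : ι} {v u : CoprodI G} {z : G k} (hz : z ≠ 1) (hv : la v ≠ some k) (hu : fi u ≠ some k) :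
    len (v * (CoprodI.of z * u)) = len v + (1 + len u) ∧ len (CoprodI.of z * u) = 1 + len u := by
  have h3 : CoprodI.of z = (1 : CoprodI G) ∨ u = 1 ∨ la (CoprodI.of z : CoprodI G) ≠ fi u := by
    right
    right
    rw [la_of hz]
    exact fun h0 => hu h0.symm
  have h4 := len_mul h3
  rw [len_of hz] at h4
  have h5 : v = 1 ∨ CoprodI.of z * u = 1 ∨ la v ≠ fi (CoprodI.of z * u) := by
    right
    right
    rw [fi_mul h3 (of_ne_one hz), fi_of hz]
    exact hv
  exact ⟨by rw [len_mul h5, h4], h4⟩

/-- The only factorizations of `v * of z * u` of the given lengths. -/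
theorem fac3 {m l : ℕ} {k : ι} {v u v' u' : CoprodI G} {z a b : G k} (hz : z ≠ 1) (hv : la v ≠ some k)
    (hu : fi u ≠ some k) (hlv : len v = m) (hlu : len u = l) (hv' : la v' ≠ some k) (hu' : fi u' ≠ some k)
    (hlv' : len v' ≤ m) (hlu' : len u' ≤ l)
    (e : v' * CoprodI.of a * (CoprodI.of b * u') = v * CoprodI.of z * u) : v' = v ∧ a * b = z ∧ u' = u := by
  have e1 : v' * CoprodI.of a * (CoprodI.of b * u') = v' * (CoprodI.of (a * b) * u') := by
    rw [map_mul]
    group
  rw [e1, mul_assoc] at e
  have h1 := len3 hz hv hu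
  by_cases hab : a * b = 1
  · exfalso
    rw [hab, map_one, one_mul] at e
    have h2 := len_mul_le v' u'
    rw [e, h1.1] at h2
    omega
  · have h2 := len3 hab hv' hu'
    have h3 : len v' + (1 + len u') = len v + (1 + len u) := by rw [← h2.1, ← h1.1, e]
    have h4 := unique_fac e (by rw [h2.1, h2.2]) (by rw [e, h1.1, h1.2]) (by omega)
    have h5 := unique_fac h4.2 (by rw [h2.2, len_of hab]) (by rw [h4.2, h1.2, len_of hz])
      (by rw [len_of hab, len_of hz])
    exact ⟨h4.1, CoprodI.of_injective k h5.1, h5.2⟩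

theorem exists_coeff_ne {H : Type} {x : MonoidAlgebra K H} (hx : x ≠ 0) : ∃ g, x.coeff g ≠ 0 := by
  by_contra h
  push Not at h
  apply hx
  ext g
  exact h g

theorem main (hdom : ∀ i, NoZeroDivisors (MonoidAlgebra K (G i))) (n : ℕ) :
    ∀ (m l : ℕ) (x y : MonoidAlgebra K (CoprodI G)), m + l ≤ n → x ≠ 0 → y ≠ 0 → x * y = 0 →
      (∀ g, x.coeff g ≠ 0 → len g ≤ m) → (∀ g, y.coeff g ≠ 0 → len g ≤ l) → False := by
  induction n using Nat.strong_induction_on with
  | _ n ih =>
    intro m l x y hn hx hy hxy hm hl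
    -- the bounds are attained
    by_cases h1 : ∃ w, x.coeff w ≠ 0 ∧ len w = m
    swap
    · push Not at h1
      obtain ⟨g, hg⟩ := exists_coeff_ne hx
      have h2 : ∀ g, x.coeff g ≠ 0 → len g + 1 ≤ m := fun g hg => by
        have := hm g hg
        have := h1 g hg
        omega
      have h3 := h2 g hg
      exact ih (m - 1 + l) (by omega) (m - 1) l x y le_rfl hx hy hxy (fun g hg => by
        have := h2 g hg
        omega) hl
    by_cases h2 : ∃ p, y.coeff p ≠ 0 ∧ len p = l
    swap
    · push Not at h2
      obtain ⟨g, hg⟩ := exists_coeff_ne hy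
      have h3 : ∀ g, y.coeff g ≠ 0 → len g + 1 ≤ l := fun g hg => by
        have := hl g hg
        have := h2 g hg
        omega
      have h4 := h3 g hg
      exact ih (m + (l - 1)) (by omega) m (l - 1) x y le_rfl hx hy hxy hm (fun g hg => by
        have := h3 g hg
        omega)
    obtain ⟨w0, hw0, hlw0⟩ := h1
    obtain ⟨p0, hp0, hlp0⟩ := h2
    -- top words do not concatenate
    have hA : ∀ w p, x.coeff w ≠ 0 → len w = m → y.coeff p ≠ 0 → len p = l →
        ¬ (w = 1 ∨ p = 1 ∨ la w ≠ fi p) := by
      intro w p hw hlw hp hlp hred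
      have h3 : (x * y).coeff (w * p) = x.coeff w * y.coeff p := by
        rw [MonoidAlgebra.coeff_mul_apply_left]
        unfold Finsupp.sum
        rw [Finset.sum_eq_single w]
        · show x.coeff w * y.coeff (w⁻¹ * (w * p)) = x.coeff w * y.coeff p
          rw [← mul_assoc, inv_mul_cancel, one_mul]
        · intro a ha haw
          by_contra h0
          have ha1 : x.coeff a ≠ 0 := left_ne_zero_of_mul h0
          have ha2 : y.coeff (a⁻¹ * (w * p)) ≠ 0 := right_ne_zero_of_mul h0
          have e0 : a * (a⁻¹ * (w * p)) = w * p := by group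
          have l1 := hm a ha1
          have l2 := hl _ ha2
          have l3 := len_mul_le a (a⁻¹ * (w * p))
          have l4 := len_mul hred
          rw [e0, l4] at l3
          exact haw (unique_fac e0 (by rw [e0, l4]; omega) (by rw [e0, l4]) (by omega)).1
        · intro h0
          rw [Finsupp.notMem_support_iff] at h0
          exact absurd h0 hw
      rw [hxy] at h3
      exact mul_ne_zero hw hp h3.symm
    have hA0 := hA w0 p0 hw0 hlw0 hp0 hlp0
    push Not at hA0
    obtain ⟨k, hk⟩ := Option.ne_none_iff_exists'.mp (fun h0 => hA0.1 (la_eq_none.mp h0))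
    have htopx : ∀ w, x.coeff w ≠ 0 → len w = m → la w = some k := by
      intro w hw hlw
      have h3 := hA w p0 hw hlw hp0 hlp0
      push Not at h3
      rw [h3.2.2, ← hA0.2.2, hk]
    have htopy : ∀ p, y.coeff p ≠ 0 → len p = l → fi p = some k := by
      intro p hp hlp
      have h3 := hA w0 p hw0 hlw0 hp hlp
      push Not at h3
      rw [← h3.2.2, hk]
    obtain ⟨v0, z0, hz0, ew0, hlv0, hv0⟩ := la_some hk
    obtain ⟨y0, u0, hy0, ep0, hlu0, hu0⟩ := fi_some (htopy p0 hp0 hlp0)
    obtain ⟨m, rfl⟩ : ∃ m', m = m' + 1 := ⟨m - 1, by omega⟩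
    obtain ⟨l, rfl⟩ : ∃ l', l = l' + 1 := ⟨l - 1, by omega⟩
    -- the convolution identity
    have hconv : ∀ (v u : CoprodI G) (z : G k), len v = m → la v ≠ some k → len u = l → fi u ≠ some k → z ≠ 1 →
        (rho k v x * alp k u y).coeff z = 0 := by
      intro v u z hlv hv hlu hu hz
      rw [← conv v u z x y ?_, hxy]
      · rfl
      · intro g p hg hp e
        obtain ⟨v', a, rfl, hlv', hv'⟩ := splitR (k := k) (hm g hg) (htopx g hg)
        obtain ⟨b, u', rfl, hlu', hu'⟩ := splitL (k := k) (hl p hp) (htopy p hp)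
        have h3 := fac3 hz hv hu hlv hlu hv' hu' hlv' hlu' e
        exact ⟨a, by rw [h3.1]⟩
    have hscal : ∀ (v u : CoprodI G), len v = m → la v ≠ some k → len u = l → fi u ≠ some k →
        rho k v x * alp k u y = MonoidAlgebra.single 1 ((rho k v x * alp k u y).coeff 1) := by
      intro v u hlv hv hlu hu
      ext z
      rw [MonoidAlgebra.coeff_single]
      by_cases hz : z = 1
      · subst hz
        rw [Finsupp.single_eq_same]
      · rw [hconv v u z hlv hv hlu hu hz, Finsupp.single_eq_of_ne hz]
    have := hdom k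
    have hlv0' : len v0 = m := by omega
    have hlu0' : len u0 = l := by omega
    have hr0 : rho k v0 x ≠ 0 := by
      intro h0
      apply hw0
      rw [ew0, ← rho_coeff, h0]
      rfl
    have ha0 : alp k u0 y ≠ 0 := by
      intro h0
      apply hp0
      rw [ep0, ← alp_coeff, h0]
      rfl
    set c := (rho k v0 x * alp k u0 y).coeff 1 with hc
    have e0 : rho k v0 x * alp k u0 y = MonoidAlgebra.single 1 c := hscal v0 u0 hlv0' hv0 hlu0' hu0
    have hc0 : c ≠ 0 := by
      intro h0
      rw [h0, MonoidAlgebra.single_zero] at e0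
      exact mul_ne_zero hr0 ha0 e0
    -- the unit
    set α := alp k u0 y with hα
    set β : MonoidAlgebra K (G k) := MonoidAlgebra.single 1 c⁻¹ * rho k v0 x with hβ
    have hβα : β * α = 1 := by
      rw [hβ, mul_assoc, e0, MonoidAlgebra.single_mul_single, one_mul, inv_mul_cancel₀ hc0]
      rfl
    have hαβ : α * β = 1 := by
      have h3 : (α * β - 1) * α = 0 := by
        rw [sub_mul, mul_assoc, hβα, mul_one, one_mul, sub_self]
      rcases mul_eq_zero.mp h3 with h4 | h4
      · exact sub_eq_zero.mp h4
      · exact absurd h4 ha0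
    have hXY : (x * inc K k α) * (inc K k β * y) = 0 := by
      rw [mul_assoc, ← mul_assoc (inc K k α), ← map_mul, hαβ, map_one, one_mul, hxy]
    have hX : x * inc K k α ≠ 0 := by
      intro h0
      apply hx
      have h3 : x * inc K k α * inc K k β = x := by rw [mul_assoc, ← map_mul, hαβ, map_one, mul_one]
      rw [← h3, h0, zero_mul]
    have hY : inc K k β * y ≠ 0 := by
      intro h0
      apply hy
      have h3 : inc K k α * (inc K k β * y) = y := by rw [← mul_assoc, ← map_mul, hαβ, map_one, one_mul]
      rw [← h3, h0, mul_zero]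
    refine ih (m + l) (by omega) m l (x * inc K k α) (inc K k β * y) le_rfl hX hY hXY ?_ ?_
    · intro g hg
      -- `g` is in a coset of a word of `x`
      have h3 : ∃ s : G k, x.coeff (g * CoprodI.of s) ≠ 0 := by
        by_contra h0
        push Not at h0
        apply hg
        have h4 := mul_inc_coeff g 1 x α
        rw [map_one, mul_one] at h4
        rw [h4]
        have h5 : rho k g x = 0 := by
          ext s
          rw [rho_coeff]
          exact h0 s
        rw [h5, zero_mul]
        rfl
      obtain ⟨s, hs⟩ := h3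
      obtain ⟨v, a, e, hlv, hv⟩ := splitR (k := k) (hm _ hs) (htopx _ hs)
      have e2 : g = v * CoprodI.of (a * s⁻¹) := by
        rw [map_mul, map_inv, ← mul_assoc, ← e]
        group
      by_cases ht : a * s⁻¹ = 1
      · rw [e2, ht, map_one, mul_one]
        exact hlv
      · have h4 := len_mul_of ht hv
        rw [e2, h4]
        by_contra h5
        apply hg
        rw [e2, mul_inc_coeff]
        exact hconv v u0 _ (by omega) hv hlu0' hu0 ht
    · intro g hg
      have h3 : ∃ s : G k, y.coeff (CoprodI.of s * g) ≠ 0 := by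
        by_contra h0
        push Not at h0
        apply hg
        have h4 := inc_mul_coeff g 1 y β
        rw [map_one, one_mul] at h4
        rw [h4]
        have h5 : alp k g y = 0 := by
          ext s
          rw [alp_coeff]
          exact h0 s
        rw [h5, mul_zero]
        rfl
      obtain ⟨s, hs⟩ := h3
      obtain ⟨a, u, e, hlu, hu⟩ := splitL (k := k) (hl _ hs) (htopy _ hs)
      have e2 : g = CoprodI.of (s⁻¹ * a) * u := by
        rw [map_mul, map_inv, mul_assoc, ← e]
        group
      by_cases ht : s⁻¹ * a = 1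
      · rw [e2, ht, map_one, one_mul]
        exact hlu
      · have h4 := len_of_mul ht hu
        rw [e2, h4]
        by_contra h5
        apply hg
        rw [e2, inc_mul_coeff, hβ, mul_assoc, MonoidAlgebra.coeff_single_one_mul,
          hconv v0 u _ hlv0' hv0 (by omega) hu ht, mul_zero]

end DomF

/-- The group ring of a free product has no zero divisors if the group rings of the factors have none. -/
theorem dom_free {ι : Type} [DecidableEq ι] {G : ι → Type} [∀ i, Group (G i)] {K : Type} [Field K]
    (h : ∀ i, NoZeroDivisors (MonoidAlgebra K (G i))) : NoZeroDivisors (MonoidAlgebra K (CoprodI G)) := by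
  refine ⟨fun {x y} hxy => ?_⟩
  by_contra h0
  push Not at h0
  exact DomF.main h _ (x.coeff.support.sup len) (y.coeff.support.sup len) x y le_rfl h0.1 h0.2 hxy
    (fun g hg => Finset.le_sup (Finsupp.mem_support_iff.mpr hg))
    (fun g hg => Finset.le_sup (Finsupp.mem_support_iff.mpr hg))

end Pool.Agent.MelR
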