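import Pool.Agent.MelR.Def

/-!
# From ideals to linear forms (module M3)

`I` = the right ideal `∑ δ j K[G i]` of `K[G i]`, `c ∈ K[P]` with `prj c ∉ I`.  Let `res : K[P] → K[G i]` be the
restriction of the coefficients to `G i` (linear over `K[G i]` from the left: `res (inc x * y) = x * res y`).
(1) There is `x₀` with `res (c * x₀) ∉ I`.  Otherwise `res (c * g⁻¹) ∈ I` for all `g`; then `prj c ∈ I`: induction on
  the number of elements of the support of `c`: if `g` is in the support, `c = c' + inc (res (c * g⁻¹)) * g`, where `c'`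
  is the part of `c` outside the coset `G i * g`; `res (c' * h⁻¹)` is `res (c * h⁻¹)` or `0` (according to whether
  `h ∈ G i * g`), and `prj (inc (res (c * g⁻¹)) * g) = res (c * g⁻¹) * prj g ∈ I`.
(2) Take a linear form `λ` on `K[G i]` vanishing on `I` with `λ (res (c * x₀)) ≠ 0`
  (`Submodule.exists_dual_map_eq_bot..` or a linear form on the quotient space), `Φ x = λ (res (c * x))`.
  `Φ ≠ 0`; if `c * a = ∑ inc (δ j) * x j` then `res (c * a * x) = ∑ δ j * res (x j * x) ∈ I`, so `Φ (a * x) = 0`.
  `CosFin`: `ev Φ g ≠ 0` implies `res (c * g⁻¹) ≠ 0`, so there is `t` in the support of `c` with `t * g⁻¹ ∈ G i`.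
-/

set_option linter.unusedSectionVars false

open Finset

namespace Pool.Agent.MelR

open Monoid (CoprodI)

variable {ι : Type} [DecidableEq ι] {G : ι → Type} [∀ i, Group (G i)] {K : Type} [Field K]

noncomputable section

namespace Func

open Classical in
/-- The restriction of a group element to the factor. -/
def El (K : Type) [Field K] (i : ι) (g : CoprodI G) : MonoidAlgebra K (G i) :=
  if h : ∃ x : G i, CoprodI.of x = g then MonoidAlgebra.single h.choose 1 else 0

theorem El_of (i : ι) (x : G i) : El K i (CoprodI.of x : CoprodI G) = MonoidAlgebra.single x 1 := by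
  unfold El
  have h : ∃ y : G i, (CoprodI.of y : CoprodI G) = CoprodI.of x := ⟨x, rfl⟩
  rw [dif_pos h, CoprodI.of_injective i h.choose_spec]

theorem El_not (i : ι) {g : CoprodI G} (h : ¬ ∃ x : G i, CoprodI.of x = g) : El K i g = 0 := by
  unfold El
  rw [dif_neg h]

theorem El_mul (i : ι) (x : G i) (g : CoprodI G) :
    El K i (CoprodI.of x * g) = MonoidAlgebra.single x 1 * El K i g := by
  by_cases h : ∃ y : G i, CoprodI.of y = g
  · obtain ⟨y, rfl⟩ := h
    rw [← map_mul, El_of, El_of, MonoidAlgebra.single_mul_single, mul_one]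
  · rw [El_not i h, mul_zero, El_not]
    rintro ⟨y, hy⟩
    refine h ⟨x⁻¹ * y, ?_⟩
    rw [map_mul, hy, map_inv, inv_mul_cancel_left]

/-- The restriction of the coefficients to a factor. -/
def res (K : Type) [Field K] (i : ι) : MonoidAlgebra K (CoprodI G) →ₗ[K] MonoidAlgebra K (G i) :=
  (MonoidAlgebra.basis (CoprodI G) K).constr K (fun g => El K i g)

theorem res_one (i : ι) (g : CoprodI G) : res K i (MonoidAlgebra.single g 1) = El K i g := by
  unfold res
  have h : MonoidAlgebra.single g 1 = MonoidAlgebra.basis (CoprodI G) K g := by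
    rw [MonoidAlgebra.basis_apply]
  rw [h, Module.Basis.constr_basis]

theorem single_eq {P : Type} (g : P) (a : K) :
    (MonoidAlgebra.single g a : MonoidAlgebra K P) = a • MonoidAlgebra.single g 1 := by
  rw [MonoidAlgebra.smul_single, smul_eq_mul, mul_one]

theorem res_single (i : ι) (g : CoprodI G) (a : K) : res K i (MonoidAlgebra.single g a) = a • El K i g := by
  rw [single_eq, map_smul, res_one]

theorem res_inc_mul (i : ι) (x : MonoidAlgebra K (G i)) (y : MonoidAlgebra K (CoprodI G)) :
    res K i (inc K i x * y) = x * res K i y := by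
  induction x using MonoidAlgebra.induction_linear with
  | zero => rw [map_zero, zero_mul, map_zero, zero_mul]
  | add a b ha hb => rw [map_add, add_mul, map_add, ha, hb, add_mul]
  | single g a =>
    induction y using MonoidAlgebra.induction_linear with
    | zero => rw [mul_zero, map_zero, mul_zero]
    | add u v hu hv => rw [mul_add, map_add, hu, hv, map_add, mul_add]
    | single h b =>
      rw [inc_single, MonoidAlgebra.single_mul_single, res_single, El_mul, res_single, single_eq g a, smul_mul_assoc,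
        mul_smul_comm, smul_smul]

theorem prj_inc (i : ι) (x : MonoidAlgebra K (G i)) : prj K i (inc K i x) = x := by
  induction x using MonoidAlgebra.induction_linear with
  | zero => rw [map_zero, map_zero]
  | add a b ha hb => rw [map_add, map_add, ha, hb]
  | single g a => rw [inc_single, prj_single, pr_of]

theorem sum_single (c : MonoidAlgebra K (CoprodI G)) :
    c = ∑ g ∈ c.coeff.support, MonoidAlgebra.single g (c.coeff g) := by
  apply MonoidAlgebra.ext
  rw [MonoidAlgebra.coeff_sum]
  simp only [MonoidAlgebra.coeff_single]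
  exact (Finsupp.sum_single c.coeff).symm

/-- The decomposition along the cosets of a factor. -/
theorem coset_sum (i : ι) (c : MonoidAlgebra K (CoprodI G)) :
    ∃ T : Finset (CoprodI G), c = ∑ t ∈ T, inc K i (res K i (c * MonoidAlgebra.single t⁻¹ 1)) *
      MonoidAlgebra.single t 1 := by
  classical
  let S : Setoid (CoprodI G) := QuotientGroup.rightRel (CoprodI.of : G i →* CoprodI G).range
  let rep : CoprodI G → CoprodI G := fun g => (Quotient.mk S g).out
  have hrep : ∀ g, ∃ x : G i, g = CoprodI.of x * rep g := by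
    intro g
    have h1 : S (rep g) g := Quotient.exact (Quotient.out_eq _)
    rw [QuotientGroup.rightRel_apply] at h1
    obtain ⟨x, hx⟩ := h1
    exact ⟨x, by rw [hx, inv_mul_cancel_right]⟩
  have hrep2 : ∀ g (x : G i), rep (CoprodI.of x * g) = rep g := by
    intro g x
    have h1 : Quotient.mk S (CoprodI.of x * g) = Quotient.mk S g := by
      refine Quotient.sound ?_
      show S _ _
      rw [QuotientGroup.rightRel_apply]
      exact ⟨x⁻¹, by rw [map_inv, mul_inv_rev, mul_inv_cancel_left]⟩
    show (Quotient.mk S (CoprodI.of x * g)).out = (Quotient.mk S g).out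
    rw [h1]
  have hrr : ∀ g, rep (rep g) = rep g := by
    intro g
    obtain ⟨x, hx⟩ := hrep g
    conv_rhs => rw [hx, hrep2]
  let T := c.coeff.support.image rep
  refine ⟨T, ?_⟩
  let F : MonoidAlgebra K (CoprodI G) →+ MonoidAlgebra K (CoprodI G) :=
    { toFun := fun c => ∑ t ∈ T, inc K i (res K i (c * MonoidAlgebra.single t⁻¹ 1)) * MonoidAlgebra.single t 1
      map_zero' := Finset.sum_eq_zero fun t _ => by rw [zero_mul, map_zero, map_zero, zero_mul]
      map_add' := fun x y => by
        rw [← Finset.sum_add_distrib]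
        exact Finset.sum_congr rfl fun t _ => by rw [add_mul, map_add, map_add, add_mul] }
  have hF : ∀ g a, g ∈ c.coeff.support → F (MonoidAlgebra.single g a) = MonoidAlgebra.single g a := by
    intro g a hg
    show ∑ t ∈ T, inc K i (res K i (MonoidAlgebra.single g a * MonoidAlgebra.single t⁻¹ 1)) *
      MonoidAlgebra.single t 1 = _
    obtain ⟨x, hx⟩ := hrep g
    rw [Finset.sum_eq_single (rep g)]
    · rw [MonoidAlgebra.single_mul_single, mul_one, res_single]
      have h1 : g * (rep g)⁻¹ = CoprodI.of x := by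
        conv_lhs => rw [hx]
        rw [hrep2, hrr, mul_inv_cancel_right]
      rw [h1, El_of, ← single_eq, inc_single, MonoidAlgebra.single_mul_single, mul_one, ← hx]
    · intro t ht htg
      obtain ⟨h, _, rfl⟩ := Finset.mem_image.mp ht
      rw [MonoidAlgebra.single_mul_single, mul_one, res_single, El_not, smul_zero, map_zero, zero_mul]
      rintro ⟨y, hy⟩
      apply htg
      have h2 : g = CoprodI.of y * rep h := by rw [hy, inv_mul_cancel_right]
      rw [h2, hrep2, hrr]
    · intro hn
      exact absurd (Finset.mem_image_of_mem rep hg) hn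
  have h1 : F c = c := by
    conv_lhs => rw [sum_single c]
    rw [map_sum]
    conv_rhs => rw [sum_single c]
    exact Finset.sum_congr rfl fun g hg => hF g _ hg
  exact h1.symm

end Func

open Func

theorem exists_form (i : ι) {k : ℕ} (δ : Fin k → MonoidAlgebra K (G i)) (c : MonoidAlgebra K (CoprodI G))
    (hc : ¬ ∃ y : Fin k → MonoidAlgebra K (G i), prj K i c = ∑ j, δ j * y j) :
    ∃ Φ : MonoidAlgebra K (CoprodI G) →ₗ[K] K, Φ ≠ 0 ∧ CosFin i Φ ∧
      ∀ a : MonoidAlgebra K (CoprodI G),
        (∃ x : Fin k → MonoidAlgebra K (CoprodI G), c * a = ∑ j, inc K i (δ j) * x j) → ∀ x, Φ (a * x) = 0 := by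
  classical
  let I : Submodule K (MonoidAlgebra K (G i)) :=
    { carrier := {z | ∃ y : Fin k → MonoidAlgebra K (G i), z = ∑ j, δ j * y j}
      zero_mem' := ⟨0, (Finset.sum_eq_zero fun j _ => by rw [Pi.zero_apply, mul_zero]).symm⟩
      add_mem' := by
        rintro _ _ ⟨y, rfl⟩ ⟨z, rfl⟩
        refine ⟨y + z, ?_⟩
        rw [← Finset.sum_add_distrib]
        exact Finset.sum_congr rfl fun j _ => by rw [Pi.add_apply, mul_add]
      smul_mem' := by
        rintro a _ ⟨y, rfl⟩
        refine ⟨a • y, ?_⟩
        rw [Finset.smul_sum]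
        exact Finset.sum_congr rfl fun j _ => by rw [Pi.smul_apply, mul_smul_comm] }
  have hI : ∀ z, z ∈ I ↔ ∃ y : Fin k → MonoidAlgebra K (G i), z = ∑ j, δ j * y j := fun z => Iff.rfl
  have hmul : ∀ z ∈ I, ∀ w, z * w ∈ I := by
    rintro _ ⟨y, rfl⟩ w
    refine ⟨fun j => y j * w, ?_⟩
    rw [Finset.sum_mul]
    exact Finset.sum_congr rfl fun j _ => mul_assoc _ _ _
  obtain ⟨g₀, hg₀⟩ : ∃ g₀ : CoprodI G, res K i (c * MonoidAlgebra.single g₀⁻¹ 1) ∉ I := by
    by_contra hcon
    push Not at hcon
    apply hc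
    rw [← hI]
    obtain ⟨T, hT⟩ := coset_sum i c
    rw [hT, map_sum]
    refine I.sum_mem fun t _ => ?_
    rw [map_mul, prj_inc]
    exact hmul _ (hcon t) _
  obtain ⟨l, hl, hl0⟩ := Submodule.exists_dual_map_eq_bot_of_notMem hg₀ inferInstance
  have hlI : ∀ z ∈ I, l z = 0 := by
    intro z hz
    have h1 : l z ∈ I.map l := ⟨z, hz, rfl⟩
    rw [hl0] at h1
    exact (Submodule.mem_bot K).mp h1
  obtain ⟨Φ, hΦ⟩ : ∃ Φ : MonoidAlgebra K (CoprodI G) →ₗ[K] K, ∀ x, Φ x = l (res K i (c * x)) :=
    ⟨l ∘ₗ res K i ∘ₗ LinearMap.mulLeft K c, fun _ => rfl⟩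
  refine ⟨Φ, ?_, ?_, ?_⟩
  · intro h0
    apply hl
    rw [← hΦ, h0]
    rfl
  · refine ⟨c.coeff.support, fun g hg => ?_⟩
    by_contra hcon
    push Not at hcon
    apply hg
    unfold ev
    rw [hΦ]
    have h1 : res K i (c * MonoidAlgebra.single g⁻¹ 1) = 0 := by
      conv_lhs => rw [sum_single c]
      rw [Finset.sum_mul, map_sum]
      refine Finset.sum_eq_zero fun t ht => ?_
      rw [MonoidAlgebra.single_mul_single, mul_one, res_single, El_not, smul_zero]
      rintro ⟨y, hy⟩
      refine hcon t ht y⁻¹ ?_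
      rw [map_inv, hy, mul_inv_rev, inv_inv, inv_mul_cancel_right]
    rw [h1, map_zero]
  · rintro a ⟨x, hx⟩ z
    rw [hΦ, ← mul_assoc, hx, Finset.sum_mul, map_sum]
    refine hlI _ ⟨fun j => res K i (x j * z), ?_⟩
    exact Finset.sum_congr rfl fun j _ => by rw [mul_assoc, res_inc_mul]

end

end Pool.Agent.MelR
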