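import Pool.Agent.MelR.LemB

/-!
# The combinatorial lemma (module M2)

Linear forms `Φ₀, Φ₁` on `K[P]`, `P` the free product of the `G i`, `K[G i]` domains, `a₀ + a₁ = 1`,
`Φ₀ (a₀ x) = 0`, `Φ₁ (a₁ x) = 0` for all `x`; the support of `Φ₀` (`Φ₁`) in finitely many cosets `G i₀ * t`
(`G i₁ * t`), `i₀ ≠ i₁`.  Then `Φ₀ = 0` or `Φ₁ = 0`.

Induction on `l + d₀ + d₁`, where `l` bounds the lengths of the words of `a₀`, `a₁` and the support of `Φ₀` (`Φ₁`)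
is contained in `Lv i₀ d₀` (`Lv i₁ d₁`).
-/

set_option linter.unusedSectionVars false

open Finset

namespace Pool.Agent.MelR

open Monoid (CoprodI)
open MonoidAlgebra (single)

variable {ι : Type} [DecidableEq ι] {G : ι → Type} [∀ i, Group (G i)] {K : Type} [Field K]

/-- Extreme elements of the support, or a better bound. -/
theorem extreme (i : ι) {d : ℕ} {Φ : MonoidAlgebra K (CoprodI G) →ₗ[K] K} (hΦ : ∀ g, ev Φ g ≠ 0 → Lv i d g)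
    (hne : Φ ≠ 0) : (∃ (α : G i) (w : CoprodI G), ev Φ (CoprodI.of α * w) ≠ 0 ∧ fi w ≠ some i ∧ len w = d) ∨
      (1 ≤ d ∧ ∀ g, ev Φ g ≠ 0 → Lv i (d - 1) g) := by
  by_cases h : ∃ (α : G i) (w : CoprodI G), ev Φ (CoprodI.of α * w) ≠ 0 ∧ fi w ≠ some i ∧ len w = d
  · exact Or.inl h
  right
  push Not at h
  have key : ∀ g, ev Φ g ≠ 0 → 1 ≤ d ∧ Lv i (d - 1) g := by
    intro g hg
    obtain ⟨α, w, rfl, hfi, hw⟩ := (hΦ g hg).normal
    have h1 := h α w hg hfi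
    exact ⟨by omega, α, w, rfl, by omega⟩
  obtain ⟨g, hg⟩ : ∃ g, ev Φ g ≠ 0 := by
    by_contra hc
    push Not at hc
    exact hne (eq_zero_of_ev hc)
  exact ⟨(key g hg).1, fun g hg => (key g hg).2⟩

/-- Purity: the extreme words of `Φ` end with the first index of the longest words of `a`. -/
theorem purity {i k : ι} {d l : ℕ} {Φ : MonoidAlgebra K (CoprodI G) →ₗ[K] K} {a : MonoidAlgebra K (CoprodI G)}
    (e : ∀ x, Φ (a * x) = 0) (hΦ : ∀ g, ev Φ g ≠ 0 → Lv i d g) (ha : ∀ p, a.coeff p ≠ 0 → len p ≤ l)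
    {p : CoprodI G} (hp : a.coeff p ≠ 0) (hpl : len p = l) (hpk : fi p = some k) {α : G i} {w : CoprodI G}
    (hg : ev Φ (CoprodI.of α * w) ≠ 0) (hfi : fi w ≠ some i) (hw : len w = d) :
    la w = some k ∨ (w = 1 ∧ k = i) := by
  by_contra hc
  push Not at hc
  have h1 : w = 1 ∨ p = 1 ∨ la w ≠ fi p := by
    right; right
    rw [hpk]
    exact hc.1
  have h2 : fi (w * p) ≠ some i := by
    by_cases hw1 : w = 1
    · rw [hw1, one_mul, hpk]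
      intro h
      exact hc.2 hw1 (Option.some.inj h)
    · rw [fi_mul h1 hw1]
      exact hfi
  have h3 := key1 (α := α) hΦ ha hw hpl h1 h2
  rw [e] at h3
  exact mul_ne_zero hp hg h3.symm

theorem coeff_one_ne {p : CoprodI G} (h : (1 : MonoidAlgebra K (CoprodI G)).coeff p ≠ 0) : p = 1 := by
  by_contra hc
  apply h
  rw [MonoidAlgebra.one_def, MonoidAlgebra.coeff_single, Finsupp.single_eq_of_ne hc]

/-- The main step of the induction: `i₁ ≠ k`, `k` the first index of the longest words. -/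
theorem step {i₀ i₁ k : ι} (hdom : NoZeroDivisors (MonoidAlgebra K (G k))) (hk : k ≠ i₁)
    (Φ₀ Φ₁ : MonoidAlgebra K (CoprodI G) →ₗ[K] K) (c₀ : CosFin i₀ Φ₀) (c₁ : CosFin i₁ Φ₁)
    (a₀ a₁ : MonoidAlgebra K (CoprodI G)) (e₀ : ∀ x, Φ₀ (a₀ * x) = 0)
    (e₁ : ∀ x, Φ₁ (a₁ * x) = 0) {l d₀ d₁ : ℕ} (hl : 1 ≤ l)
    (hl₀ : ∀ p, a₀.coeff p ≠ 0 → len p ≤ l) (hl₁ : ∀ p, a₁.coeff p ≠ 0 → len p ≤ l)
    (h₀ : ∀ g, ev Φ₀ g ≠ 0 → Lv i₀ d₀ g) (h₁ : ∀ g, ev Φ₁ g ≠ 0 → Lv i₁ d₁ g)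
    (x₁ : ∃ (α : G i₁) (w : CoprodI G), ev Φ₁ (CoprodI.of α * w) ≠ 0 ∧ fi w ≠ some i₁ ∧ len w = d₁)
    (ht₀ : ∃ p, a₀.coeff p ≠ 0 ∧ len p = l)
    (ht₁ : ∃ p, a₁.coeff p ≠ 0 ∧ len p = l)
    (hk₀ : ∀ p, a₀.coeff p ≠ 0 → len p = l → fi p = some k)
    (hk₁ : ∀ p, a₁.coeff p ≠ 0 → len p = l → fi p = some k) :
    1 ≤ d₁ ∧ ∃ u u' : MonoidAlgebra K (CoprodI G), u * u' = 1 ∧ u' * u = 1 ∧
      (∀ p, (u' * a₁ * u).coeff p ≠ 0 → len p ≤ l) ∧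
      (∀ g, ev (tr Φ₀ u) g ≠ 0 → Lv i₀ d₀ g) ∧ (∀ g, ev (tr Φ₁ u) g ≠ 0 → Lv i₁ (d₁ - 1) g) := by
  obtain ⟨p₁, hp₁, hp₁l⟩ := ht₁
  obtain ⟨p₀, hp₀, hp₀l⟩ := ht₀
  have pur₁ : ∀ (α : G i₁) (w : CoprodI G), ev Φ₁ (CoprodI.of α * w) ≠ 0 → fi w ≠ some i₁ → len w = d₁ →
      la w = some k := by
    intro α w hg hfi hw
    rcases purity e₁ h₁ hl₁ hp₁ hp₁l (hk₁ p₁ hp₁ hp₁l) hg hfi hw with h | h
    · exact h
    · exact absurd h.2 hk
  obtain ⟨α₁, w₁, hg₁, hw₁i, hw₁⟩ := x₁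
  obtain ⟨v₁, x₁, hx₁, hvx₁, hlv₁, hvk₁⟩ := la_some (pur₁ α₁ w₁ hg₁ hw₁i hw₁)
  have hd₁ : 1 ≤ d₁ := by omega
  have hvi₁ : fi v₁ ≠ some i₁ := by
    by_cases hv1 : v₁ = 1
    · rw [hv1, fi_eq_none.2 rfl]
      exact fun h => by cases h
    · have hr : v₁ = 1 ∨ (CoprodI.of x₁ : CoprodI G) = 1 ∨ la v₁ ≠ fi (CoprodI.of x₁) := by
        right; right
        rw [fi_of hx₁]
        exact hvk₁
      rw [hvx₁, fi_mul hr hv1] at hw₁i
      exact hw₁i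
  -- the decompositions of the supports
  have S₁ : ∀ g, ev Φ₁ g ≠ 0 →
      ∃ (β : G i₁) (w : CoprodI G) (z : G k), g = CoprodI.of β * w * CoprodI.of z ∧ len w ≤ d₁ - 1 := by
    intro g hg
    obtain ⟨β, w, rfl, hfi, hw⟩ := (h₁ g hg).normal
    rcases Nat.lt_or_ge (len w) d₁ with h | h
    · exact ⟨β, w, 1, by rw [map_one, mul_one], by omega⟩
    · have h' : len w = d₁ := le_antisymm hw h
      obtain ⟨w', z, _, e, e', _⟩ := la_some (pur₁ β w hg hfi h')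
      exact ⟨β, w', z, by rw [e, mul_assoc], by omega⟩
  have Sa : ∀ p, a₁.coeff p ≠ 0 → ∃ (y : G k) (w : CoprodI G), p = CoprodI.of y * w ∧ len w ≤ l - 1 := by
    intro p hp
    rcases Nat.lt_or_ge (len p) l with h | h
    · exact ⟨1, p, by rw [map_one, one_mul], by omega⟩
    · have h' : len p = l := le_antisymm (hl₁ p hp) h
      obtain ⟨y, w, _, e, e', _⟩ := fi_some (hk₁ p hp h')
      exact ⟨y, w, e, by omega⟩
  -- the coefficients in length `d₁ + l - 1` vanish off `1`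
  have Z : ∀ (α : G i₁) (v w : CoprodI G) (x : G k), len v = d₁ - 1 → fi v ≠ some i₁ → la v ≠ some k →
      len w = l - 1 → fi w ≠ some k → x ≠ 1 →
      (pw k Φ₁ (CoprodI.of α * v) * alp k a₁ w).coeff x = 0 := by
    intro α v w x hv hvi hvk hw hwk hx
    rw [← key3 hk S₁ Sa hv hvi hvk hw hwk hx (finite_rho hk c₁ hvi hvk)]
    exact e₁ _
  have hv₁l : len v₁ = d₁ - 1 := by omega
  -- the unit
  obtain ⟨y₀, w₀, hy₀, hpw₀, hlw₀, hw₀k⟩ := fi_some (hk₁ p₁ hp₁ hp₁l)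
  have hw₀l : len w₀ = l - 1 := by omega
  set ρ := pw k Φ₁ (CoprodI.of α₁ * v₁) with hρ
  set α₀ := alp k a₁ w₀ with hα₀
  have hfin₁ := finite_rho hk c₁ (α := α₁) hvi₁ hvk₁
  have hρ0 : ρ ≠ 0 := by
    intro h
    have h1 := pw_coeff hfin₁ x₁
    rw [← hρ, h, MonoidAlgebra.coeff_zero, Finsupp.zero_apply, mul_assoc, ← hvx₁] at h1
    exact hg₁ h1.symm
  have hα₀0 : α₀ ≠ 0 := by
    intro h
    have h1 := alp_coeff k a₁ w₀ y₀
    rw [← hα₀, h, MonoidAlgebra.coeff_zero, Finsupp.zero_apply, ← hpw₀] at h1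
    exact hp₁ h1.symm
  have scal : ∀ z : MonoidAlgebra K (G k), (∀ x, x ≠ 1 → z.coeff x = 0) → z = single 1 (z.coeff 1) := by
    intro z hz
    refine MonoidAlgebra.ext (Finsupp.ext fun x => ?_)
    rw [MonoidAlgebra.coeff_single]
    by_cases hx : x = 1
    · rw [hx, Finsupp.single_eq_same]
    · rw [hz x hx, Finsupp.single_eq_of_ne hx]
  have hκ := scal _ (fun x hx => Z α₁ v₁ w₀ x hv₁l hvi₁ hvk₁ hw₀l hw₀k hx)
  rw [← hρ, ← hα₀] at hκ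
  set κ := (ρ * α₀).coeff 1 with hκ'
  have hκ0 : κ ≠ 0 := by
    intro h
    rw [h, MonoidAlgebra.single_zero] at hκ
    exact mul_ne_zero hρ0 hα₀0 hκ
  set β₀ : MonoidAlgebra K (G k) := κ⁻¹ • ρ with hβ₀
  have hba : β₀ * α₀ = 1 := by
    rw [hβ₀, smul_mul_assoc, hκ, MonoidAlgebra.smul_single', inv_mul_cancel₀ hκ0, MonoidAlgebra.one_def]
  have hab : α₀ * β₀ = 1 := by
    have h1 : (α₀ * β₀ - 1) * α₀ = 0 := by
      rw [sub_mul, mul_assoc, hba, mul_one, one_mul, sub_self]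
    rcases mul_eq_zero.1 h1 with h | h
    · exact sub_eq_zero.1 h
    · exact absurd h hα₀0
  -- the other coefficients are multiples
  have Zb : ∀ (w : CoprodI G) (x : G k), len w = l - 1 → fi w ≠ some k → x ≠ 1 →
      (β₀ * alp k a₁ w).coeff x = 0 := by
    intro w x hw hwk hx
    rw [hβ₀, smul_mul_assoc, MonoidAlgebra.coeff_smul_apply, Z α₁ v₁ w x hv₁l hvi₁ hvk₁ hw hwk hx, smul_zero]
  refine ⟨hd₁, inc K k α₀, inc K k β₀, ?_, ?_, ?_, ?_, ?_⟩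
  · rw [← map_mul, hab, map_one]
  · rw [← map_mul, hba, map_one]
  · -- the length of `u' a₁ u`
    have h1 : ∀ q, (inc K k β₀ * a₁).coeff q ≠ 0 → len q ≤ l - 1 := by
      intro q hq
      obtain ⟨x, w, rfl, hwk⟩ := normal k q
      have hq' := hq
      rw [inc_mul_coeff] at hq'
      obtain ⟨p, r, hp, hr, hpr⟩ := coeff_mul_ne hq
      obtain ⟨y, rfl⟩ := inc_coeff_of k β₀ hp
      have hw : len w ≤ l - 1 := by
        obtain ⟨y', w', rfl, hw'⟩ := Sa r hr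
        refine (len_le_of_eq (x := x⁻¹ * y * y') hwk ?_).trans hw'
        rw [map_mul, map_mul, map_inv]
        rw [show (CoprodI.of x)⁻¹ * CoprodI.of y * CoprodI.of y' * w' =
          (CoprodI.of x)⁻¹ * (CoprodI.of y * (CoprodI.of y' * w')) by group, ← hpr]
        group
      by_cases hx : x = 1
      · rw [hx, map_one, one_mul]
        exact hw
      · rcases Nat.lt_or_ge (len w) (l - 1) with h | h
        · rw [len_of_mul hx hwk]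
          omega
        · exact absurd (Zb w x (le_antisymm hw h) hwk hx) hq'
    intro p hp
    obtain ⟨q, r, hq, hr, rfl⟩ := coeff_mul_ne hp
    obtain ⟨y, rfl⟩ := inc_coeff_of k α₀ hr
    have h2 := len_mul_le q (CoprodI.of y)
    have h3 := len_of_le (G := G) y
    have h4 := h1 q hq
    omega
  · -- the support of `Φ₀ u`
    intro g hg
    rw [ev_tr] at hg
    obtain ⟨p, hp, hg'⟩ := exists_of_app_ne hg
    obtain ⟨y, rfl⟩ := inc_coeff_of k α₀ hp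
    obtain ⟨α, w, e, hfi, hw⟩ := (h₀ _ hg').normal
    have e' : g = CoprodI.of α * w * CoprodI.of y := by
      rw [← e]
      group
    rcases Nat.lt_or_ge (len w) d₀ with h | h
    · refine ⟨α, w * CoprodI.of y, by rw [e', mul_assoc], ?_⟩
      have h2 := len_mul_le w (CoprodI.of y)
      have h3 := len_of_le (G := G) y
      omega
    · have hwd : len w = d₀ := le_antisymm hw h
      rw [e] at hg'
      rcases purity e₀ h₀ hl₀ hp₀ hp₀l (hk₀ p₀ hp₀ hp₀l) hg' hfi hwd with h | h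
      · refine ⟨α, w * CoprodI.of y, by rw [e', mul_assoc], ?_⟩
        exact (len_mul_of_le y h).trans hw
      · obtain ⟨hw1, hki⟩ := h
        subst hki
        refine ⟨α * y, 1, ?_, by rw [len_one]; exact Nat.zero_le _⟩
        rw [e', hw1, map_mul, mul_one, mul_one]
  · -- the support of `Φ₁ u`
    intro g hg
    obtain ⟨β, w, x, e, hw⟩ : ∃ (β : G i₁) (w : CoprodI G) (x : G k), g = CoprodI.of β * w * CoprodI.of x ∧
        len w ≤ d₁ - 1 := by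
      rw [ev_tr] at hg
      obtain ⟨p, hp, hg'⟩ := exists_of_app_ne hg
      obtain ⟨y, rfl⟩ := inc_coeff_of k α₀ hp
      obtain ⟨β, w, z, e, hw⟩ := S₁ _ hg'
      refine ⟨β, w, z * y, ?_, hw⟩
      rw [map_mul, ← mul_assoc, ← e]
      group
    by_cases hwk : la w = some k
    · refine ⟨β, w * CoprodI.of x, by rw [e, mul_assoc], ?_⟩
      exact (len_mul_of_le x hwk).trans hw
    by_cases hwi : fi w = some i₁
    · obtain ⟨γ, w', _, e1, e2, _⟩ := fi_some hwi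
      refine ⟨β * γ, w' * CoprodI.of x, ?_, ?_⟩
      · rw [e, e1, map_mul]
        group
      · have h2 := len_mul_le w' (CoprodI.of x)
        have h3 := len_of_le (G := G) x
        omega
    rcases Nat.lt_or_ge (len w) (d₁ - 1) with h | h
    · refine ⟨β, w * CoprodI.of x, by rw [e, mul_assoc], ?_⟩
      have h2 := len_mul_le w (CoprodI.of x)
      have h3 := len_of_le (G := G) x
      omega
    by_cases hx : x = 1
    · exact ⟨β, w, by rw [e, hx, map_one, mul_one], hw⟩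
    exfalso
    apply hg
    rw [ev_tr, e, app_inc (finite_rho hk c₁ hwi hwk)]
    exact Z β w w₀ x (le_antisymm hw h) hwi hwk hw₀l hw₀k hx

theorem coeff_compl {a₀ a₁ : MonoidAlgebra K (CoprodI G)} (ha : a₀ + a₁ = 1) {p : CoprodI G} (hp : p ≠ 1)
    (h : a₁.coeff p ≠ 0) : a₀.coeff p ≠ 0 := by
  intro h0
  have h1 : (a₀ + a₁).coeff p = 0 := by
    rw [ha, MonoidAlgebra.one_def, MonoidAlgebra.coeff_single, Finsupp.single_eq_of_ne hp]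
  rw [MonoidAlgebra.coeff_add, Finsupp.add_apply, h0, zero_add] at h1
  exact h h1

theorem ne_one_of_len {p : CoprodI G} {l : ℕ} (hl : 1 ≤ l) (h : len p = l) : p ≠ 1 := by
  rintro rfl
  rw [len_one] at h
  omega

theorem bound_compl {a₀ a₁ : MonoidAlgebra K (CoprodI G)} (ha : a₀ + a₁ = 1) {l : ℕ}
    (h : ∀ p, a₀.coeff p ≠ 0 → len p ≤ l) : ∀ p, a₁.coeff p ≠ 0 → len p ≤ l := by
  intro p hp
  by_cases hp1 : p = 1
  · rw [hp1, len_one]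
    exact Nat.zero_le _
  · exact h p (coeff_compl ha hp1 hp)

/-- The case of length `0`. -/
theorem base {Φ₀ Φ₁ : MonoidAlgebra K (CoprodI G) →ₗ[K] K} {a₀ a₁ : MonoidAlgebra K (CoprodI G)}
    (ha : a₀ + a₁ = 1) (e₀ : ∀ x, Φ₀ (a₀ * x) = 0) (e₁ : ∀ x, Φ₁ (a₁ * x) = 0)
    (hl₀ : ∀ p, a₀.coeff p ≠ 0 → len p ≤ 0) : Φ₀ = 0 ∨ Φ₁ = 0 := by
  have h0 : a₀ = a₀.coeff 1 • 1 := by
    refine MonoidAlgebra.ext (Finsupp.ext fun p => ?_)
    rw [MonoidAlgebra.coeff_smul_apply, MonoidAlgebra.one_def, MonoidAlgebra.coeff_single]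
    by_cases hp : p = 1
    · rw [hp, Finsupp.single_eq_same, smul_eq_mul, mul_one]
    · rw [Finsupp.single_eq_of_ne hp, smul_zero]
      by_contra hc
      exact hp (len_eq_zero.1 (Nat.le_zero.1 (hl₀ p hc)))
  by_cases hκ : a₀.coeff 1 = 0
  · right
    rw [hκ, zero_smul] at h0
    rw [h0, zero_add] at ha
    refine LinearMap.ext fun x => ?_
    have := e₁ x
    rw [ha, one_mul] at this
    rw [this, LinearMap.zero_apply]
  · left
    refine LinearMap.ext fun x => ?_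
    have := e₀ x
    rw [h0, smul_mul_assoc, one_mul, map_smul, smul_eq_mul] at this
    rw [(mul_eq_zero.1 this).resolve_left hκ, LinearMap.zero_apply]

theorem eq_zero_of_tr {Φ : MonoidAlgebra K (CoprodI G) →ₗ[K] K} {u u' : MonoidAlgebra K (CoprodI G)}
    (huu : u * u' = 1) (h : tr Φ u = 0) : Φ = 0 := by
  refine LinearMap.ext fun x => ?_
  have h1 : tr Φ u (u' * x) = 0 := by rw [h, LinearMap.zero_apply]
  rw [tr_apply, ← mul_assoc, huu, one_mul] at h1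
  rw [h1, LinearMap.zero_apply]

theorem tr_zero {Φ : MonoidAlgebra K (CoprodI G) →ₗ[K] K} {u u' a : MonoidAlgebra K (CoprodI G)}
    (huu : u * u' = 1) (e : ∀ x, Φ (a * x) = 0) (x : MonoidAlgebra K (CoprodI G)) :
    tr Φ u (u' * a * u * x) = 0 := by
  rw [tr_apply, show u * (u' * a * u * x) = (u * u') * (a * (u * x)) by noncomm_ring, huu, one_mul]
  exact e _

theorem conj_sum {a₀ a₁ u u' : MonoidAlgebra K (CoprodI G)} (ha : a₀ + a₁ = 1) (huu : u' * u = 1) :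
    u' * a₀ * u + u' * a₁ * u = 1 := by
  rw [← add_mul, ← mul_add, ha, mul_one, huu]

/-- The induction. -/
theorem mainL (hdom : ∀ i, NoZeroDivisors (MonoidAlgebra K (G i))) (n : ℕ) : ∀ (i₀ i₁ : ι) (_ : i₀ ≠ i₁)
    (Φ₀ Φ₁ : MonoidAlgebra K (CoprodI G) →ₗ[K] K) (_ : CosFin i₀ Φ₀) (_ : CosFin i₁ Φ₁)
    (a₀ a₁ : MonoidAlgebra K (CoprodI G)) (_ : a₀ + a₁ = 1) (_ : ∀ x, Φ₀ (a₀ * x) = 0)
    (_ : ∀ x, Φ₁ (a₁ * x) = 0) (l d₀ d₁ : ℕ) (_ : l + d₀ + d₁ ≤ n)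
    (_ : ∀ p, a₀.coeff p ≠ 0 → len p ≤ l) (_ : ∀ p, a₁.coeff p ≠ 0 → len p ≤ l)
    (_ : ∀ g, ev Φ₀ g ≠ 0 → Lv i₀ d₀ g) (_ : ∀ g, ev Φ₁ g ≠ 0 → Lv i₁ d₁ g), Φ₀ = 0 ∨ Φ₁ = 0 := by
  induction n with
  | zero =>
    intro i₀ i₁ hi Φ₀ Φ₁ c₀ c₁ a₀ a₁ ha e₀ e₁ l d₀ d₁ hn hl₀ hl₁ h₀ h₁
    have hl : l = 0 := by omega
    subst hl
    exact base ha e₀ e₁ hl₀
  | succ n ih =>
    intro i₀ i₁ hi Φ₀ Φ₁ c₀ c₁ a₀ a₁ ha e₀ e₁ l d₀ d₁ hn hl₀ hl₁ h₀ h₁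
    rcases Nat.eq_zero_or_pos l with hl | hl
    · subst hl
      exact base ha e₀ e₁ hl₀
    have ha' : a₁ + a₀ = 1 := by rw [add_comm, ha]
    by_cases ht : ∃ p, a₀.coeff p ≠ 0 ∧ len p = l
    swap
    · push Not at ht
      have hb : ∀ p, a₀.coeff p ≠ 0 → len p ≤ l - 1 := by
        intro p hp
        have h1 := hl₀ p hp
        have h2 := ht p hp
        omega
      exact ih i₀ i₁ hi Φ₀ Φ₁ c₀ c₁ a₀ a₁ ha e₀ e₁ (l - 1) d₀ d₁ (by omega) hb (bound_compl ha hb) h₀ h₁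
    by_cases hΦ₀ : Φ₀ = 0
    · exact Or.inl hΦ₀
    by_cases hΦ₁ : Φ₁ = 0
    · exact Or.inr hΦ₁
    rcases extreme i₀ h₀ hΦ₀ with x₀ | ⟨hd, h₀'⟩
    swap
    · exact ih i₀ i₁ hi Φ₀ Φ₁ c₀ c₁ a₀ a₁ ha e₀ e₁ l (d₀ - 1) d₁ (by omega) hl₀ hl₁ h₀' h₁
    rcases extreme i₁ h₁ hΦ₁ with x₁ | ⟨hd, h₁'⟩
    swap
    · exact ih i₀ i₁ hi Φ₀ Φ₁ c₀ c₁ a₀ a₁ ha e₀ e₁ l d₀ (d₁ - 1) (by omega) hl₀ hl₁ h₀ h₁'
    obtain ⟨p₀, hp₀, hp₀l⟩ := ht
    obtain ⟨k, hk⟩ : ∃ k, fi p₀ = some k := by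
      rcases hfi : fi p₀ with _ | k
      · exact absurd (fi_eq_none.1 hfi) (ne_one_of_len hl hp₀l)
      · exact ⟨k, rfl⟩
    have hk₀ : ∀ p, a₀.coeff p ≠ 0 → len p = l → fi p = some k := by
      intro p hp hpl
      obtain ⟨k', hk'⟩ : ∃ k, fi p = some k := by
        rcases hfi : fi p with _ | k
        · exact absurd (fi_eq_none.1 hfi) (ne_one_of_len hl hpl)
        · exact ⟨k, rfl⟩
      obtain ⟨α, w, hg, hfi, hw⟩ := x₀
      have q1 := purity e₀ h₀ hl₀ hp₀ hp₀l hk hg hfi hw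
      have q2 := purity e₀ h₀ hl₀ hp hpl hk' hg hfi hw
      rw [hk']
      rcases q1 with q1 | q1 <;> rcases q2 with q2 | q2
      · rw [← q1, ← q2]
      · rw [q2.1, la_eq_none.2 rfl] at q1
        cases q1
      · rw [q1.1, la_eq_none.2 rfl] at q2
        cases q2
      · rw [q1.2, q2.2]
    have hk₁ : ∀ p, a₁.coeff p ≠ 0 → len p = l → fi p = some k := fun p hp hpl =>
      hk₀ p (coeff_compl ha (ne_one_of_len hl hpl) hp) hpl
    have ht₀ : ∃ p, a₀.coeff p ≠ 0 ∧ len p = l := ⟨p₀, hp₀, hp₀l⟩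
    have ht₁ : ∃ p, a₁.coeff p ≠ 0 ∧ len p = l := ⟨p₀, coeff_compl ha' (ne_one_of_len hl hp₀l) hp₀, hp₀l⟩
    by_cases hki : k = i₁
    · have hki' : k ≠ i₀ := by
        rw [hki]
        exact hi.symm
      obtain ⟨hd, u, u', huu, huu', b, s₁, s₀⟩ := step (hdom k) hki' Φ₁ Φ₀ c₁ c₀ a₁ a₀ e₁ e₀ hl hl₁ hl₀ h₁ h₀ x₀
        ht₁ ht₀ hk₁ hk₀
      have hs := conj_sum (u := u) (u' := u') ha huu'
      rcases ih i₀ i₁ hi (tr Φ₀ u) (tr Φ₁ u) (cosFin_tr c₀ u) (cosFin_tr c₁ u) (u' * a₀ * u) (u' * a₁ * u) hs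
        (tr_zero huu e₀) (tr_zero huu e₁) l (d₀ - 1) d₁ (by omega) b (bound_compl hs b) s₀ s₁ with h | h
      · exact Or.inl (eq_zero_of_tr huu h)
      · exact Or.inr (eq_zero_of_tr huu h)
    · obtain ⟨hd, u, u', huu, huu', b, s₀, s₁⟩ := step (hdom k) hki Φ₀ Φ₁ c₀ c₁ a₀ a₁ e₀ e₁ hl hl₀ hl₁ h₀ h₁ x₁
        ht₀ ht₁ hk₀ hk₁
      have hs := conj_sum (u := u) (u' := u') ha huu'
      have hs' : u' * a₁ * u + u' * a₀ * u = 1 := by rw [add_comm, hs]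
      rcases ih i₀ i₁ hi (tr Φ₀ u) (tr Φ₁ u) (cosFin_tr c₀ u) (cosFin_tr c₁ u) (u' * a₀ * u) (u' * a₁ * u) hs
        (tr_zero huu e₀) (tr_zero huu e₁) l d₀ (d₁ - 1) (by omega) (bound_compl hs' b) b s₀ s₁ with h | h
      · exact Or.inl (eq_zero_of_tr huu h)
      · exact Or.inr (eq_zero_of_tr huu h)

/-- The support of a form with `CosFin i` is contained in some `Lv i d`. -/
theorem exists_bound {i : ι} {Φ : MonoidAlgebra K (CoprodI G) →ₗ[K] K} (c : CosFin i Φ) :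
    ∃ d, ∀ g, ev Φ g ≠ 0 → Lv i d g := by
  obtain ⟨T, hT⟩ := c
  refine ⟨T.sup len, fun g hg => ?_⟩
  obtain ⟨t, ht, x, hx⟩ := hT g hg
  exact ⟨x, t, hx, Finset.le_sup (f := len) ht⟩

theorem lemL (hdom : ∀ i, NoZeroDivisors (MonoidAlgebra K (G i))) {i₀ i₁ : ι} (hi : i₀ ≠ i₁)
    (Φ₀ Φ₁ : MonoidAlgebra K (CoprodI G) →ₗ[K] K) (c₀ : CosFin i₀ Φ₀) (c₁ : CosFin i₁ Φ₁)
    (a₀ a₁ : MonoidAlgebra K (CoprodI G)) (ha : a₀ + a₁ = 1) (e₀ : ∀ x, Φ₀ (a₀ * x) = 0)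
    (e₁ : ∀ x, Φ₁ (a₁ * x) = 0) : Φ₀ = 0 ∨ Φ₁ = 0 := by
  obtain ⟨d₀, h₀⟩ := exists_bound c₀
  obtain ⟨d₁, h₁⟩ := exists_bound c₁
  have hb : ∀ p, a₀.coeff p ≠ 0 → len p ≤ a₀.coeff.support.sup len := fun p hp =>
    Finset.le_sup (f := len) (Finsupp.mem_support_iff.2 hp)
  exact mainL hdom _ i₀ i₁ hi Φ₀ Φ₁ c₀ c₁ a₀ a₁ ha e₀ e₁ _ d₀ d₁ le_rfl hb (bound_compl ha hb) h₀ h₁

end Pool.Agent.MelR
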