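import Pool.Agent.MelR.Def

/-!
# Projectivity of the augmentation ideal of a factor (module M5)

Notation: `A = G i`, `a_j = pr i (ρ (q x_j)) ∈ A`, `fG i w = pr i (ρ (q w))` in `K[A]`, `δ j = δ i j`.

`proj_of_matrix`: rows `V j ∈ K[A]^k` with `∑ j, δ j • V j = 0` and `∑ m, V j m * (a_m - 1) = a_j - 1`.  The derivation
`coc (fG i) V` of the free group vanishes on the normal closure of `r`, so it factors through `N`; compose with
`s ∘ of : A → N`: a map `d : A → K[A]^k`, `d (g h) = d g + g • d h` (as `pr i (ρ (s (of g))) = g`), and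
`∑ m, d g m * (a_m - 1) = g - 1` (both sides of `∑ m, coc (fG i) V w m * (a_m - 1) = fG i w - 1` are derivations of
the free group with the same values at the generators).  Extend `d` linearly to `K[A]`: on the augmentation ideal it
is `K[A]`-linear, a section of the linear map `K[A]^k → augI`, `v ↦ ∑ m, v m * (a_m - 1)`; so `augI` is projective
(`Module.Projective.of_split`).

`proj_of_zero`: `D = 0`: then `δ = 0` (`map_fox` with `prj`), `V j = e_j`.

`proj_of_good`: `Good i c` and `prj c = ∑ j, δ j * y j`.  Put `V j m = prj (W i j m) - y j * δ m`.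
 `∑ j, δ j • V j = prj (∑ inc (δ j) W i j) - (∑ δ j y j) δ = prj (c D) - prj c * δ = 0` (`prj (inc x) = x`,
 `prj (D m) = δ m` by `map_fox`); `∑ m, prj (W i j m) (a_m - 1) = prj (∑ m, W i j m (p_m - 1)) = a_j - 1`
 (`fundamental`), `∑ m, δ m (a_m - 1) = fG r - 1 = 0` (`fundamental`).
-/

set_option linter.unusedSectionVars false

open Finset

namespace Pool.Agent.MelR

open Monoid (CoprodI)
open Pool.Agent.MelD (fox coc coc_mul coc_one coc_inv coc_eq_sum fundamental map_fox)

variable {ι : Type} [DecidableEq ι] {G : ι → Type} [∀ i, Group (G i)] {K : Type} [Field K]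

/-- A derivation `d` of a group into the free module `K[A]^k` with `∑ d g m * (u m - 1) = g - 1` makes the
augmentation ideal projective. -/
theorem proj_of_der {A : Type} [Group A] {k : ℕ} (u : Fin k → A) (d : A → Fin k → MonoidAlgebra K A)
    (hd : ∀ g h, d (g * h) = d g + MonoidAlgebra.single g (1 : K) • d h)
    (hs : ∀ g, ∑ m, d g m * (MonoidAlgebra.single (u m) (1 : K) - 1) = MonoidAlgebra.single g (1 : K) - 1) :
    Module.Projective (MonoidAlgebra K A) (augI K A) := by
  classical
  let R := MonoidAlgebra K A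
  let b := MonoidAlgebra.basis A K
  -- the linear extension and the augmentation
  let Dl : MonoidAlgebra K A →ₗ[K] (Fin k → MonoidAlgebra K A) := b.constr K d
  let ε : MonoidAlgebra K A →ₗ[K] K := b.constr K (fun _ => (1 : K))
  have hDl : ∀ g, Dl (MonoidAlgebra.single g 1) = d g := by
    intro g
    have := b.constr_basis K d g
    rwa [MonoidAlgebra.basis_apply] at this
  have hε : ∀ g, ε (MonoidAlgebra.single g 1) = 1 := by
    intro g
    have := b.constr_basis K (fun _ : A => (1 : K)) g
    rwa [MonoidAlgebra.basis_apply] at this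
  have ext1 : ∀ {M : Type} [AddCommGroup M] [Module K M] (f g : MonoidAlgebra K A →ₗ[K] M),
      (∀ a, f (MonoidAlgebra.single a 1) = g (MonoidAlgebra.single a 1)) → ∀ x, f x = g x := by
    intro M _ _ f g h x
    have : f = g := b.ext (fun a => by rw [MonoidAlgebra.basis_apply]; exact h a)
    rw [this]
  have hεg : ∀ g x, ε (MonoidAlgebra.single g 1 * x) = ε x := by
    intro g x
    refine ext1 (ε.comp (LinearMap.mulLeft K (MonoidAlgebra.single g (1 : K)))) ε ?_ x
    intro a
    rw [LinearMap.comp_apply, LinearMap.mulLeft_apply, MonoidAlgebra.single_mul_single, mul_one, hε, hε]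
  have hDg : ∀ g x, Dl (MonoidAlgebra.single g 1 * x) = ε x • d g + MonoidAlgebra.single g (1 : K) • Dl x := by
    intro g x
    refine ext1 (Dl.comp (LinearMap.mulLeft K (MonoidAlgebra.single g (1 : K))))
      ((ε.smulRight (d g)) + ((LinearMap.mulLeft K (MonoidAlgebra.single g (1 : K))).compLeft (Fin k)).comp Dl) ?_ x
    intro a
    rw [LinearMap.comp_apply, LinearMap.mulLeft_apply, MonoidAlgebra.single_mul_single, mul_one, hDl,
      LinearMap.add_apply, LinearMap.smulRight_apply, LinearMap.comp_apply, hε, hDl, hd, one_smul]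
    rfl
  have hε0 : ∀ x ∈ augI K A, ε x = 0 := by
    intro x hx
    unfold augI at hx
    induction hx using Submodule.span_induction with
    | mem x h =>
      obtain ⟨g, rfl⟩ := h
      have h1 : (1 : MonoidAlgebra K A) = MonoidAlgebra.single 1 1 := rfl
      rw [map_sub, h1, hε, hε, sub_self]
    | zero => exact map_zero _
    | add x y _ _ hx hy => rw [map_add, hx, hy, add_zero]
    | smul r x _ hx =>
      rw [smul_eq_mul]
      have h2 := ext1 (ε.comp (LinearMap.mulRight K x)) 0 (fun a => by
        rw [LinearMap.comp_apply, LinearMap.mulRight_apply, hεg, hx, LinearMap.zero_apply]) r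
      rwa [LinearMap.comp_apply, LinearMap.mulRight_apply, LinearMap.zero_apply] at h2
  have hDr : ∀ x, ε x = 0 → ∀ r : MonoidAlgebra K A, Dl (r * x) = r • Dl x := by
    intro x hx r
    have h2 := ext1 (Dl.comp (LinearMap.mulRight K x)) (LinearMap.toSpanSingleton (MonoidAlgebra K A) _ (Dl x) |>.restrictScalars K) (fun a => by
        rw [LinearMap.comp_apply, LinearMap.mulRight_apply, hDg, hx, zero_smul, zero_add]
        rfl) r
    exact h2
  have hsx : ∀ x, ∑ m, Dl x m * (MonoidAlgebra.single (u m) (1 : K) - 1) = x - ε x • (1 : MonoidAlgebra K A) := by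
    intro x
    have h2 := ext1 (∑ m, (LinearMap.mulRight K (MonoidAlgebra.single (u m) (1 : K) - 1)).comp
      ((LinearMap.proj m).comp Dl)) (LinearMap.id - ε.smulRight (1 : MonoidAlgebra K A)) (fun a => by
        rw [LinearMap.sum_apply, LinearMap.sub_apply, LinearMap.smulRight_apply, hε, one_smul, LinearMap.id_apply,
          ← hs a]
        refine Finset.sum_congr rfl fun m _ => ?_
        rw [LinearMap.comp_apply, LinearMap.comp_apply, hDl]
        rfl) x
    rw [LinearMap.sum_apply] at h2
    exact h2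
  -- the section
  let sec : augI K A →ₗ[MonoidAlgebra K A] (Fin k → MonoidAlgebra K A) :=
    { toFun := fun x => Dl x
      map_add' := fun x y => by rw [Submodule.coe_add, map_add]
      map_smul' := fun r x => by
        rw [Submodule.coe_smul, smul_eq_mul, RingHom.id_apply]
        exact hDr x (hε0 x x.2) r }
  let cov0 : (Fin k → MonoidAlgebra K A) →ₗ[MonoidAlgebra K A] MonoidAlgebra K A :=
    { toFun := fun v => ∑ m, v m * (MonoidAlgebra.single (u m) (1 : K) - 1)
      map_add' := fun v w => by simp only [Pi.add_apply, add_mul, sum_add_distrib]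
      map_smul' := fun r v => by
        simp only [Pi.smul_apply, smul_eq_mul, mul_sum, mul_assoc, RingHom.id_apply] }
  let cov : (Fin k → MonoidAlgebra K A) →ₗ[MonoidAlgebra K A] augI K A :=
    cov0.codRestrict (augI K A) (fun v => by
      show ∑ m, v m * (MonoidAlgebra.single (u m) (1 : K) - 1) ∈ augI K A
      refine Submodule.sum_mem _ fun m _ => ?_
      exact Submodule.smul_mem _ (v m) (Submodule.subset_span ⟨u m, rfl⟩))
  refine Module.Projective.of_split sec cov ?_
  refine LinearMap.ext fun x => Subtype.ext ?_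
  show ∑ m, Dl (x : MonoidAlgebra K A) m * (MonoidAlgebra.single (u m) (1 : K) - 1) = x
  rw [hsx, hε0 x x.2, zero_smul, sub_zero]

variable {N : Type} [Group N] {k : ℕ} (X : Ret N G k)

theorem fG_apply (i : ι) (w : FreeGroup (Fin k)) :
    X.fG K i w = MonoidAlgebra.single (pr i (X.ρ (X.q w))) (1 : K) := rfl

theorem q_r : X.q X.r = 1 := by
  have : X.r ∈ X.q.ker := by
    rw [X.hr]
    exact Subgroup.subset_normalClosure rfl
  exact this

/-- A crossed homomorphism for `fG i` which vanishes at `r` vanishes on the kernel of `q`. -/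
theorem coc_ker (i : ι) {M : Type} [AddCommGroup M] [Module (MonoidAlgebra K (G i)) M] (v : Fin k → M)
    (h : coc (X.fG K i) v X.r = 0) (g : FreeGroup (Fin k)) (hg : X.q g = 1) : coc (X.fG K i) v g = 0 := by
  have hf : ∀ w, X.q w = 1 → X.fG K i w = 1 := by
    intro w hw
    rw [fG_apply, hw, map_one, map_one]
    rfl
  have hmem : g ∈ Subgroup.normalClosure {X.r} := by
    rw [← X.hr]
    exact hg
  let S : Subgroup (FreeGroup (Fin k)) :=
    { carrier := {w | X.q w = 1 ∧ coc (X.fG K i) v w = 0}
      one_mem' := ⟨map_one _, coc_one _ _⟩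
      mul_mem' := by
        rintro a b ⟨ha, ha'⟩ ⟨hb, hb'⟩
        refine ⟨by rw [map_mul, ha, hb, one_mul], ?_⟩
        rw [coc_mul, ha', hb', smul_zero, add_zero]
      inv_mem' := by
        rintro a ⟨ha, ha'⟩
        refine ⟨by rw [map_inv, ha, inv_one], ?_⟩
        rw [coc_inv, ha', smul_zero, neg_zero] }
  have hS : S.Normal := by
    constructor
    rintro a ⟨ha, ha'⟩ c
    refine ⟨by rw [map_mul, map_mul, ha, mul_one, ← map_mul, mul_inv_cancel, map_one], ?_⟩
    rw [mul_assoc, coc_mul, coc_mul, ha', zero_add, hf a ha, one_smul, ← coc_mul, mul_inv_cancel, coc_one]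
  have hle : Subgroup.normalClosure {X.r} ≤ S := Subgroup.normalClosure_le_normal (by
    rintro _ rfl
    exact ⟨q_r X, h⟩)
  exact (hle hmem).2

theorem coc_congr (i : ι) {M : Type} [AddCommGroup M] [Module (MonoidAlgebra K (G i)) M] (v : Fin k → M)
    (h : coc (X.fG K i) v X.r = 0) (g g' : FreeGroup (Fin k)) (hg : X.q g = X.q g') :
    coc (X.fG K i) v g = coc (X.fG K i) v g' := by
  have h1 : g = (g * g'⁻¹) * g' := by rw [inv_mul_cancel_right]
  have h2 : X.q (g * g'⁻¹) = 1 := by rw [map_mul, map_inv, hg, mul_inv_cancel]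
  have h3 : X.fG K i (g * g'⁻¹) = 1 := by
    rw [fG_apply, h2, map_one, map_one]
    rfl
  rw [h1, coc_mul, coc_ker X i v h _ h2, h3, one_smul, zero_add]

theorem proj_of_matrix (i : ι) (V : Fin k → Fin k → MonoidAlgebra K (G i))
    (h1 : ∀ m, ∑ j, X.δ K i j * V j m = 0)
    (h2 : ∀ j, ∑ m, V j m * (X.fG K i (FreeGroup.of m) - 1) = X.fG K i (FreeGroup.of j) - 1) :
    Module.Projective (MonoidAlgebra K (G i)) (augI K (G i)) := by
  have hr : coc (X.fG K i) V X.r = 0 := by
    rw [coc_eq_sum]
    funext m
    rw [Finset.sum_apply]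
    exact h1 m
  refine proj_of_der (fun m => pr i (X.ρ (X.q (FreeGroup.of m))))
    (fun g => coc (X.fG K i) V (X.lf (X.s (CoprodI.of g)))) ?_ ?_
  · intro g h
    have h3 : X.fG K i (X.lf (X.s (CoprodI.of g))) = MonoidAlgebra.single g (1 : K) := by
      rw [fG_apply, X.q_lf, X.hs, pr_of]
    rw [← h3, ← coc_mul]
    refine coc_congr X i V hr _ _ ?_
    rw [X.q_lf, map_mul, map_mul, map_mul, X.q_lf, X.q_lf]
  · intro g
    have h3 : X.fG K i (X.lf (X.s (CoprodI.of g))) = MonoidAlgebra.single g (1 : K) := by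
      rw [fG_apply, X.q_lf, X.hs, pr_of]
    rw [← h3, fundamental, coc_eq_sum]
    simp only [Finset.sum_apply, Pi.smul_apply, smul_eq_mul, Finset.sum_mul, mul_assoc]
    rw [Finset.sum_comm]
    refine Finset.sum_congr rfl fun j _ => ?_
    rw [← Finset.mul_sum]
    exact congrArg _ (h2 j)

theorem prj_inc (i : ι) (x : MonoidAlgebra K (G i)) : prj K i (inc K i x) = x := by
  have : ((prj K i).comp (inc K i) : MonoidAlgebra K (G i) →+* MonoidAlgebra K (G i)) = RingHom.id _ := by
    refine MonoidAlgebra.ringHom_ext ?_ ?_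
    · intro a
      rw [RingHom.comp_apply, inc_single, prj_single, pr_of]
      rfl
    · intro a
      rw [RingHom.comp_apply, inc_single, prj_single, pr_of]
      rfl
  exact RingHom.congr_fun this x

theorem prj_fox (i : ι) (m : Fin k) (w : FreeGroup (Fin k)) : prj K i (fox (X.f K) m w) = fox (X.fG K i) m w := by
  rw [map_fox]
  congr 1
  refine MonoidHom.ext fun w => ?_
  show prj K i (MonoidAlgebra.single (X.ρ (X.q w)) (1 : K)) = _
  rw [prj_single]
  rfl

theorem prj_D (i : ι) (m : Fin k) : prj K i (X.D K m) = X.δ K i m := prj_fox X i m X.r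

theorem proj_of_zero (h : ∀ m, X.D K m = 0) (i : ι) : Module.Projective (MonoidAlgebra K (G i)) (augI K (G i)) := by
  have hδ : ∀ m, X.δ K i m = 0 := fun m => by rw [← prj_D, h, map_zero]
  refine proj_of_matrix X i (fun j => Pi.single j 1) (fun m => ?_) (fun j => ?_)
  · simp only [hδ, zero_mul, sum_const_zero]
  · rw [Finset.sum_eq_single j]
    · rw [Pi.single_eq_same, one_mul]
    · intro m _ hm
      rw [Pi.single_eq_of_ne hm, zero_mul]
    · intro hj
      exact absurd (mem_univ j) hj

theorem proj_of_good (i : ι) (c : MonoidAlgebra K (CoprodI G)) (hc : X.Good i c)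
    (h : ∃ y : Fin k → MonoidAlgebra K (G i), prj K i c = ∑ j, X.δ K i j * y j) :
    Module.Projective (MonoidAlgebra K (G i)) (augI K (G i)) := by
  obtain ⟨y, hy⟩ := h
  refine proj_of_matrix X i (fun j m => prj K i (X.W K i j m) - y j * X.δ K i m) (fun m => ?_) (fun j => ?_)
  · have h1 : ∑ j, X.δ K i j * prj K i (X.W K i j m) = prj K i c * X.δ K i m := by
      have := congrArg (prj K i) (hc m)
      rw [map_sum, map_mul, prj_D] at this
      rw [← this]
      refine Finset.sum_congr rfl fun j _ => ?_
      rw [map_mul, prj_inc]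
    simp only [mul_sub, sum_sub_distrib, ← mul_assoc]
    rw [h1, hy, Finset.sum_mul, sub_self]
  · have h1 : ∑ m, prj K i (X.W K i j m) * (X.fG K i (FreeGroup.of m) - 1) = X.fG K i (FreeGroup.of j) - 1 := by
      have h2 : X.fG K i (X.lf (X.s (CoprodI.of (pr i (X.ρ (X.q (FreeGroup.of j))))))) = X.fG K i (FreeGroup.of j) := by
        rw [fG_apply, fG_apply, X.q_lf, X.hs, pr_of]
      rw [← h2, fundamental]
      refine Finset.sum_congr rfl fun m _ => ?_
      unfold Ret.W
      rw [prj_fox]
    have h3 : ∑ m, X.δ K i m * (X.fG K i (FreeGroup.of m) - 1) = 0 := by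
      unfold Ret.δ
      rw [← fundamental, fG_apply, q_r, map_one, map_one]
      exact sub_self _
    simp only [sub_mul, sum_sub_distrib, mul_assoc]
    rw [← Finset.mul_sum, h3, mul_zero, sub_zero, h1]

end Pool.Agent.MelR
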