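import Pool.Agent.MelG.Base
import Pool.Agent.MelR.Lem
import Pool.Agent.MelR.Func
import Pool.Agent.MelR.Alg
import Pool.Agent.MelR.Proj
import Pool.Agent.MelR.DomFree

/-!
# Retracts of one-relator groups (module M6)

`core`: from the other modules; `K[P]` is a domain as all `K[G i]` are domains (`dom_free`).
`ret_of_hasRel`: `HasRel 1 N`: `N` is isomorphic to `PresentedGroup R`, `R = ∅` or `R = {r}`; take `r = 1` in the
first case.
`virt`: `N` of finite index in `G`; the `A i` subgroups of `G` contained in `N`, generating their free product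
(injectivity of `CoprodI.lift`), `ρ : N → G` a homomorphism with values in the subgroup generated by the `A i` which
is the identity on the `A i`.  Then `P = CoprodI A` is a retract of `N`.
-/

set_option linter.unusedSectionVars false

open Finset

namespace Pool.Agent.MelR

open Monoid (CoprodI)
open Pool.Agent.MelG (HasRel)

/-- The main theorem for a regular row `D`. -/
theorem core_reg {ι : Type} [DecidableEq ι] {G : ι → Type} [∀ i, Group (G i)] {K : Type} [Field K]
    (hdom : ∀ i, NoZeroDivisors (MonoidAlgebra K (G i))) {N : Type} [Group N] {k : ℕ} (X : Ret N G k)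
    (hreg : ∀ z : MonoidAlgebra K (CoprodI G), (∀ m, z * X.D K m = 0) → z = 0)
    {i l : ι} (hil : i ≠ l) : Module.Projective (MonoidAlgebra K (G i)) (augI K (G i)) ∨
      Module.Projective (MonoidAlgebra K (G l)) (augI K (G l)) := by
  obtain ⟨ci, cl, a, h1, h2, h3, h4⟩ := exists_alg_reg X hreg hil
  by_contra hcon
  obtain ⟨hi, hl⟩ := not_or.mp hcon
  obtain ⟨Φ₀, p0, q0, r0⟩ := exists_form i (X.δ K i) ci fun h => hi (proj_of_good X i ci h1 h)
  obtain ⟨Φ₁, p1, q1, r1⟩ := exists_form l (X.δ K l) cl fun h => hl (proj_of_good X l cl h2 h)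
  rcases lemL hdom hil Φ₀ Φ₁ q0 q1 a (1 - a) (add_sub_cancel a 1) (r0 a h3) (r1 (1 - a) h4) with h | h
  · exact p0 h
  · exact p1 h

/-- The main theorem. -/
theorem core {ι : Type} [DecidableEq ι] {G : ι → Type} [∀ i, Group (G i)] {K : Type} [Field K]
    (hdom : ∀ i, NoZeroDivisors (MonoidAlgebra K (G i))) {N : Type} [Group N] {k : ℕ} (X : Ret N G k)
    {i l : ι} (hil : i ≠ l) : Module.Projective (MonoidAlgebra K (G i)) (augI K (G i)) ∨
      Module.Projective (MonoidAlgebra K (G l)) (augI K (G l)) := by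
  have hK : NoZeroDivisors (MonoidAlgebra K (CoprodI G)) := dom_free hdom
  by_cases hD : ∀ m, X.D K m = 0
  · exact Or.inl (proj_of_zero X hD i)
  obtain ⟨m, hm⟩ := not_forall.mp hD
  exact core_reg hdom X (fun z hz => (mul_eq_zero.mp (hz m)).resolve_right hm) hil

theorem ret_of_hasRel {N : Type} [Group N] (h : HasRel 1 N) {ι : Type} {G : ι → Type} [∀ i, Group (G i)]
    (ρ : N →* CoprodI G) (s : CoprodI G →* N) (hs : ∀ p, ρ (s p) = p) : ∃ k, Nonempty (Ret N G k) := by
  obtain ⟨k, R, hRf, hR, ⟨e⟩⟩ := h
  let q : FreeGroup (Fin k) →* N := e.symm.toMonoidHom.comp (PresentedGroup.mk R)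
  have hq : Function.Surjective q := e.symm.surjective.comp (QuotientGroup.mk'_surjective _)
  have hk : q.ker = Subgroup.normalClosure R := by
    ext w
    rw [MonoidHom.mem_ker]
    constructor
    · intro hw
      have h1 : PresentedGroup.mk R w = 1 := by
        apply e.symm.injective
        rw [map_one]
        exact hw
      exact (QuotientGroup.eq_one_iff w).mp h1
    · intro hw
      have h1 : PresentedGroup.mk R w = 1 := (QuotientGroup.eq_one_iff w).mpr hw
      show e.symm (PresentedGroup.mk R w) = 1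
      rw [h1, map_one]
  have key : ∃ r : FreeGroup (Fin k), Subgroup.normalClosure R = Subgroup.normalClosure {r} := by
    rcases (Set.ncard_le_one_iff_eq hRf).mp hR with h | ⟨r, h⟩
    · refine ⟨1, ?_⟩
      rw [h]
      apply le_antisymm
      · exact Subgroup.normalClosure_le_normal (Set.empty_subset _)
      · apply Subgroup.normalClosure_le_normal
        intro x hx
        rw [Set.mem_singleton_iff.mp hx]
        exact one_mem _
    · exact ⟨r, by rw [h]⟩
  obtain ⟨r, hr⟩ := key
  exact ⟨k, ⟨⟨q, hq, r, hk.trans hr, ρ, s, hs⟩⟩⟩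

theorem virt {K G : Type} [Field K] [Group G] (hG : ∀ N : Subgroup G, N.FiniteIndex → HasRel 1 N)
    {ι : Type} (A : ι → Subgroup G) (hdom : ∀ i, NoZeroDivisors (MonoidAlgebra K (A i)))
    (hA : Function.Injective (CoprodI.lift fun i => (A i).subtype)) (N : Subgroup G) (hN : N.FiniteIndex)
    (hAN : ∀ i, A i ≤ N) (ρ : N →* G) (hρ : ∀ x, ρ x ∈ ⨆ i, A i) (hρA : ∀ i, ∀ x : A i, ρ ⟨x, hAN i x.2⟩ = x)
    {i l : ι} (hil : i ≠ l) : Module.Projective (MonoidAlgebra K (A i)) (augI K (A i)) ∨
      Module.Projective (MonoidAlgebra K (A l)) (augI K (A l)) := by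
  classical
  let lA : CoprodI (fun i => A i) →* G := CoprodI.lift fun i => (A i).subtype
  have hrange : lA.range = ⨆ i, A i := by
    show (CoprodI.lift fun i => (A i).subtype).range = _
    rw [CoprodI.range_eq_iSup]
    exact iSup_congr fun i => (A i).range_subtype
  let e : CoprodI (fun i => A i) ≃* lA.range := MonoidHom.ofInjective hA
  let ρ' : N →* CoprodI (fun i => A i) :=
    e.symm.toMonoidHom.comp (ρ.codRestrict lA.range fun x => by rw [hrange]; exact hρ x)
  have hρ' : ∀ x, lA (ρ' x) = ρ x := by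
    intro x
    have h1 : e (ρ' x) = ρ.codRestrict lA.range (fun x => by rw [hrange]; exact hρ x) x := e.apply_symm_apply _
    exact congrArg Subtype.val h1
  let s : CoprodI (fun i => A i) →* N := CoprodI.lift fun i => Subgroup.inclusion (hAN i)
  have hs : ∀ p, ρ' (s p) = p := by
    intro p
    apply hA
    show lA (ρ' (s p)) = lA p
    rw [hρ']
    have h2 : (ρ.comp s) = lA := by
      apply CoprodI.ext_hom
      intro i
      ext x
      show ρ (s (CoprodI.of x)) = lA (CoprodI.of x)
      have h3 : s (CoprodI.of x) = Subgroup.inclusion (hAN i) x := CoprodI.lift_of ..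
      have h4 : lA (CoprodI.of x) = x := CoprodI.lift_of ..
      rw [h3, h4]
      exact hρA i x
    exact DFunLike.congr_fun h2 p
  obtain ⟨k, ⟨X⟩⟩ := ret_of_hasRel (hG N hN) ρ' s hs
  exact core hdom X hil

end Pool.Agent.MelR
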