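import Pool.Agent.MelR.Fin
import Pool.Agent.MelR.DomFree

/-!
# The theorem for one subgroup (helper14)

`H` a subgroup and `g` an element of `G` which generate the free product `H * ℤ`, a retract of a subgroup `N` of finite
index of `G`.  The kernel of `χ : H * ℤ → ℤ / 2` is the free product of `H`, `g H g⁻¹` and `⟨g ^ 2⟩`, and a retract of
a subgroup of index two in `N`.  So `core` applies to the family `Fam H = (H, H, ℤ)` of types.

`P = H * ℤ` acts on `Bool × Q`, `Q = CoprodI (Fam H)`: `h (b, q) = (b, h_b q)`, `g (true, q) = (false, q)`,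
`g (false, q) = (true, z q)`.  The element `j q ∈ P` given by `q ∈ Q` acts on `(false, 1)` as `q`.
-/

set_option linter.unusedSectionVars false

open Finset

namespace Pool.Agent.MelR

open Monoid (CoprodI Coprod)
open Pool.Agent.MelG (HasRel)

namespace StarF

/-- The family `H, H, ℤ`. -/
def Fam (H : Type) : Option Bool → Type
  | none => Multiplicative ℤ
  | some _ => H

instance (H : Type) [Group H] : ∀ i, Group (Fam H i)
  | none => inferInstanceAs (Group (Multiplicative ℤ))
  | some _ => inferInstanceAs (Group H)

variable {H : Type} [Group H]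

/-- The inclusion of the third factor. -/
def ofZ (H : Type) [Group H] : Multiplicative ℤ →* CoprodI (Fam H) := (CoprodI.of : Fam H none →* CoprodI (Fam H))

/-- The inclusions of the first two factors. -/
def ofH (H : Type) [Group H] (b : Bool) : H →* CoprodI (Fam H) := (CoprodI.of : Fam H (some b) →* CoprodI (Fam H))

theorem indQ {S : Subgroup (CoprodI (Fam H))} (h1 : ∀ n, ofZ H n ∈ S) (h2 : ∀ b h, ofH H b h ∈ S)
    (q : CoprodI (Fam H)) : q ∈ S := by
  induction q using CoprodI.induction_on with
  | one => exact S.one_mem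
  | of i m =>
    match i, m with
    | none, m => exact h1 m
    | some b, m => exact h2 b m
  | mul a b ha hb => exact S.mul_mem ha hb

/-- The action of the element `h` of `H`. -/
def actH (H : Type) [Group H] : H →* Equiv.Perm (Bool × CoprodI (Fam H)) where
  toFun h :=
    { toFun := fun x => (x.1, ofH H x.1 h * x.2)
      invFun := fun x => (x.1, (ofH H x.1 h)⁻¹ * x.2)
      left_inv := fun x => by simp
      right_inv := fun x => by simp }
  map_one' := by
    apply Equiv.ext
    intro x
    show (x.1, ofH H x.1 1 * x.2) = x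
    rw [map_one, one_mul]
  map_mul' a b := by
    apply Equiv.ext
    intro x
    show (x.1, ofH H x.1 (a * b) * x.2) = (x.1, ofH H x.1 a * (ofH H x.1 b * x.2))
    rw [map_mul, mul_assoc]

/-- The generator of the third factor. -/
def zz (H : Type) [Group H] : CoprodI (Fam H) := ofZ H (Multiplicative.ofAdd (1 : ℤ))

/-- The action of the generator of `ℤ`. -/
def actG (H : Type) [Group H] : Equiv.Perm (Bool × CoprodI (Fam H)) where
  toFun x := (!x.1, if x.1 then x.2 else zz H * x.2)
  invFun x := (!x.1, if x.1 then (zz H)⁻¹ * x.2 else x.2)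
  left_inv x := by
    obtain ⟨b, q⟩ := x
    cases b
    · simp
    · simp
  right_inv x := by
    obtain ⟨b, q⟩ := x
    cases b
    · simp
    · simp

/-- The action of the free product. -/
def W (H : Type) [Group H] : Coprod H (Multiplicative ℤ) →* Equiv.Perm (Bool × CoprodI (Fam H)) :=
  Coprod.lift (actH H) (zpowersHom _ (actG H))

/-- The action on `Bool`. -/
def chi (H : Type) [Group H] : Coprod H (Multiplicative ℤ) →* Equiv.Perm Bool :=
  Coprod.lift 1 (zpowersHom _ Equiv.boolNot)

/-- The generator. -/
def gg (H : Type) [Group H] : Coprod H (Multiplicative ℤ) := Coprod.inr (Multiplicative.ofAdd (1 : ℤ))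

theorem W_inl (h : H) : W H (Coprod.inl h) = actH H h := Coprod.lift_apply_inl _ _ _

theorem W_gg : W H (gg H) = actG H := by
  unfold W gg
  rw [Coprod.lift_apply_inr]
  simp

theorem chi_inl (h : H) : chi H (Coprod.inl h) = 1 := Coprod.lift_apply_inl _ _ _

theorem chi_gg : chi H (gg H) = Equiv.boolNot := by
  unfold chi gg
  rw [Coprod.lift_apply_inr]
  simp

theorem inr_eq (n : Multiplicative ℤ) : (Coprod.inr n : Coprod H (Multiplicative ℤ)) = gg H ^ (Multiplicative.toAdd n) := by
  unfold gg
  rw [← map_zpow, ← ofAdd_zsmul, smul_eq_mul, mul_one, ofAdd_toAdd]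

/-- Induction on the elements of the free product. -/
theorem ind {S : Subgroup (Coprod H (Multiplicative ℤ))} (h1 : ∀ h, Coprod.inl h ∈ S) (h2 : gg H ∈ S)
    (p : Coprod H (Multiplicative ℤ)) : p ∈ S := by
  induction p using Coprod.induction_on with
  | inl h => exact h1 h
  | inr n => rw [inr_eq]; exact S.zpow_mem h2 _
  | mul a b ha hb => exact S.mul_mem ha hb

/-- Right multiplication. -/
def rt (q : CoprodI (Fam H)) : Equiv.Perm (Bool × CoprodI (Fam H)) :=
  Equiv.prodCongr (Equiv.refl Bool) (Equiv.mulRight q)

theorem rt_apply (q : CoprodI (Fam H)) (x : Bool × CoprodI (Fam H)) : rt q x = (x.1, x.2 * q) := rfl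

theorem W_rt (p : Coprod H (Multiplicative ℤ)) (q : CoprodI (Fam H)) : W H p * rt q = rt q * W H p := by
  let S : Subgroup (Coprod H (Multiplicative ℤ)) := (Subgroup.centralizer {rt q}).comap (W H)
  have hS : ∀ p, p ∈ S ↔ rt q * W H p = W H p * rt q := by
    intro p
    show W H p ∈ Subgroup.centralizer {rt q} ↔ _
    rw [Subgroup.mem_centralizer_singleton_iff]
    exact ⟨fun h => h.symm, fun h => h.symm⟩
  refine ((hS p).mp (ind ?_ ?_ p)).symm
  · intro h
    rw [hS, W_inl]
    apply Equiv.ext
    intro x
    show (x.1, ofH H x.1 h * x.2 * q) = (x.1, ofH H x.1 h * (x.2 * q))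
    rw [mul_assoc]
  · rw [hS, W_gg]
    apply Equiv.ext
    rintro ⟨b, x⟩
    cases b
    · show (true, zz H * x * q) = (true, zz H * (x * q))
      rw [mul_assoc]
    · rfl

theorem W_fst (p : Coprod H (Multiplicative ℤ)) (x : Bool × CoprodI (Fam H)) : (W H p x).1 = chi H p x.1 := by
  let S : Subgroup (Coprod H (Multiplicative ℤ)) :=
    { carrier := {p | ∀ x, (W H p x).1 = chi H p x.1}
      mul_mem' := by
        intro a b ha hb x
        rw [map_mul, map_mul, Equiv.Perm.mul_apply, Equiv.Perm.mul_apply, ha, hb]
      one_mem' := by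
        intro x
        rw [map_one, map_one]
        rfl
      inv_mem' := by
        intro a ha x
        have h1 := ha (W H a⁻¹ x)
        rw [← Equiv.Perm.mul_apply, ← map_mul, mul_inv_cancel, map_one, Equiv.Perm.one_apply] at h1
        rw [h1, ← Equiv.Perm.mul_apply, ← map_mul, inv_mul_cancel, map_one]
        rfl }
  have h1 : p ∈ S := ind (S := S) (fun h x => by rw [W_inl, chi_inl]; rfl)
    (by
      intro x
      rw [W_gg, chi_gg]
      rfl) p
  exact h1 x

/-- The homomorphisms of the three factors. -/
def jf (H : Type) [Group H] : ∀ i, Fam H i →* Coprod H (Multiplicative ℤ)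
  | none => (zpowersHom _ (gg H ^ 2) : Multiplicative ℤ →* Coprod H (Multiplicative ℤ))
  | some false => (Coprod.inl : H →* Coprod H (Multiplicative ℤ))
  | some true => ((MulAut.conj (gg H)).toMonoidHom.comp Coprod.inl : H →* Coprod H (Multiplicative ℤ))

/-- The inclusion of the kernel of `chi` as a free product. -/
def jj (H : Type) [Group H] : CoprodI (Fam H) →* Coprod H (Multiplicative ℤ) := CoprodI.lift (jf H)

theorem jj_none (n : Multiplicative ℤ) : jj H (ofZ H n) = (gg H ^ 2) ^ Multiplicative.toAdd n := by
  exact CoprodI.lift_of (jf H) (i := none) n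

theorem jj_false (h : H) : jj H (ofH H false h) = Coprod.inl h := by
  exact CoprodI.lift_of (jf H) (i := some false) h

theorem jj_true (h : H) : jj H (ofH H true h) = gg H * Coprod.inl h * (gg H)⁻¹ := by
  exact CoprodI.lift_of (jf H) (i := some true) h

theorem chi_jj (q : CoprodI (Fam H)) : chi H (jj H q) = 1 := by
  have h2 : (Equiv.boolNot : Equiv.Perm Bool) ^ 2 = 1 := by
    apply Equiv.ext
    intro b
    cases b <;> rfl
  have h1 : q ∈ ((chi H).comp (jj H)).ker := by
    refine indQ (fun n => ?_) (fun b h => ?_) q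
    · show chi H (jj H (ofZ H n)) = 1
      rw [jj_none, map_zpow, map_pow, chi_gg, h2, one_zpow]
    · cases b
      · show chi H (jj H (ofH H false h)) = 1
        rw [jj_false, chi_inl]
      · show chi H (jj H (ofH H true h)) = 1
        rw [jj_true, map_mul, map_mul, chi_inl, mul_one, map_inv, mul_inv_cancel]
  exact h1

theorem W_jj (q : CoprodI (Fam H)) (x : CoprodI (Fam H)) : W H (jj H q) (false, x) = (false, q * x) := by
  let S : Subgroup (CoprodI (Fam H)) :=
    { carrier := {q | ∀ x, W H (jj H q) (false, x) = (false, q * x)}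
      mul_mem' := by
        intro a b ha hb x
        rw [map_mul, map_mul, Equiv.Perm.mul_apply, hb, ha, mul_assoc]
      one_mem' := by
        intro x
        rw [map_one, map_one, one_mul]
        rfl
      inv_mem' := by
        intro a ha x
        have h1 := ha (a⁻¹ * x)
        rw [mul_inv_cancel_left] at h1
        rw [← h1, ← Equiv.Perm.mul_apply, ← map_mul, ← map_mul, inv_mul_cancel, map_one, map_one]
        rfl }
  have h1 : q ∈ S := by
    refine indQ (S := S) (fun n => ?_) (fun b h => ?_) q
    · intro x
      have h1 : ∀ y : CoprodI (Fam H), W H (gg H ^ 2) (false, y) = (false, zz H * y) := by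
        intro y
        rw [map_pow, W_gg]
        rfl
      have h3 : ∀ (n : ℤ) (y : CoprodI (Fam H)), W H ((gg H ^ 2) ^ n) (false, y) = (false, zz H ^ n * y) := by
        intro n
        induction n using Int.induction_on with
        | zero => intro y; rw [zpow_zero, zpow_zero, one_mul, map_one]; rfl
        | succ n ih => intro y; rw [zpow_add_one, zpow_add_one, map_mul, Equiv.Perm.mul_apply, h1, ih, mul_assoc]
        | pred n ih =>
          intro y
          have h4 : W H (gg H ^ 2)⁻¹ (false, y) = (false, (zz H)⁻¹ * y) := by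
            have h5 := h1 ((zz H)⁻¹ * y)
            rw [mul_inv_cancel_left] at h5
            rw [← h5, ← Equiv.Perm.mul_apply, ← map_mul, inv_mul_cancel, map_one]
            rfl
          rw [zpow_sub_one, zpow_sub_one, map_mul, Equiv.Perm.mul_apply, h4, ih, mul_assoc]
      rw [jj_none, h3]
      have h4 : zz H ^ (Multiplicative.toAdd n) = ofZ H n := by
        unfold zz
        rw [← map_zpow, ← ofAdd_zsmul, smul_eq_mul, mul_one, ofAdd_toAdd]
      rw [h4]
    · intro x
      cases b
      · rw [jj_false, W_inl]
        rfl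
      · have h3 : W H (gg H)⁻¹ (false, x) = (true, x) := by
          have h4 : W H (gg H) (true, x) = (false, x) := by
            rw [W_gg]
            rfl
          rw [← h4, ← Equiv.Perm.mul_apply, ← map_mul, inv_mul_cancel, map_one]
          rfl
        rw [jj_true, map_mul, map_mul, Equiv.Perm.mul_apply, Equiv.Perm.mul_apply, h3, W_inl, W_gg]
        rfl
  exact h1 x

/-- The projection of a subgroup of index at most two to the free product of the family. -/
def tht {N : Type} [Group N] (ρ : N →* Coprod H (Multiplicative ℤ)) :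
    ((chi H).comp ρ).ker →* CoprodI (Fam H) where
  toFun n := (W H (ρ n) (false, 1)).2
  map_one' := by
    show (W H (ρ 1) (false, 1)).2 = 1
    rw [map_one, map_one]
    rfl
  map_mul' a b := by
    show (W H (ρ (a * b)) (false, 1)).2 = (W H (ρ a) (false, 1)).2 * (W H (ρ b) (false, 1)).2
    have h1 : W H (ρ b) (false, 1) = rt (W H (ρ b) (false, 1)).2 (false, 1) := by
      apply Prod.ext
      · rw [W_fst]
        have h2 : chi H (ρ b) = 1 := b.2
        rw [h2]
        rfl
      · exact (one_mul _).symm
    rw [map_mul, map_mul, Equiv.Perm.mul_apply]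
    conv_lhs => rw [h1]
    rw [← Equiv.Perm.mul_apply, W_rt]
    rfl

end StarF

open StarF

/-- **The theorem for one subgroup**, with the hypothesis on the group rings of the factors. -/
theorem star_core {K G : Type} [Field K] [Group G] (hG : ∀ N : Subgroup G, N.FiniteIndex → HasRel 1 N)
    (H : Subgroup G) (hK : ∀ i, NoZeroDivisors (MonoidAlgebra K (Fam H i))) (g : G)
    (hinj : Function.Injective (Coprod.lift H.subtype (zpowersHom G g)))
    (N : Subgroup G) (hN : N.FiniteIndex) (hHN : H ≤ N) (hgN : g ∈ N) (ρ : N →* G)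
    (hρ : ∀ x, ρ x ∈ H ⊔ Subgroup.zpowers g) (hρH : ∀ x : H, ρ ⟨x, hHN x.2⟩ = x) (hρg : ρ ⟨g, hgN⟩ = g) :
    Module.Projective (MonoidAlgebra K H) (augI K H) := by
  let l : Coprod H (Multiplicative ℤ) →* G := Coprod.lift H.subtype (zpowersHom G g)
  have hl : ∀ p, l p = Coprod.lift H.subtype (zpowersHom G g) p := fun _ => rfl
  have hrange : l.range = H ⊔ Subgroup.zpowers g := by
    show (Coprod.lift H.subtype (zpowersHom G g)).range = _
    rw [Coprod.range_lift, H.range_subtype]
    rfl
  let e : Coprod H (Multiplicative ℤ) ≃* l.range := MonoidHom.ofInjective hinj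
  let ρ' : N →* Coprod H (Multiplicative ℤ) :=
    e.symm.toMonoidHom.comp (ρ.codRestrict l.range fun x => by rw [hrange]; exact hρ x)
  have hρ' : ∀ x, l (ρ' x) = ρ x := by
    intro x
    have h1 : e (ρ' x) = ρ.codRestrict l.range (fun x => by rw [hrange]; exact hρ x) x := e.apply_symm_apply _
    exact congrArg Subtype.val h1
  have hlN : ∀ p, l p ∈ N := by
    intro p
    have h1 : l p ∈ l.range := ⟨p, rfl⟩
    rw [hrange] at h1
    exact (sup_le hHN (Subgroup.zpowers_le.mpr hgN)) h1
  let lN : Coprod H (Multiplicative ℤ) →* N := l.codRestrict N hlN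
  have hρl : ∀ p, ρ' (lN p) = p := by
    intro p
    apply hinj
    show l (ρ' (lN p)) = l p
    rw [hρ']
    have h1 : ρ.comp lN = l := by
      apply Coprod.hom_ext
      · ext x
        exact hρH x
      · apply MonoidHom.ext_mint
        show ρ (lN (Coprod.inr (Multiplicative.ofAdd 1))) = l (Coprod.inr (Multiplicative.ofAdd 1))
        have h2 : l (Coprod.inr (Multiplicative.ofAdd 1)) = g := by
          rw [hl, Coprod.lift_apply_inr]
          simp
        have h3 : lN (Coprod.inr (Multiplicative.ofAdd 1)) = ⟨g, hgN⟩ := Subtype.ext h2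
        rw [h3, h2, hρg]
    exact DFunLike.congr_fun h1 p
  let N2 : Subgroup N := ((chi H).comp ρ').ker
  have hN2 : N2.FiniteIndex := inferInstance
  let s : CoprodI (Fam H) →* N2 := (lN.comp (jj H)).codRestrict N2 (fun q => by
    show chi H (ρ' (lN (jj H q))) = 1
    rw [hρl, chi_jj])
  have hs : ∀ p, tht ρ' (s p) = p := by
    intro p
    show (W H (ρ' (lN (jj H p))) (false, 1)).2 = p
    rw [hρl, W_jj, mul_one]
  have hrel : HasRel 1 N2 := by
    have h1 : (N2.map N.subtype).FiniteIndex := by
      refine ⟨?_⟩
      rw [Subgroup.index_map_subtype]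
      exact mul_ne_zero hN2.index_ne_zero hN.index_ne_zero
    obtain ⟨y, R, a, b, ⟨e3⟩⟩ := hG _ h1
    exact ⟨y, R, a, b, ⟨(N2.equivMapOfInjective N.subtype N.subtype_injective).trans e3⟩⟩
  obtain ⟨k, ⟨X⟩⟩ := ret_of_hasRel hrel (tht ρ') s hs
  rcases core hK X (i := some false) (l := some true) (by simp) with h | h
  · exact h
  · exact h

theorem dom_fam {K H : Type} [Field K] [Group H] (hK : NoZeroDivisors (MonoidAlgebra K H)) (i : Option Bool) :
    NoZeroDivisors (MonoidAlgebra K (Fam H i)) := by
  match i with
  | none => exact inferInstanceAs (NoZeroDivisors (MonoidAlgebra K (Multiplicative ℤ)))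
  | some _ => exact hK

/-- **The theorem for one subgroup.**  All subgroups of finite index of `G` are one-relator groups, `H` and `g` generate
the free product `H * ℤ`, a retract of a subgroup `N` of finite index, `K[H]` has no zero divisors: the augmentation
ideal of `K[H]` is projective. -/
theorem star {K G : Type} [Field K] [Group G] (hG : ∀ N : Subgroup G, N.FiniteIndex → HasRel 1 N)
    (H : Subgroup G) (hK : NoZeroDivisors (MonoidAlgebra K H)) (g : G)
    (hinj : Function.Injective (Coprod.lift H.subtype (zpowersHom G g)))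
    (N : Subgroup G) (hN : N.FiniteIndex) (hHN : H ≤ N) (hgN : g ∈ N) (ρ : N →* G)
    (hρ : ∀ x, ρ x ∈ H ⊔ Subgroup.zpowers g) (hρH : ∀ x : H, ρ ⟨x, hHN x.2⟩ = x) (hρg : ρ ⟨g, hgN⟩ = g) :
    Module.Projective (MonoidAlgebra K H) (augI K H) :=
  star_core hG H (dom_fam hK) g hinj N hN hHN hgN ρ hρ hρH hρg

end Pool.Agent.MelR
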