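import Pool.Agent.MelD.Fox

/-!
# Retracts of one-relator groups: definitions

THEOREM R.  `N` one-relator, `P` a retract of `N`, `P` the free product of the `G i`, `K[P]` a domain: for `i ≠ l`
the augmentation ideal of `K[G i]` or of `K[G l]` is projective.

* `augI K A`: the augmentation ideal of `K[A]` as a left ideal.
* `inc`, `prj`, `res`: inclusion `K[G i] → K[P]`, projection `K[P] → K[G i]` (kills the other factors), restriction of
  the coefficients `K[P] → K[G i]` (linear only).
* `L g`: the reduced word of `g`; `len`, `fi`, `la`: its length, first and last index.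
* `ev Φ g = Φ (g⁻¹)`: a linear form on `K[P]` as a function on `P`; `CosFin i Φ`: its support is contained in finitely
  many cosets `G i * t`.
* `Ret`: a one-relator presentation `q` of `N`, and `P` as a retract of `N`; `f`, `fG i` the homomorphisms of the
  free group to the group rings of `P` and `G i`; `D`, `δ i` the Fox derivatives of `r`; `lf` a lift of an element
  of `N` to the free group; `W i j` the Fox derivatives of a lift of `s (of (pr i p_j))`, `p_j = ρ (q x_j)`.
* `Good i c`: `∑ j, δ i j • W i j = c • D`.
-/

set_option linter.unusedSectionVars false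

open Finset

namespace Pool.Agent.MelR

open Monoid (CoprodI)
open Pool.Agent.MelD (fox)

/-- The augmentation ideal of `K[A]`, as a left ideal. -/
noncomputable def augI (K A : Type) [Field K] [Group A] : Submodule (MonoidAlgebra K A) (MonoidAlgebra K A) :=
  Submodule.span (MonoidAlgebra K A) (Set.range fun g : A => MonoidAlgebra.single g (1 : K) - 1)

noncomputable section

variable {ι : Type} [DecidableEq ι] {G : ι → Type} [∀ i, Group (G i)]
variable {K : Type} [Field K]

/-- The projection of the free product to a factor. -/
def pr (i : ι) : CoprodI G →* G i := CoprodI.lift (Pi.mulSingle i (MonoidHom.id (G i)))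

theorem pr_of (i : ι) (x : G i) : pr i (CoprodI.of x) = x := CoprodI.of_leftInverse i x

theorem pr_of_ne {i l : ι} (h : l ≠ i) (x : G l) : pr i (CoprodI.of x) = 1 := by
  unfold pr
  rw [CoprodI.lift_of, Pi.mulSingle_eq_of_ne h]
  rfl

/-- The inclusion `K[G i] → K[P]`. -/
def inc (K : Type) [Field K] (i : ι) : MonoidAlgebra K (G i) →+* MonoidAlgebra K (CoprodI G) :=
  MonoidAlgebra.mapDomainRingHom K (CoprodI.of : G i →* CoprodI G)

/-- The projection `K[P] → K[G i]`. -/
def prj (K : Type) [Field K] (i : ι) : MonoidAlgebra K (CoprodI G) →+* MonoidAlgebra K (G i) :=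
  MonoidAlgebra.mapDomainRingHom K (pr i)

theorem inc_single (i : ι) (x : G i) (a : K) :
    inc K i (MonoidAlgebra.single x a) = MonoidAlgebra.single (CoprodI.of x) a := by
  unfold inc
  rw [MonoidAlgebra.mapDomainRingHom_apply, MonoidAlgebra.mapDomain_single]

theorem prj_single (i : ι) (p : CoprodI G) (a : K) :
    prj K i (MonoidAlgebra.single p a) = MonoidAlgebra.single (pr i p) a := by
  unfold prj
  rw [MonoidAlgebra.mapDomainRingHom_apply, MonoidAlgebra.mapDomain_single]

open Classical in
/-- The reduced word. -/
def L (g : CoprodI G) : List (Σ i, G i) := (CoprodI.Word.equiv g).toList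

/-- The length of the reduced word. -/
def len (g : CoprodI G) : ℕ := (L g).length

/-- The index of the first letter. -/
def fi (g : CoprodI G) : Option ι := (L g).head?.map Sigma.fst

/-- The index of the last letter. -/
def la (g : CoprodI G) : Option ι := (L g).getLast?.map Sigma.fst

/-- A linear form on `K[P]` as a function on `P`. -/
def ev (Φ : MonoidAlgebra K (CoprodI G) →ₗ[K] K) (g : CoprodI G) : K := Φ (MonoidAlgebra.single g⁻¹ 1)

/-- The support of `ev Φ` is contained in finitely many cosets of the factor `G i`. -/
def CosFin (i : ι) (Φ : MonoidAlgebra K (CoprodI G) →ₗ[K] K) : Prop :=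
  ∃ T : Finset (CoprodI G), ∀ g, ev Φ g ≠ 0 → ∃ t ∈ T, ∃ x : G i, g = CoprodI.of x * t

/-- A one-relator presentation of `N` and a free product as a retract of `N`. -/
structure Ret (N : Type) [Group N] (G : ι → Type) [∀ i, Group (G i)] (k : ℕ) where
  q : FreeGroup (Fin k) →* N
  hq : Function.Surjective q
  r : FreeGroup (Fin k)
  hr : q.ker = Subgroup.normalClosure {r}
  ρ : N →* CoprodI G
  s : CoprodI G →* N
  hs : ∀ p, ρ (s p) = p

namespace Ret

variable {N : Type} [Group N] {k : ℕ} (X : Ret N G k)

/-- The homomorphism of the free group to the group ring of the free product. -/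
def f (K : Type) [Field K] : FreeGroup (Fin k) →* MonoidAlgebra K (CoprodI G) :=
  (MonoidAlgebra.of K (CoprodI G)).comp (X.ρ.comp X.q)

/-- The homomorphism of the free group to the group ring of a factor. -/
def fG (K : Type) [Field K] (i : ι) : FreeGroup (Fin k) →* MonoidAlgebra K (G i) :=
  (MonoidAlgebra.of K (G i)).comp ((pr i).comp (X.ρ.comp X.q))

/-- The Fox derivatives of the relator in `K[P]`. -/
def D (K : Type) [Field K] (m : Fin k) : MonoidAlgebra K (CoprodI G) := fox (X.f K) m X.r

/-- The Fox derivatives of the relator in `K[G i]`. -/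
def δ (K : Type) [Field K] (i : ι) (m : Fin k) : MonoidAlgebra K (G i) := fox (X.fG K i) m X.r

/-- A lift of an element of `N` to the free group. -/
def lf (n : N) : FreeGroup (Fin k) := Function.surjInv X.hq n

theorem q_lf (n : N) : X.q (X.lf n) = n := Function.surjInv_eq X.hq n

/-- The Fox derivatives of the lift of the projection of the `j`-th generator to the factor `G i`. -/
def W (K : Type) [Field K] (i : ι) (j m : Fin k) : MonoidAlgebra K (CoprodI G) :=
  fox (X.f K) m (X.lf (X.s (CoprodI.of (pr i (X.ρ (X.q (FreeGroup.of j)))))))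

/-- `∑ j, δ i j • W i j = c • D`. -/
def Good (i : ι) (c : MonoidAlgebra K (CoprodI G)) : Prop :=
  ∀ m, ∑ j, inc K i (X.δ K i j) * X.W K i j m = c * X.D K m

end Ret

end

end Pool.Agent.MelR
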