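import Pool.Agent.MelS.Divi
import Pool.Agent.MelS.Heights

/-!
# Group algebras of RFRS groups have no zero divisors
-/

namespace Pool.Agent.MelR

open Pool.Agent.MelS

/-- The group algebra of a finitely generated RFRS group has no zero divisors. -/
theorem dom_of_rfrs {A : Type} [Group A] [Group.FG A] (h : IsRFRS A) (K : Type) [Field K] :
    NoZeroDivisors (MonoidAlgebra K A) := by
  obtain ⟨Λ, i1, i2, i3, ⟨𝒯⟩⟩ := exists_tower A h
  refine ⟨fun {x y} hxy => ?_⟩
  by_contra hcon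
  push Not at hcon
  have hinj : ∀ z : MonoidAlgebra K A, lam 𝒯 z = 0 → z = 0 := by
    intro z hz
    refine MonoidAlgebra.coeff_injective (Finsupp.ext fun g => ?_)
    have h1 : (lam 𝒯 z).1 g 1 = 0 := by rw [hz]; rfl
    have h2 : (lam 𝒯 z).1 g 1 = z.coeff g := by
      show z.coeff (g * 1⁻¹) = z.coeff g
      rw [inv_one, mul_one]
    rw [h2] at h1
    exact h1
  have hx : lam 𝒯 x ≠ 0 := fun h => hcon.1 (hinj x h)
  obtain ⟨S, -, -, hS⟩ := (InD.lam (𝒯 := 𝒯) x).inv hx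
  have h1 : lam 𝒯 x * lam 𝒯 y = 0 := by rw [← map_mul, hxy, map_zero]
  have h2 : lam 𝒯 y = 0 := by
    calc lam 𝒯 y = S * lam 𝒯 x * lam 𝒯 y := by rw [hS, one_mul]
      _ = 0 := by rw [mul_assoc, h1, mul_zero]
  exact hcon.2 (hinj y h2)

end Pool.Agent.MelR
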