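import Pool.Agent.MelR.Word

/-!
# The combinatorial lemma: formulas in the group ring

`pw Φ h` (`rho_h`): the element `∑ x, ev Φ (h * of x) x` of `K[G k]` (if the support is finite);
`alp a w` (`alpha_w`): the element `∑ y, a (of y * w) y` of `K[G k]`.
-/

set_option linter.unusedSectionVars false

open Finset

namespace Pool.Agent.MelR

open Monoid (CoprodI)
open MonoidAlgebra (single)

variable {ι : Type} [DecidableEq ι] {G : ι → Type} [∀ i, Group (G i)] {K : Type} [Field K]

/-- `Φ (a g⁻¹)` as a sum over the support of `a`. -/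
theorem app_mul_single (Φ : MonoidAlgebra K (CoprodI G) →ₗ[K] K) (a : MonoidAlgebra K (CoprodI G))
    (g : CoprodI G) :
    Φ (a * single g⁻¹ 1) = ∑ p ∈ a.coeff.support, a.coeff p * ev Φ (g * p⁻¹) := by
  induction a using MonoidAlgebra.induction_linear with
  | zero => simp
  | add x y hx hy =>
    rw [add_mul, map_add, hx, hy]
    classical
    have e : ∀ z : MonoidAlgebra K (CoprodI G), z.coeff.support ⊆ x.coeff.support ∪ y.coeff.support →
        ∑ p ∈ z.coeff.support, z.coeff p * ev Φ (g * p⁻¹) =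
          ∑ p ∈ x.coeff.support ∪ y.coeff.support, z.coeff p * ev Φ (g * p⁻¹) := by
      intro z hz
      refine Finset.sum_subset hz ?_
      intro p _ hp
      rw [Finsupp.notMem_support_iff.1 hp, zero_mul]
    rw [e x Finset.subset_union_left, e y Finset.subset_union_right, e (x + y) ?_, ← Finset.sum_add_distrib]
    · refine Finset.sum_congr rfl fun p _ => ?_
      rw [MonoidAlgebra.coeff_add, Finsupp.add_apply, add_mul]
    · rw [MonoidAlgebra.coeff_add]
      exact Finsupp.support_add
  | single p c =>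
    rw [MonoidAlgebra.single_mul_single, mul_one, MonoidAlgebra.coeff_single]
    by_cases hc : c = 0
    · subst hc
      simp
    rw [Finsupp.support_single_ne_zero _ hc, Finset.sum_singleton, Finsupp.single_eq_same]
    unfold ev
    rw [mul_inv_rev, inv_inv]
    have : (single (p * g⁻¹) c : MonoidAlgebra K (CoprodI G)) = c • single (p * g⁻¹) 1 := by
      rw [MonoidAlgebra.smul_single', mul_one]
    rw [this, map_smul, smul_eq_mul]

/-- If `Φ (a g⁻¹) ≠ 0`, some `p` in the support of `a` has `ev Φ (g p⁻¹) ≠ 0`. -/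
theorem exists_of_app_ne {Φ : MonoidAlgebra K (CoprodI G) →ₗ[K] K} {a : MonoidAlgebra K (CoprodI G)}
    {g : CoprodI G} (h : Φ (a * single g⁻¹ 1) ≠ 0) : ∃ p, a.coeff p ≠ 0 ∧ ev Φ (g * p⁻¹) ≠ 0 := by
  rw [app_mul_single] at h
  obtain ⟨p, _, hp⟩ := Finset.exists_ne_zero_of_sum_ne_zero h
  exact ⟨p, left_ne_zero_of_mul hp, right_ne_zero_of_mul hp⟩

theorem inc_coeff_of (k : ι) (α : MonoidAlgebra K (G k)) {p : CoprodI G} (h : (inc K k α).coeff p ≠ 0) :
    ∃ y : G k, p = CoprodI.of y := by
  unfold inc at h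
  rw [MonoidAlgebra.mapDomainRingHom_apply] at h
  by_contra hc
  push Not at hc
  apply h
  rw [MonoidAlgebra.coeff_mapDomain]
  apply Finsupp.mapDomain_of_notMem_range
  rintro ⟨y, hy⟩
  exact hc y hy.symm

/-- The element `∑ y, a (of y * w) y` of `K[G k]`. -/
noncomputable def alp (k : ι) (a : MonoidAlgebra K (CoprodI G)) (w : CoprodI G) : MonoidAlgebra K (G k) :=
  MonoidAlgebra.ofCoeff (a.coeff.comapDomain (fun y : G k => CoprodI.of y * w) (by
    intro x _ y _ h
    exact CoprodI.of_injective k (mul_right_cancel h)))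

theorem alp_coeff (k : ι) (a : MonoidAlgebra K (CoprodI G)) (w : CoprodI G) (y : G k) :
    (alp k a w).coeff y = a.coeff (CoprodI.of y * w) := rfl

/-- The coefficients of `inc β * a` at the coset `G k * w`. -/
theorem inc_mul_coeff (k : ι) (β : MonoidAlgebra K (G k)) (a : MonoidAlgebra K (CoprodI G)) (w : CoprodI G)
    (x : G k) : (inc K k β * a).coeff (CoprodI.of x * w) = (β * alp k a w).coeff x := by
  induction β using MonoidAlgebra.induction_linear with
  | zero => simp
  | add b c hb hc =>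
    rw [map_add, add_mul, add_mul, MonoidAlgebra.coeff_add, MonoidAlgebra.coeff_add, Finsupp.add_apply,
      Finsupp.add_apply, hb, hc]
  | single y c =>
    rw [inc_single, MonoidAlgebra.coeff_single_mul_apply, MonoidAlgebra.coeff_single_mul_apply, alp_coeff]
    have e : (CoprodI.of (y⁻¹ * x) : CoprodI G) = (CoprodI.of y)⁻¹ * CoprodI.of x := by
      rw [map_mul, map_inv]
    rw [e, mul_assoc]

open Classical in
/-- The element `∑ x, ev Φ (h * of x) x` of `K[G k]` (if the support is finite, otherwise `0`). -/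
noncomputable def pw (k : ι) (Φ : MonoidAlgebra K (CoprodI G) →ₗ[K] K) (h : CoprodI G) : MonoidAlgebra K (G k) :=
  if hf : (Function.support fun x : G k => ev Φ (h * CoprodI.of x)).Finite then
    MonoidAlgebra.ofCoeff (Finsupp.ofSupportFinite (fun x : G k => ev Φ (h * CoprodI.of x)) hf)
  else 0

theorem pw_coeff {k : ι} {Φ : MonoidAlgebra K (CoprodI G) →ₗ[K] K} {h : CoprodI G}
    (hf : (Function.support fun x : G k => ev Φ (h * CoprodI.of x)).Finite) (x : G k) :
    (pw k Φ h).coeff x = ev Φ (h * CoprodI.of x) := by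
  unfold pw
  rw [dif_pos hf]
  rfl

/-- `Φ (inc α * (h * of x)⁻¹)` is a coefficient of `rho_h * α`. -/
theorem app_inc {k : ι} {Φ : MonoidAlgebra K (CoprodI G) →ₗ[K] K} {h : CoprodI G}
    (hf : (Function.support fun x : G k => ev Φ (h * CoprodI.of x)).Finite) (α : MonoidAlgebra K (G k)) (x : G k) :
    Φ (inc K k α * single (h * CoprodI.of x)⁻¹ 1) = (pw k Φ h * α).coeff x := by
  induction α using MonoidAlgebra.induction_linear with
  | zero => simp
  | add b c hb hc =>
    rw [map_add, add_mul, map_add, mul_add, MonoidAlgebra.coeff_add, Finsupp.add_apply, hb, hc]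
  | single y c =>
    rw [inc_single, MonoidAlgebra.coeff_mul_single_apply, pw_coeff hf, MonoidAlgebra.single_mul_single, mul_one]
    have : (single (CoprodI.of y * (h * CoprodI.of x)⁻¹) c : MonoidAlgebra K (CoprodI G)) =
        c • single (CoprodI.of y * (h * CoprodI.of x)⁻¹) 1 := by
      rw [MonoidAlgebra.smul_single', mul_one]
    rw [this, map_smul, smul_eq_mul, mul_comm c]
    unfold ev
    rw [map_mul, map_inv]
    congr 3
    group

/-- Linear forms are determined by `ev`. -/
theorem eq_zero_of_ev {Φ : MonoidAlgebra K (CoprodI G) →ₗ[K] K} (h : ∀ g, ev Φ g = 0) : Φ = 0 := by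
  refine LinearMap.ext fun a => ?_
  induction a using MonoidAlgebra.induction_linear with
  | zero => simp
  | add x y hx hy => rw [map_add, hx, hy, map_add]
  | single p c =>
    have e : (single p c : MonoidAlgebra K (CoprodI G)) = c • single p 1 := by
      rw [MonoidAlgebra.smul_single', mul_one]
    have h1 := h p⁻¹
    unfold ev at h1
    rw [inv_inv] at h1
    rw [e, map_smul, h1, smul_zero, LinearMap.zero_apply]

theorem coeff_mul_ne {a b : MonoidAlgebra K (CoprodI G)} {q : CoprodI G} (h : (a * b).coeff q ≠ 0) :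
    ∃ p r, a.coeff p ≠ 0 ∧ b.coeff r ≠ 0 ∧ q = p * r := by
  rw [MonoidAlgebra.coeff_mul_apply_left] at h
  obtain ⟨p, hp, hne⟩ := Finset.exists_ne_zero_of_sum_ne_zero h
  exact ⟨p, p⁻¹ * q, Finsupp.mem_support_iff.1 hp, right_ne_zero_of_mul hne, by group⟩

/-- The translate of a linear form. -/
noncomputable def tr (Φ : MonoidAlgebra K (CoprodI G) →ₗ[K] K) (u : MonoidAlgebra K (CoprodI G)) :
    MonoidAlgebra K (CoprodI G) →ₗ[K] K := Φ.comp (LinearMap.mulLeft K u)

theorem tr_apply (Φ : MonoidAlgebra K (CoprodI G) →ₗ[K] K) (u x : MonoidAlgebra K (CoprodI G)) :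
    tr Φ u x = Φ (u * x) := rfl

theorem ev_tr (Φ : MonoidAlgebra K (CoprodI G) →ₗ[K] K) (u : MonoidAlgebra K (CoprodI G)) (g : CoprodI G) :
    ev (tr Φ u) g = Φ (u * single g⁻¹ 1) := rfl

theorem cosFin_tr {i : ι} {Φ : MonoidAlgebra K (CoprodI G) →ₗ[K] K} (c : CosFin i Φ)
    (u : MonoidAlgebra K (CoprodI G)) : CosFin i (tr Φ u) := by
  classical
  obtain ⟨T, hT⟩ := c
  refine ⟨(T ×ˢ u.coeff.support).image fun q => q.1 * q.2, fun g hg => ?_⟩
  rw [ev_tr] at hg
  obtain ⟨p, hp, hg'⟩ := exists_of_app_ne hg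
  obtain ⟨t, ht, x, hx⟩ := hT _ hg'
  refine ⟨t * p, ?_, x, ?_⟩
  · rw [Finset.mem_image]
    exact ⟨(t, p), Finset.mem_product.2 ⟨ht, Finsupp.mem_support_iff.2 hp⟩, rfl⟩
  · rw [← mul_assoc, ← hx]
    group

end Pool.Agent.MelR
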