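import Pool.Agent.MelR.LemA

/-!
# The combinatorial lemma: words
-/

set_option linter.unusedSectionVars false

open Finset

namespace Pool.Agent.MelR

open Monoid (CoprodI)
open MonoidAlgebra (single)

variable {ι : Type} [DecidableEq ι] {G : ι → Type} [∀ i, Group (G i)] {K : Type} [Field K]

/-- The coset `G i * g` has a representative of length at most `d`. -/
def Lv (i : ι) (d : ℕ) (g : CoprodI G) : Prop := ∃ (α : G i) (w : CoprodI G), g = CoprodI.of α * w ∧ len w ≤ d

theorem normal (i : ι) (g : CoprodI G) : ∃ (α : G i) (w : CoprodI G), g = CoprodI.of α * w ∧ fi w ≠ some i := by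
  by_cases h : fi g = some i
  · obtain ⟨x, g', _, e, _, h'⟩ := fi_some h
    exact ⟨x, g', e, h'⟩
  · exact ⟨1, g, by rw [map_one, one_mul], h⟩

theorem Lv.normal {i : ι} {d : ℕ} {g : CoprodI G} (h : Lv i d g) :
    ∃ (α : G i) (w : CoprodI G), g = CoprodI.of α * w ∧ fi w ≠ some i ∧ len w ≤ d := by
  obtain ⟨α, w, rfl, hw⟩ := h
  by_cases h : fi w = some i
  · obtain ⟨x, g', _, e, e', h'⟩ := fi_some h
    refine ⟨α * x, g', ?_, h', by omega⟩
    rw [map_mul, mul_assoc, ← e]
  · exact ⟨α, w, rfl, h, hw⟩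

theorem Lv.mono {i : ι} {d e : ℕ} {g : CoprodI G} (h : Lv i d g) (hde : d ≤ e) : Lv i e g := by
  obtain ⟨α, w, e1, e2⟩ := h
  exact ⟨α, w, e1, e2.trans hde⟩

/-- If `fi w ≠ some i` and `w = of x * w'`, then `len w ≤ len w'`. -/
theorem len_le_of_eq {i : ι} {x : G i} {w w' : CoprodI G} (hw : fi w ≠ some i) (e : w = CoprodI.of x * w') :
    len w ≤ len w' := by
  by_cases hx : x = 1
  · subst hx
    rw [map_one, one_mul] at e
    rw [e]
  by_contra hc
  push Not at hc
  have h1 : w' = CoprodI.of x⁻¹ * w := by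
    rw [e, map_inv]
    group
  have h2 : len w' = len w + 1 := by
    rw [h1]
    exact len_of_mul (inv_ne_one.2 hx) hw
  omega

/-- Two elements with first index `≠ i` in the same coset of `G i` are equal. -/
theorem eq_of_coset {i : ι} {x : G i} {w w' : CoprodI G} (hw : fi w ≠ some i) (hw' : fi w' ≠ some i)
    (e : w = CoprodI.of x * w') : x = 1 := by
  by_contra hx
  have h1 : len w = len w' + 1 := by
    rw [e]
    exact len_of_mul hx hw'
  have h2 := len_le_of_eq hw e
  omega

/-- A top term: `Φ (a (g p)⁻¹) = a_p ev Φ g`. -/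
theorem key1 {i : ι} {d l : ℕ} {Φ : MonoidAlgebra K (CoprodI G) →ₗ[K] K} {a : MonoidAlgebra K (CoprodI G)}
    (hΦ : ∀ g, ev Φ g ≠ 0 → Lv i d g) (ha : ∀ p, a.coeff p ≠ 0 → len p ≤ l) {α : G i} {w p : CoprodI G}
    (hw : len w = d) (hp : len p = l) (hwp : w = 1 ∨ p = 1 ∨ la w ≠ fi p) (hfi : fi (w * p) ≠ some i) :
    Φ (a * single (CoprodI.of α * w * p)⁻¹ 1) = a.coeff p * ev Φ (CoprodI.of α * w) := by
  have e0 : CoprodI.of α * w * p * p⁻¹ = CoprodI.of α * w := by group
  rw [app_mul_single, Finset.sum_eq_single p]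
  · rw [e0]
  · intro p' hp' hne
    by_contra hc
    have h1 : a.coeff p' ≠ 0 := left_ne_zero_of_mul hc
    have h2 := hΦ _ (right_ne_zero_of_mul hc)
    obtain ⟨β, w', e, hw'⟩ := h2
    have hl : len (w * p) = d + l := by rw [len_mul hwp, hw, hp]
    have e1 : w' * p' = CoprodI.of (β⁻¹ * α) * (w * p) := by
      rw [map_mul, map_inv]
      have : CoprodI.of α * w * p = CoprodI.of β * w' * p' := by
        rw [← e]
        group
      rw [show (CoprodI.of β)⁻¹ * CoprodI.of α * (w * p) = (CoprodI.of β)⁻¹ * (CoprodI.of α * w * p) by group, this]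
      group
    have h3 := len_mul_le w' p'
    have h4 := ha _ h1
    by_cases hβ : β⁻¹ * α = 1
    · rw [hβ, map_one, one_mul] at e1
      rw [e1, hl] at h3
      have h5 : len (w' * p') = len w' + len p' := by
        rw [e1, hl]
        omega
      have h6 := (unique_fac e1 h5 (by rw [e1]; exact len_mul hwp) (by omega)).2
      exact hne h6
    · rw [e1, len_of_mul hβ hfi, hl] at h3
      omega
  · intro hp0
    rw [Finsupp.notMem_support_iff.1 hp0, zero_mul]

/-- The word part of the second claim. -/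
theorem word3 {i k : ι} (hik : k ≠ i) {δ m : ℕ} {α β : G i} {v w w' w'' : CoprodI G} {x y z : G k}
    (hv : len v = δ) (hvi : fi v ≠ some i) (hvk : la v ≠ some k) (hw : len w = m) (hwk : fi w ≠ some k)
    (hx : x ≠ 1) (hw' : len w' ≤ δ) (hw'' : len w'' ≤ m)
    (e : CoprodI.of β * w' * CoprodI.of z * (CoprodI.of y * w'') =
      CoprodI.of α * v * CoprodI.of x * w) : w'' = w := by
  have e1 : w' * CoprodI.of (z * y) * w'' = CoprodI.of (β⁻¹ * α) * (v * CoprodI.of x * w) := by
    rw [map_mul, map_mul, map_inv]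
    rw [show (CoprodI.of β)⁻¹ * CoprodI.of α * (v * CoprodI.of x * w) =
      (CoprodI.of β)⁻¹ * (CoprodI.of α * v * CoprodI.of x * w) by group, ← e]
    group
  have hvx : len (v * CoprodI.of x) = δ + 1 := by rw [len_mul_of hx hvk, hv]
  have hx1 : (CoprodI.of x : CoprodI G) ≠ 1 := by
    intro h
    have := len_of (G := G) hx
    rw [h, len_one] at this
    omega
  have hvr : v = 1 ∨ (CoprodI.of x : CoprodI G) = 1 ∨ la v ≠ fi (CoprodI.of x) := by
    right; right
    rw [fi_of hx]
    exact hvk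
  have hla : la (v * CoprodI.of x) = some k := by rw [la_mul hvr hx1, la_of hx]
  have hr : v * CoprodI.of x = 1 ∨ w = 1 ∨ la (v * CoprodI.of x) ≠ fi w := by
    right; right
    rw [hla]
    exact hwk.symm
  have hlen : len (v * CoprodI.of x * w) = δ + 1 + m := by rw [len_mul hr, hvx, hw]
  have hvx1 : v * CoprodI.of x ≠ 1 := by
    intro h
    rw [h, len_one] at hvx
    omega
  have hfi : fi (v * CoprodI.of x * w) ≠ some i := by
    rw [fi_mul hr hvx1]
    by_cases hv1 : v = 1
    · rw [hv1, one_mul, fi_of hx]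
      intro h
      exact hik (Option.some.inj h)
    · rw [fi_mul hvr hv1]
      exact hvi
  have h1 := len_mul_le (w' * CoprodI.of (z * y)) w''
  have h2 := len_mul_le w' (CoprodI.of (z * y))
  have h3 := len_of_le (G := G) (z * y)
  by_cases hβ : β⁻¹ * α = 1
  · rw [hβ, map_one, one_mul] at e1
    rw [e1, hlen] at h1
    have h4 : len (w' * CoprodI.of (z * y) * w'') = len (w' * CoprodI.of (z * y)) + len w'' := by
      rw [e1, hlen]
      omega
    exact (unique_fac e1 h4 (by rw [e1]; exact len_mul hr) (by omega)).2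
  · rw [e1, len_of_mul hβ hfi, hlen] at h1
    omega

/-- Coefficients of `Φ a` in length `δ + 1 + m`. -/
theorem key3 {i k : ι} (hik : k ≠ i) {δ m : ℕ} {Φ : MonoidAlgebra K (CoprodI G) →ₗ[K] K}
    {a : MonoidAlgebra K (CoprodI G)}
    (hΦ : ∀ g, ev Φ g ≠ 0 → ∃ (β : G i) (w : CoprodI G) (z : G k), g = CoprodI.of β * w * CoprodI.of z ∧ len w ≤ δ)
    (ha : ∀ p, a.coeff p ≠ 0 → ∃ (y : G k) (w : CoprodI G), p = CoprodI.of y * w ∧ len w ≤ m)
    {α : G i} {v w : CoprodI G} {x : G k}
    (hv : len v = δ) (hvi : fi v ≠ some i) (hvk : la v ≠ some k) (hw : len w = m) (hwk : fi w ≠ some k)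
    (hx : x ≠ 1) (hf : (Function.support fun x : G k => ev Φ (CoprodI.of α * v * CoprodI.of x)).Finite) :
    Φ (a * single (CoprodI.of α * v * CoprodI.of x * w)⁻¹ 1) =
      (pw k Φ (CoprodI.of α * v) * alp k a w).coeff x := by
  classical
  rw [MonoidAlgebra.coeff_mul_apply_right, app_mul_single, Finsupp.sum]
  have hinj : Function.Injective fun y : G k => (CoprodI.of y * w : CoprodI G) := fun y y' h =>
    CoprodI.of_injective k (mul_right_cancel h)
  have e1 : ∑ y ∈ (alp k a w).coeff.support,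
      (pw k Φ (CoprodI.of α * v)).coeff (x * y⁻¹) * (alp k a w).coeff y =
      ∑ p ∈ ((alp k a w).coeff.support).image (fun y : G k => (CoprodI.of y * w : CoprodI G)),
        a.coeff p * ev Φ (CoprodI.of α * v * CoprodI.of x * w * p⁻¹) := by
    rw [Finset.sum_image fun y _ y' _ h => hinj h]
    refine Finset.sum_congr rfl fun y _ => ?_
    rw [pw_coeff hf, alp_coeff, mul_comm]
    have e : CoprodI.of α * v * CoprodI.of (x * y⁻¹) =
        CoprodI.of α * v * CoprodI.of x * w * (CoprodI.of y * w)⁻¹ := by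
      rw [map_mul (CoprodI.of : G k →* CoprodI G), map_inv (CoprodI.of : G k →* CoprodI G)]
      group
    rw [e]
  rw [e1]
  symm
  refine Finset.sum_subset ?_ ?_
  · intro p hp
    obtain ⟨y, hy, rfl⟩ := Finset.mem_image.1 hp
    rw [Finsupp.mem_support_iff, alp_coeff] at hy
    exact Finsupp.mem_support_iff.2 hy
  · intro p hp hp'
    by_contra hc
    obtain ⟨y, w'', e, hw''⟩ := ha p (left_ne_zero_of_mul hc)
    obtain ⟨β, w', z, e', hw'⟩ := hΦ _ (right_ne_zero_of_mul hc)
    apply hp'
    have h : w'' = w := by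
      refine word3 (α := α) (β := β) (w' := w') (y := y) (z := z) hik hv hvi hvk hw hwk hx hw' hw'' ?_
      rw [← e', ← e]
      group
    subst h
    rw [Finset.mem_image]
    refine ⟨y, ?_, e.symm⟩
    rw [Finsupp.mem_support_iff, alp_coeff, ← e]
    exact left_ne_zero_of_mul hc

/-- Finiteness of the support of `rho_h`. -/
theorem finite_rho {i k : ι} (hik : k ≠ i) {Φ : MonoidAlgebra K (CoprodI G) →ₗ[K] K} (c : CosFin i Φ) {α : G i}
    {v : CoprodI G} (hvi : fi v ≠ some i) (hvk : la v ≠ some k) :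
    (Function.support fun x : G k => ev Φ (CoprodI.of α * v * CoprodI.of x)).Finite := by
  classical
  obtain ⟨T, hT⟩ := c
  have hfi : ∀ x : G k, fi (v * CoprodI.of x) ≠ some i := by
    intro x
    by_cases hx : x = 1
    · rw [hx, map_one, mul_one]
      exact hvi
    have hvr : v = 1 ∨ (CoprodI.of x : CoprodI G) = 1 ∨ la v ≠ fi (CoprodI.of x) := by
      right; right
      rw [fi_of hx]
      exact hvk
    by_cases hv1 : v = 1
    · rw [hv1, one_mul, fi_of hx]
      intro h
      exact hik (Option.some.inj h)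
    · rw [fi_mul hvr hv1]
      exact hvi
  have hch : ∀ x : G k, ev Φ (CoprodI.of α * v * CoprodI.of x) ≠ 0 →
      ∃ t ∈ T, ∃ y : G i, CoprodI.of α * v * CoprodI.of x = CoprodI.of y * t := fun x hx => hT _ hx
  choose! f hf1 hf2 using hch
  refine Set.Finite.of_finite_image (f := f) ?_ ?_
  · refine (T.finite_toSet).subset ?_
    rintro _ ⟨x, hx, rfl⟩
    exact hf1 x hx
  · intro x hx x' hx' he
    obtain ⟨y, hy⟩ := hf2 x hx
    obtain ⟨y', hy'⟩ := hf2 x' hx'
    rw [← he] at hy'
    have e : v * CoprodI.of x = CoprodI.of (α⁻¹ * y * y'⁻¹ * α) * (v * CoprodI.of x') := by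
      rw [map_mul, map_mul, map_mul, map_inv, map_inv]
      have e2 : v * CoprodI.of x' = (CoprodI.of α)⁻¹ * (CoprodI.of y' * f x) := by
        rw [← hy']
        group
      have e1 : v * CoprodI.of x = (CoprodI.of α)⁻¹ * (CoprodI.of y * f x) := by
        rw [← hy]
        group
      rw [e1, e2]
      group
    have h1 := eq_of_coset (hfi x) (hfi x') e
    rw [h1, map_one, one_mul] at e
    exact CoprodI.of_injective k (mul_left_cancel e)

end Pool.Agent.MelR
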