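import Pool.Agent.MelR.Star

/-!
# The frame form: a class of subgroups with the properties of the quasiconvex subgroups

`QC` a set of subgroups of `G` such that (a) for `H` in `QC`, not of finite index, there is `g` such that `H` and `g`
generate the free product `H * ℤ`, which is again in `QC` (for quasiconvex subgroups of torsion-free hyperbolic groups:
Arzhantseva), (b) each member of `QC` is a retract of a subgroup of finite index (for quasiconvex subgroups of
virtually special hyperbolic groups: Haglund and Wise).  All subgroups of finite index of `G` are one-relator groups: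
then the augmentation ideals of the members of `QC` which are not of finite index are projective.
-/

open Monoid

namespace Pool.Agent.MelR

open Pool.Agent.MelG (HasRel)

theorem qc {K G : Type} [Field K] [Group G] (hG : ∀ N : Subgroup G, N.FiniteIndex → HasRel 1 N)
    (QC : Set (Subgroup G))
    (ha : ∀ H ∈ QC, ¬ H.FiniteIndex → ∃ g : G, Function.Injective (Coprod.lift H.subtype (zpowersHom G g)) ∧
      H ⊔ Subgroup.zpowers g ∈ QC)
    (hb : ∀ P ∈ QC, ∃ (N : Subgroup G) (hPN : P ≤ N) (ρ : N →* G), N.FiniteIndex ∧ (∀ x, ρ x ∈ P) ∧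
      ∀ x : P, ρ ⟨x, hPN x.2⟩ = x)
    (H : Subgroup G) (hH : H ∈ QC) (hi : ¬ H.FiniteIndex) (hK : NoZeroDivisors (MonoidAlgebra K H)) :
    Module.Projective (MonoidAlgebra K H) (augI K H) := by
  obtain ⟨g, hinj, hP⟩ := ha H hH hi
  obtain ⟨N, hPN, ρ, hN, hρ, hρP⟩ := hb _ hP
  have hHP : H ≤ H ⊔ Subgroup.zpowers g := le_sup_left
  have hgP : g ∈ H ⊔ Subgroup.zpowers g :=
    (le_sup_right : Subgroup.zpowers g ≤ _) (Subgroup.mem_zpowers g)
  exact star hG H hK g hinj N hN (hHP.trans hPN) (hPN hgP) ρ hρ
    (fun x => hρP ⟨x, hHP x.2⟩) (hρP ⟨g, hgP⟩)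

end Pool.Agent.MelR
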