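import Pool.Agent.MelD.All
import Pool.Agent.MelD.CorkRI
import Pool.Agent.MelS.Push

/-!
# The row of Fox derivatives is regular over residually finite infinite quotients

`G = OR r` one-relator such that all normal subgroups of finite index have presentations with at most `m` relators,
`ψ : F → P` onto an infinite residually finite group with `ψ r = 1`.  If `z ∈ K[P]` satisfies `z * D j = 0` for all `j`
(`D j` the Fox derivatives of `r` in `K[P]`), then `z = 0`: otherwise take `m + 1` translates of `z` with disjoint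
supports, and a finite quotient `Q` of `P` in which the union of the supports is embedded: `m + 1` linearly independent
linear forms on the quotient of `K[Q]` by the right ideal of the `D j`, whose dimension is at most `m`.
-/

open Finset

namespace Pool.Agent.MelR

open Pool.Agent.MelD (fox OR cork RI cork_le_m_all rank_RI_eq toFn map_fox)
open Pool.Agent.MelG (HasRel)
open Pool.Agent.MelS (mapQ mapQ_single)

/-- Translates with disjoint supports. -/
theorem exists_translates {P : Type} [Group P] [Infinite P] (S : Finset P) :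
    ∃ t : ℕ → P, ∀ a b, a ≠ b → ∀ s ∈ S, ∀ s' ∈ S, t a * s ≠ t b * s' := by
  classical
  obtain ⟨f, -, hf⟩ := exists_seq_of_forall_finset_exists (fun _ : P => True)
    (fun x y => ∀ s ∈ S, ∀ s' ∈ S, x * s ≠ y * s') (by
      intro F _
      obtain ⟨y, hy⟩ := Infinite.exists_notMem_finset
        ((F ×ˢ (S ×ˢ S)).image fun p : P × P × P => p.1 * p.2.1 * p.2.2⁻¹)
      refine ⟨y, trivial, fun x hx s hs s' hs' he => hy ?_⟩
      rw [mem_image]
      refine ⟨(x, s, s'), by simp [hx, hs, hs'], ?_⟩
      show x * s * s'⁻¹ = y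
      rw [he, mul_inv_cancel_right])
  refine ⟨f, fun a b hab s hs s' hs' he => ?_⟩
  rcases lt_or_gt_of_ne hab with h | h
  · exact hf a b h s hs s' hs' he
  · exact hf b a h s' hs' s hs he.symm

/-- A finite set is embedded in a finite quotient. -/
theorem exists_quot {P : Type} [Group P] (hP : ∀ g : P, g ≠ 1 → ∃ M : Subgroup P, M.FiniteIndex ∧ g ∉ M)
    (U : Finset P) : ∃ M : Subgroup P, M.Normal ∧ M.FiniteIndex ∧
      ∀ x ∈ U, ∀ y ∈ U, x⁻¹ * y ∈ M → x = y := by
  classical
  have h1 : ∀ g : P, ∃ M : Subgroup P, M.Normal ∧ M.FiniteIndex ∧ (g ∈ M → g = 1) := by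
    intro g
    by_cases hg : g = 1
    · exact ⟨⊤, inferInstance, inferInstance, fun _ => hg⟩
    · obtain ⟨M, hM, hgM⟩ := hP g hg
      exact ⟨M.normalCore, inferInstance, inferInstance, fun h => absurd (M.normalCore_le h) hgM⟩
  choose N hN hNf hN1 using h1
  refine ⟨⨅ p : {p : P × P // p ∈ U ×ˢ U}, N (p.1.1⁻¹ * p.1.2),
    Subgroup.normal_iInf_normal fun _ => hN _, Subgroup.finiteIndex_iInf fun _ => hNf _, ?_⟩
  intro x hx y hy h
  have h2 := (Subgroup.mem_iInf.1 h) ⟨(x, y), by simp [hx, hy]⟩
  have h3 := hN1 _ h2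
  exact inv_mul_eq_one.1 h3

/-- The coefficient of the image in a quotient. -/
theorem coeff_mapQ {P : Type} [Group P] {K : Type} [Field K] (M : Subgroup P) [M.Normal]
    (z : MonoidAlgebra K P) (x : P) (h : ∀ s ∈ z.coeff.support, s⁻¹ * x ∈ M → s = x) :
    (mapQ K M z).coeff (QuotientGroup.mk x) = z.coeff x := by
  classical
  have h1 : z = ∑ s ∈ z.coeff.support, MonoidAlgebra.single s (z.coeff s) := by
    refine MonoidAlgebra.coeff_injective ?_
    rw [MonoidAlgebra.coeff_sum]
    conv_lhs => rw [← Finsupp.sum_single z.coeff]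
    rfl
  conv_lhs => rw [h1]
  rw [map_sum, MonoidAlgebra.coeff_sum, Finsupp.finsetSum_apply]
  simp only [mapQ_single, MonoidAlgebra.coeff_single, Finsupp.single_apply]
  have h2 : ∀ s ∈ z.coeff.support, (if (QuotientGroup.mk s : P ⧸ M) = QuotientGroup.mk x then z.coeff s else 0) =
      if s = x then z.coeff s else 0 := by
    intro s hs
    by_cases he : s = x
    · subst he
      simp
    · rw [if_neg he, if_neg]
      intro hcon
      exact he (h s hs (QuotientGroup.eq.1 hcon))
  rw [sum_congr rfl h2, sum_ite_eq']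
  split_ifs with h3
  · rfl
  · rw [Finsupp.mem_support_iff, not_not] at h3
    exact h3.symm

theorem reg {k : ℕ} (hk : 2 ≤ k) (r : FreeGroup (Fin k)) (hr1 : r ≠ 1) (m : ℕ)
    (H : ∀ N : Subgroup (OR r), N.Normal → N.FiniteIndex → HasRel m N)
    {P : Type} [Group P] [Infinite P] (hP : ∀ g : P, g ≠ 1 → ∃ M : Subgroup P, M.FiniteIndex ∧ g ∉ M)
    (ψ : FreeGroup (Fin k) →* P) (hψ : Function.Surjective ψ) (hψr : ψ r = 1) (K : Type) [Field K]
    (z : MonoidAlgebra K P) (hz : ∀ j, z * fox ((MonoidAlgebra.of K P).comp ψ) j r = 0) : z = 0 := by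
  classical
  by_contra hne
  obtain ⟨s₀, hs₀⟩ : z.coeff.support.Nonempty := by
    rw [Finsupp.support_nonempty_iff]
    exact fun h => hne (MonoidAlgebra.coeff_injective h)
  set S := z.coeff.support with hS
  obtain ⟨t, ht⟩ := exists_translates S
  let U : Finset P := (univ ×ˢ S : Finset (Fin (m + 1) × P)).image fun p => t p.1 * p.2
  obtain ⟨M, hM, hMf, hMU⟩ := exists_quot hP U
  have hU : ∀ (a : Fin (m + 1)) (s : P), s ∈ S → t a * s ∈ U := fun a s hs =>
    mem_image.2 ⟨(a, s), by simp [hs], rfl⟩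
  have : Finite (P ⧸ M) := Subgroup.finite_quotient_of_finiteIndex
  have : Fintype (P ⧸ M) := Fintype.ofFinite _
  let π : FreeGroup (Fin k) →* P ⧸ M := (QuotientGroup.mk' M).comp ψ
  have hπs : Function.Surjective π := (QuotientGroup.mk'_surjective M).comp hψ
  have hπr : π r = 1 := by
    show QuotientGroup.mk' M (ψ r) = 1
    rw [hψr, map_one]
  have hcork := cork_le_m_all hk r hr1 m H π hπs hπr K
  have hrank := rank_RI_eq K r π
  have hfin : FiniteDimensional K (MonoidAlgebra K (P ⧸ M)) := Module.Finite.equiv (toFn K (P ⧸ M)).symm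
  set I := RI (K := K) (fun j => fox ((MonoidAlgebra.of K (P ⧸ M)).comp π) j r) with hI
  have hD : ∀ j, mapQ K M (fox ((MonoidAlgebra.of K P).comp ψ) j r) =
      fox ((MonoidAlgebra.of K (P ⧸ M)).comp π) j r := by
    intro j
    rw [map_fox]
    congr 1
    refine MonoidHom.ext fun x => ?_
    show mapQ K M (MonoidAlgebra.single (ψ x) 1) = _
    rw [mapQ_single]
    rfl
  -- the linear forms
  let w : Fin (m + 1) → MonoidAlgebra K P := fun a => MonoidAlgebra.single (t a) 1 * z
  let l : Fin (m + 1) → (MonoidAlgebra K (P ⧸ M) →ₗ[K] K) := fun a =>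
    { toFun := fun x => (mapQ K M (w a) * x).coeff 1
      map_add' := fun x y => by rw [mul_add, MonoidAlgebra.coeff_add, Finsupp.add_apply]
      map_smul' := fun c x => by
        rw [mul_smul_comm, MonoidAlgebra.coeff_smul, Finsupp.smul_apply, RingHom.id_apply] }
  have hl : ∀ a, I ≤ LinearMap.ker (l a) := by
    intro a
    rw [hI]
    unfold RI
    rw [Submodule.span_le]
    rintro _ ⟨j, y, rfl⟩
    show (mapQ K M (w a) * (fox ((MonoidAlgebra.of K (P ⧸ M)).comp π) j r * y)).coeff 1 = 0
    rw [← hD j, ← mul_assoc, ← map_mul]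
    show (mapQ K M (MonoidAlgebra.single (t a) 1 * z * fox ((MonoidAlgebra.of K P).comp ψ) j r) * y).coeff 1 = 0
    rw [mul_assoc, hz j, mul_zero, map_zero, zero_mul]
    rfl
  let L : Fin (m + 1) → Module.Dual K (MonoidAlgebra K (P ⧸ M) ⧸ I) := fun a => I.liftQ (l a) (hl a)
  have hw : ∀ (a b : Fin (m + 1)), (mapQ K M (w a)).coeff (QuotientGroup.mk (t b * s₀)) =
      if a = b then z.coeff s₀ else 0 := by
    intro a b
    have hsupp : ∀ x, (w a).coeff x = z.coeff ((t a)⁻¹ * x) := by
      intro x
      show (MonoidAlgebra.single (t a) 1 * z).coeff x = _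
      rw [MonoidAlgebra.coeff_single_mul_apply, one_mul]
    rw [coeff_mapQ M (w a) (t b * s₀)]
    · rw [hsupp]
      split_ifs with hab
      · subst hab
        rw [inv_mul_cancel_left]
      · by_contra hcon
        have h1 : (t a)⁻¹ * (t b * s₀) ∈ S := by
          rw [hS, Finsupp.mem_support_iff]
          exact hcon
        refine ht a b (fun h => hab (Fin.ext h)) _ h1 s₀ hs₀ ?_
        rw [mul_inv_cancel_left]
    · intro s hs hsM
      have h1 : (t a)⁻¹ * s ∈ S := by
        rw [hS, Finsupp.mem_support_iff, ← hsupp]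
        exact Finsupp.mem_support_iff.1 hs
      refine hMU s ?_ _ (hU b s₀ hs₀) hsM
      have h2 := hU a _ h1
      rwa [mul_inv_cancel_left] at h2
  have hind : LinearIndependent K L := by
    rw [Fintype.linearIndependent_iff]
    intro c hc b
    have h1 := LinearMap.congr_fun hc (I.mkQ (MonoidAlgebra.single ((QuotientGroup.mk (t b * s₀) : P ⧸ M)⁻¹) 1))
    rw [LinearMap.sum_apply, LinearMap.zero_apply] at h1
    have h2 : ∀ a, (c a • L a) (I.mkQ (MonoidAlgebra.single ((QuotientGroup.mk (t b * s₀) : P ⧸ M)⁻¹) 1)) =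
        if a = b then c a * z.coeff s₀ else 0 := by
      intro a
      show c a • ((mapQ K M (w a) * MonoidAlgebra.single ((QuotientGroup.mk (t b * s₀) : P ⧸ M)⁻¹) 1).coeff 1) = _
      have h3 : (mapQ K M (w a) * MonoidAlgebra.single ((QuotientGroup.mk (t b * s₀) : P ⧸ M)⁻¹) 1).coeff 1 =
          (mapQ K M (w a)).coeff (QuotientGroup.mk (t b * s₀)) := by
        rw [MonoidAlgebra.coeff_mul_single_apply, mul_one, one_mul, inv_inv]
      rw [h3, hw a b, smul_eq_mul]
      split_ifs <;> simp
    rw [sum_congr rfl fun a _ => h2 a, sum_ite_eq', if_pos (mem_univ b)] at h1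
    exact (mul_eq_zero.1 h1).resolve_right (Finsupp.mem_support_iff.1 hs₀)
  have h4 := hind.fintype_card_le_finrank
  rw [Fintype.card_fin, Subspace.dual_finrank_eq] at h4
  have h5 : Module.finrank K (MonoidAlgebra K (P ⧸ M) ⧸ I) = cork K r π := by
    have := hrank
    rw [← Module.finrank_eq_rank] at this
    exact_mod_cast this
  omega

end Pool.Agent.MelR
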