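import Pool.Agent.MelR.Def

/-!
# Reduced words in a free product (module M1)

`L g` is the reduced word of `g`.  The basic fact: `L (g * h) = L g ++ L h` if the last index of `g` and the first
index of `h` are different (or one of the two is `1`); otherwise `g = g' * of i x`, `h = of i y * h'` and the length
of `g * h` is smaller than the sum of the lengths.
(Mathlib: `CoprodI.Word.prod`, `CoprodI.Word.equiv`, `Word.cons`, `Word.equivPair`, `Word.of_smul_def`, `Word.prod_cons`,
the chain condition `Word.chain_ne`; a word whose list is `L g ++ L h` has product `g * h`, so it is the word of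
`g * h`.)
-/

set_option linter.unusedSectionVars false

open Finset

namespace Pool.Agent.MelR

open Monoid (CoprodI)

variable {ι : Type} [DecidableEq ι] {G : ι → Type} [∀ i, Group (G i)]

/-- The product of a list of letters. -/
def lprod (l : List (Σ i, G i)) : CoprodI G := (l.map fun a => CoprodI.of a.2).prod

theorem lprod_nil : lprod ([] : List (Σ i, G i)) = 1 := rfl

theorem lprod_cons (a : Σ i, G i) (l : List (Σ i, G i)) : lprod (a :: l) = CoprodI.of a.2 * lprod l := by
  unfold lprod
  rw [List.map_cons, List.prod_cons]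

theorem lprod_append (l l' : List (Σ i, G i)) : lprod (l ++ l') = lprod l * lprod l' := by
  unfold lprod
  rw [List.map_append, List.prod_append]

/-- The list is a reduced word. -/
def Red (l : List (Σ i, G i)) : Prop :=
  (∀ a ∈ l, Sigma.snd a ≠ 1) ∧ l.IsChain fun a b => Sigma.fst a ≠ Sigma.fst b

theorem red_L (g : CoprodI G) : Red (L g) := by
  classical
  unfold L
  exact ⟨(CoprodI.Word.equiv g).ne_one, (CoprodI.Word.equiv g).chain_ne⟩

theorem lprod_L (g : CoprodI G) : lprod (L g) = g := by
  classical
  unfold L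
  exact CoprodI.Word.equiv.left_inv g

theorem L_lprod {l : List (Σ i, G i)} (h : Red l) : L (lprod l) = l := by
  classical
  have e := CoprodI.Word.equiv.right_inv (⟨l, h.1, h.2⟩ : CoprodI.Word G)
  have e1 : (CoprodI.Word.equiv (lprod l)).toList = l := congrArg CoprodI.Word.toList e
  unfold L
  convert e1

theorem L_eq {l : List (Σ i, G i)} (h : Red l) {g : CoprodI G} (e : lprod l = g) : L g = l := by
  rw [← e]
  exact L_lprod h

theorem L_inj {g h : CoprodI G} (e : L g = L h) : g = h := by
  rw [← lprod_L g, ← lprod_L h, e]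

theorem red_nil : Red ([] : List (Σ i, G i)) := ⟨by simp, List.isChain_nil⟩

theorem L_one : L (1 : CoprodI G) = [] := L_eq red_nil rfl

theorem len_one : len (1 : CoprodI G) = 0 := by
  unfold len
  rw [L_one]
  rfl

theorem L_eq_nil {g : CoprodI G} : L g = [] ↔ g = 1 := by
  constructor
  · intro h
    rw [← lprod_L g, h]
    rfl
  · rintro rfl
    exact L_one

theorem len_eq_zero {g : CoprodI G} : len g = 0 ↔ g = 1 := by
  unfold len
  rw [List.length_eq_zero_iff]
  exact L_eq_nil

theorem fi_eq_none {g : CoprodI G} : fi g = none ↔ g = 1 := by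
  unfold fi
  rw [Option.map_eq_none_iff, List.head?_eq_none_iff]
  exact L_eq_nil

theorem la_eq_none {g : CoprodI G} : la g = none ↔ g = 1 := by
  unfold la
  rw [Option.map_eq_none_iff, List.getLast?_eq_none_iff]
  exact L_eq_nil

theorem L_of {i : ι} {x : G i} (hx : x ≠ 1) : L (CoprodI.of x : CoprodI G) = [⟨i, x⟩] := by
  apply L_eq
  · refine ⟨?_, List.isChain_singleton _⟩
    intro a ha
    rw [List.mem_singleton] at ha
    subst ha
    exact hx
  · rw [lprod_cons, lprod_nil, mul_one]

theorem len_of {i : ι} {x : G i} (hx : x ≠ 1) : len (CoprodI.of x : CoprodI G) = 1 := by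
  unfold len
  rw [L_of hx]
  rfl

theorem fi_of {i : ι} {x : G i} (hx : x ≠ 1) : fi (CoprodI.of x : CoprodI G) = some i := by
  unfold fi
  rw [L_of hx]
  rfl

theorem la_of {i : ι} {x : G i} (hx : x ≠ 1) : la (CoprodI.of x : CoprodI G) = some i := by
  unfold la
  rw [L_of hx]
  rfl

theorem len_of_le {i : ι} (x : G i) : len (CoprodI.of x : CoprodI G) ≤ 1 := by
  by_cases hx : x = 1
  · subst hx
    rw [map_one, len_one]
    omega
  · rw [len_of hx]

/-- Reduced products. -/
theorem L_mul {g h : CoprodI G} (e : g = 1 ∨ h = 1 ∨ la g ≠ fi h) : L (g * h) = L g ++ L h := by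
  rcases e with e | e | e
  · subst e
    rw [one_mul, L_one, List.nil_append]
  · subst e
    rw [mul_one, L_one, List.append_nil]
  · apply L_eq
    · refine ⟨?_, ?_⟩
      · intro a ha
        rw [List.mem_append] at ha
        rcases ha with ha | ha
        · exact (red_L g).1 a ha
        · exact (red_L h).1 a ha
      · rw [List.isChain_append]
        refine ⟨(red_L g).2, (red_L h).2, ?_⟩
        intro a ha b hb hab
        apply e
        unfold la fi
        rw [Option.mem_def] at ha hb
        rw [ha, hb, Option.map_some, Option.map_some, hab]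
    · rw [lprod_append, lprod_L, lprod_L]

theorem len_mul {g h : CoprodI G} (e : g = 1 ∨ h = 1 ∨ la g ≠ fi h) : len (g * h) = len g + len h := by
  unfold len
  rw [L_mul e, List.length_append]

theorem fi_mul {g h : CoprodI G} (e : g = 1 ∨ h = 1 ∨ la g ≠ fi h) (hg : g ≠ 1) : fi (g * h) = fi g := by
  unfold fi
  rw [L_mul e, List.head?_append_of_ne_nil _ (fun h => hg (L_eq_nil.mp h))]

theorem la_mul {g h : CoprodI G} (e : g = 1 ∨ h = 1 ∨ la g ≠ fi h) (hh : h ≠ 1) : la (g * h) = la h := by
  unfold la
  rw [L_mul e, List.getLast?_append_of_ne_nil _ (fun h => hh (L_eq_nil.mp h))]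

theorem red_tail {a : Σ i, G i} {l : List (Σ i, G i)} (h : Red (a :: l)) : Red l :=
  ⟨fun b hb => h.1 b (List.mem_cons_of_mem _ hb), h.2.tail⟩

/-- The first letter. -/
theorem fi_some {g : CoprodI G} {i : ι} (e : fi g = some i) :
    ∃ (x : G i) (g' : CoprodI G), x ≠ 1 ∧ g = CoprodI.of x * g' ∧ len g = len g' + 1 ∧ fi g' ≠ some i := by
  have hr := red_L g
  have hp := lprod_L g
  unfold fi at e
  cases hL : L g with
  | nil =>
    rw [hL] at e
    cases e
  | cons a t =>
    obtain ⟨j, x⟩ := a
    rw [hL] at e hr hp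
    have hj : j = i := Option.some.inj e
    subst hj
    have ht : L (lprod t) = t := L_lprod (red_tail hr)
    refine ⟨x, lprod t, hr.1 ⟨j, x⟩ List.mem_cons_self, ?_, ?_, ?_⟩
    · rw [← hp, lprod_cons]
    · unfold len
      rw [ht, hL, List.length_cons]
    · unfold fi
      rw [ht]
      intro h
      rw [Option.map_eq_some_iff] at h
      obtain ⟨b, hb, hbj⟩ := h
      have hc := List.isChain_cons.mp hr.2
      exact hc.1 b (Option.mem_def.mpr hb) hbj.symm

/-- The last letter. -/
theorem la_some {g : CoprodI G} {i : ι} (e : la g = some i) :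
    ∃ (g' : CoprodI G) (x : G i), x ≠ 1 ∧ g = g' * CoprodI.of x ∧ len g = len g' + 1 ∧ la g' ≠ some i := by
  have hr := red_L g
  have hp := lprod_L g
  unfold la at e
  rcases List.eq_nil_or_concat (L g) with hL | ⟨t, a, hL⟩
  · rw [hL] at e
    cases e
  · obtain ⟨j, x⟩ := a
    rw [List.concat_eq_append] at hL
    rw [hL] at e hr hp
    rw [List.getLast?_append_of_ne_nil _ (List.cons_ne_nil _ _)] at e
    have hj : j = i := Option.some.inj e
    subst hj
    have hc := List.isChain_append.mp hr.2
    have hrt : Red t := ⟨fun b hb => hr.1 b (List.mem_append.mpr (Or.inl hb)), hc.1⟩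
    have ht : L (lprod t) = t := L_lprod hrt
    refine ⟨lprod t, x, hr.1 ⟨j, x⟩ (List.mem_append.mpr (Or.inr List.mem_cons_self)), ?_, ?_, ?_⟩
    · rw [← hp, lprod_append, lprod_cons, lprod_nil, mul_one]
    · unfold len
      rw [ht, hL, List.length_append]
      rfl
    · unfold la
      rw [ht]
      intro h
      rw [Option.map_eq_some_iff] at h
      obtain ⟨b, hb, hbj⟩ := h
      exact hc.2.2 b (Option.mem_def.mpr hb) ⟨j, x⟩ (by simp) hbj

/-- A product which is not reduced is shorter. -/
theorem len_mul_lt_aux (n : ℕ) : ∀ g h : CoprodI G, len g + len h ≤ n → g ≠ 1 → h ≠ 1 → la g = fi h →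
    len (g * h) < len g + len h := by
  induction n using Nat.strong_induction_on with
  | _ n ih =>
    intro g h hn hg hh e
    obtain ⟨i, hi⟩ := Option.ne_none_iff_exists'.mp (fun h0 => hg (la_eq_none.mp h0))
    obtain ⟨g', x, hx, rfl, hlg, hlag⟩ := la_some hi
    obtain ⟨y, h', hy, rfl, hlh, hfh⟩ := fi_some (e.symm.trans hi)
    have hle : len (g' * h') ≤ len g' + len h' := by
      by_cases h1 : g' = 1 ∨ h' = 1 ∨ la g' ≠ fi h'
      · exact (len_mul h1).le
      · push Not at h1
        exact (ih (len g' + len h') (by omega) g' h' le_rfl h1.1 h1.2.1 h1.2.2).le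
    by_cases hxy : x * y = 1
    · have : g' * CoprodI.of x * (CoprodI.of y * h') = g' * h' := by
        rw [mul_assoc, ← mul_assoc (CoprodI.of x), ← map_mul, hxy, map_one, one_mul]
      rw [this]
      omega
    · have h2 : g' * CoprodI.of x * (CoprodI.of y * h') = g' * (CoprodI.of (x * y) * h') := by
        rw [mul_assoc, ← mul_assoc (CoprodI.of x), ← map_mul]
      have h3 : CoprodI.of (x * y) = (1 : CoprodI G) ∨ h' = 1 ∨
          la (CoprodI.of (x * y) : CoprodI G) ≠ fi h' := by
        right
        right
        rw [la_of hxy]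
        exact fun h0 => hfh h0.symm
      have h4 := len_mul h3
      rw [len_of hxy] at h4
      have h5 : g' = 1 ∨ CoprodI.of (x * y) * h' = 1 ∨ la g' ≠ fi (CoprodI.of (x * y) * h') := by
        right
        right
        rw [fi_mul h3 (fun h0 => hxy (CoprodI.of_injective i (h0.trans (map_one _).symm))), fi_of hxy]
        exact hlag
      rw [h2, len_mul h5, h4]
      omega

theorem len_mul_lt {g h : CoprodI G} (hg : g ≠ 1) (hh : h ≠ 1) (e : la g = fi h) :
    len (g * h) < len g + len h := len_mul_lt_aux _ g h le_rfl hg hh e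

theorem len_mul_le (g h : CoprodI G) : len (g * h) ≤ len g + len h := by
  by_cases h1 : g = 1 ∨ h = 1 ∨ la g ≠ fi h
  · exact (len_mul h1).le
  · push Not at h1
    exact (len_mul_lt h1.1 h1.2.1 h1.2.2).le

/-- If the length is additive, the product is reduced. -/
theorem red_of_len {g h : CoprodI G} (e : len (g * h) = len g + len h) : g = 1 ∨ h = 1 ∨ la g ≠ fi h := by
  by_contra h1
  push Not at h1
  exact (len_mul_lt h1.1 h1.2.1 h1.2.2).ne e

/-- Unique factorization. -/
theorem unique_fac {g h g' h' : CoprodI G} (e : g * h = g' * h') (e1 : len (g * h) = len g + len h)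
    (e2 : len (g * h) = len g' + len h') (e3 : len g = len g') : g = g' ∧ h = h' := by
  have h1 := L_mul (red_of_len e1)
  have h2 := L_mul (red_of_len (e ▸ e2 : len (g' * h') = len g' + len h'))
  rw [e, h2] at h1
  have h3 := List.append_inj h1 e3.symm
  exact ⟨L_inj h3.1.symm, L_inj h3.2.symm⟩

/-- Left multiplication by a letter. -/
theorem len_of_mul {i : ι} {x : G i} (hx : x ≠ 1) {g : CoprodI G} (hg : fi g ≠ some i) :
    len (CoprodI.of x * g) = len g + 1 := by
  rw [len_mul (Or.inr (Or.inr (by rw [la_of hx]; exact fun h => hg h.symm))), len_of hx, add_comm]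

theorem len_of_mul_le {i : ι} (x : G i) {g : CoprodI G} (hg : fi g = some i) :
    len (CoprodI.of x * g) ≤ len g := by
  by_cases hx : x = 1
  · subst hx
    rw [map_one, one_mul]
  · have hg1 : g ≠ 1 := fun h => by
      rw [fi_eq_none.mpr h] at hg
      cases hg
    have h1 := len_mul_lt (g := (CoprodI.of x : CoprodI G)) (h := g)
      (fun h => hx (CoprodI.of_injective i (h.trans (map_one _).symm))) hg1 (by rw [la_of hx, hg])
    rw [len_of hx] at h1
    omega

/-- Right multiplication by a letter. -/
theorem len_mul_of {i : ι} {x : G i} (hx : x ≠ 1) {g : CoprodI G} (hg : la g ≠ some i) :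
    len (g * CoprodI.of x) = len g + 1 := by
  rw [len_mul (Or.inr (Or.inr (by rw [fi_of hx]; exact hg))), len_of hx]

theorem len_mul_of_le {i : ι} (x : G i) {g : CoprodI G} (hg : la g = some i) :
    len (g * CoprodI.of x) ≤ len g := by
  by_cases hx : x = 1
  · subst hx
    rw [map_one, mul_one]
  · have hg1 : g ≠ 1 := fun h => by
      rw [la_eq_none.mpr h] at hg
      cases hg
    have h1 := len_mul_lt (g := g) (h := (CoprodI.of x : CoprodI G)) hg1
      (fun h => hx (CoprodI.of_injective i (h.trans (map_one _).symm))) (by rw [fi_of hx, hg])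
    rw [len_of hx] at h1
    omega

end Pool.Agent.MelR
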